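import Pool.Agent.Run7.h552.PG.Dual

/-!
# Tate classes on towers are polynomials in Tate classes on pairs
-/

set_option autoImplicit false
set_option linter.unusedSectionVars false

open CategoryTheory AlgebraicGeometry Finset Function

universe u

namespace Run7.h552.PG

open Pool.Agent Pool.Agent.H914 Pool.Agent.H914.VarClass Pool.Agent.H914.VarClass.Obj
  Pool.Agent.H914.WeilCohomology Pool.Agent.H281R3.HT Pool.Agent.TH125.Gal
  Pool.Agent.Y127.G Run7.h552.PD
open Run7.h552.NP (IsProd Equivariant)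
open Run7.h552.MX (MRep Indep)

noncomputable section

variable {k : Type u} [Field k] {𝒱 : VarClass k} {ops : CycleOps 𝒱}
  {W : WeilCohomology.{u, 0} ops} {Γ : Type} [Group Γ] {ι τ : Type}
  {χ : Γ →* W.Kˣ} {T : τ → FRep W.K Γ} {dT : τ → ℕ} (hT : ∀ t, MRep (T t))
  (bs : ∀ t, Module.Basis (Fin (Module.finrank W.K (T t).V)) W.K (T t).V) {S : Finset τ}
  {X : ι → GVar W Γ} {Z : GVar W Γ} (E : ∀ i, Dg χ T dT (X i))

section words

variable {m : ℕ} {L : Fin m → ι} {Y : GVar W Γ} (D : TD X Z L Y)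
  (hS : ∀ v : Lt E L, tl E v ∈ S)

/-- the classes which define invariants -/
def Vs : Submodule W.K (W.H Y.X) where
  carrier := {c | ∀ w, Al hT E w → ∀ l, fC bs E D hS w (sig E D l) c ∈
    Pool.Agent.TH125.Nod.Gen (fun b : Bx T S => b.1) (Qg hT bs S) (sL E hS w)}
  add_mem' := by
    intro a b ha hb w hw l
    have h1 : fC bs E D hS w (sig E D l) (a + b) = fC bs E D hS w (sig E D l) a +
        fC bs E D hS w (sig E D l) b := by
      funext J
      rw [Pi.add_apply, fC_apply, fC_apply, fC_apply, mul_add, mul_add, map_add]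
    rw [h1]
    exact Submodule.add_mem _ (ha w hw l) (hb w hw l)
  zero_mem' := by
    intro w hw l
    have h1 : fC bs E D hS w (sig E D l) 0 = 0 := by
      funext J
      rw [Pi.zero_apply, fC_apply, mul_zero, mul_zero, map_zero]
    rw [h1]
    exact Submodule.zero_mem _
  smul_mem' := by
    intro r a ha w hw l
    have h1 : fC bs E D hS w (sig E D l) (r • a) = r • fC bs E D hS w (sig E D l) a := by
      funext J
      rw [Pi.smul_apply, fC_apply, fC_apply, mul_smul_comm, mul_smul_comm, map_smul]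
    rw [h1]
    exact Submodule.smul_mem _ _ (ha w hw l)

/-- the pairing with a product -/
theorem tr_words {w : List (Lt E L)} {l : ∀ a, (E (L a)).NC} {c : W.H Y.X}
    (x : ∀ r : Fin w.length, (T (tl E (w.get r))).V) (s : W.H Z.X) :
    ∃ n : ℕ, n = (w.map (dl E)).sum + 2 * (sig_tate E D l).choose ∧
      W.tr Y.X (c * (W.map D.q s * (Phi E D w x * sig E D l))) =
      (-1 : W.K) ^ n * W.tr Z.X (hC E D w (sig E D l) c x * s) := by
  refine ⟨_, rfl, ?_⟩
  set n := (w.map (dl E)).sum + 2 * (sig_tate E D l).choose with hn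
  have h1 : Phi E D w x * sig E D l ∈ W.gr Y.X n :=
    W.mul_mem (Phi_mem E D w x) (sig_tate E D l).choose_spec.1
  have h2 := tr_swap h1 (c * W.map D.q s)
  have h3 : (-1 : W.K) ^ n * (-1) ^ n = 1 := by
    rw [← pow_add, ← two_mul, pow_mul, neg_one_sq, one_pow]
  have h4 : W.tr Y.X (c * W.map D.q s * (Phi E D w x * sig E D l)) =
      (-1 : W.K) ^ n * W.tr Y.X (Phi E D w x * sig E D l * (c * W.map D.q s)) := by
    rw [h2, ← mul_assoc ((-1 : W.K) ^ n), h3, one_mul]
  rw [← mul_assoc c, h4, hC_apply, W.tr_push]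
  congr 2
  simp only [mul_assoc]

variable [IsAlgClosed W.K]

/-- **All Tate classes on a tower.** -/
theorem mem_tgt [DecidableEq τ] (e : W.K ≃+* ℂ) (C : Ctx (dT := dT) χ hT Z)
    (hb : ∀ t, IsGood e (hT t).B (bs t)) (hY : TrAct χ Y) (hZ : TrAct χ Z)
    {𝒜 : Subalgebra W.K (W.H Y.X)} (h1 : ∀ a l, W.map (D.p a) ((E (L a)).s l) ∈ 𝒜)
    (h2 : ∀ v v', thl hT bs E D hS v v' ∈ 𝒜)
    (hal : ∀ w : ∀ a, List (Fin (E (L a)).r), (∀ a, w a ∈ (E (L a)).wd) →
      Al hT E (List.ofFn fun a => (w a).map fun u => (⟨a, u⟩ : Lt E L)).flatten)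
    {j : ℕ} {c : W.H Y.X} (hc : IsTate χ Y j c) : c ∈ Tgt' χ D 𝒜 := by
  classical
  have h3 : Tgt' χ D 𝒜 ≤ Vs hT bs E D hS := by
    unfold Tgt'
    rw [Submodule.span_le]
    rintro y ⟨M, w0, ⟨⟨j', hM⟩, -⟩, -, rfl⟩
    intro w hw l
    obtain ⟨n, hn⟩ := sig_tate E D l
    exact fC_mul hT bs E D hS e C hY hZ hw hn hM w0
  have h4 : ∀ c ∈ Vs hT bs E D hS, (∀ n ∈ Tgt' χ D 𝒜, W.tr Y.X (c * n) = 0) → c = 0 := by
    intro c hcV hort
    obtain ⟨st, st0, st1, st2, st3⟩ := exists_star e Z.X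
    have h5 : ∀ w, Al hT E w → ∀ l J, fC bs E D hS w (sig E D l) c J = 0 := by
      intro w hw l
      by_contra hcon
      push Not at hcon
      have h6 := hort _ (Nf_mem hT bs E D hS e hb C.mu h1 h2 st0 st1 st2 w l (hcV w hw l))
      unfold Nf at h6
      rw [Finset.mul_sum, map_sum] at h6
      have h7 : ∀ J : Fin w.length → Bx T S, W.tr Y.X (c * (W.map D.q
          (st (fC bs E D hS w (sig E D l) c J)) * (Phi E D w (vJ bs E hS w J) * sig E D l))) =
          (-1 : W.K) ^ ((w.map (dl E)).sum + 2 * (sig_tate E D l).choose) *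
            W.tr Z.X (fC bs E D hS w (sig E D l) c J *
              st (fC bs E D hS w (sig E D l) c J)) := by
        intro J
        obtain ⟨n, hn, h8⟩ := tr_words E D (w := w) (l := l) (c := c) (vJ bs E hS w J)
          (st (fC bs E D hS w (sig E D l) c J))
        rw [← hn]
        exact h8
      rw [Finset.sum_congr rfl fun J _ => h7 J, ← Finset.mul_sum] at h6
      exact st3 _ hcon ((mul_eq_zero.1 h6).resolve_left (pow_ne_zero _ (by norm_num)))
    refine W.nondeg c fun b => ?_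
    have h6 := span_words E D b
    induction h6 using Submodule.span_induction with
    | mem y hy =>
      obtain ⟨l, w, x, z, hw, rfl⟩ := hy
      obtain ⟨n, -, h7⟩ := tr_words E D (l := l) (c := c) x z
      rw [h7]
      have h8 : hC E D (List.ofFn fun a => (w a).map fun u => (⟨a, u⟩ : Lt E L)).flatten
          (sig E D l) c = 0 := by
        refine Module.Basis.ext_multilinear (fun r => bs _) fun p => ?_
        have h9 := h5 _ (hal w hw) l fun r => ⟨sL E hS _ r, p r⟩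
        rw [_root_.zero_apply, ← h9]
        change hC E D _ _ c _ = hC E D _ _ c _
        congr 1
        funext r
        exact (vg_self bs S ⟨sL E hS _ r, p r⟩).symm
      rw [h8, _root_.zero_apply, zero_mul, map_zero, mul_zero]
    | zero => rw [mul_zero, map_zero]
    | add a b _ _ ha hb => rw [mul_add, map_add, ha, hb, add_zero]
    | smul r a _ ha => rw [mul_smul_comm, map_smul, ha, smul_zero]
  have h5 : Module.finrank W.K (Vs hT bs E D hS) ≤ Module.finrank W.K (Tgt' χ D 𝒜) := by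
    let φ : Vs hT bs E D hS →ₗ[W.K] Module.Dual W.K (Tgt' χ D 𝒜) :=
      ((bil W Y.X).compl₁₂ (Vs hT bs E D hS).subtype (Tgt' χ D 𝒜).subtype)
    have hφ : ∀ c n, φ c n = W.tr Y.X ((c : W.H Y.X) * n) := fun c n => rfl
    have h6 : Function.Injective φ := by
      rw [← LinearMap.ker_eq_bot, LinearMap.ker_eq_bot']
      intro c hc
      apply Subtype.ext
      refine h4 c.1 c.2 fun n hn => ?_
      rw [← hφ c ⟨n, hn⟩, hc]
      rfl
    have h7 := LinearMap.finrank_le_finrank_of_injective h6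
    rwa [Subspace.dual_finrank_eq] at h7
  have h6 : Tgt' χ D 𝒜 = Vs hT bs E D hS := Submodule.eq_of_le_of_finrank_le h3 h5
  rw [h6]
  intro w hw l
  obtain ⟨n, hn⟩ := sig_tate E D l
  exact fC_mem hT bs E D hS e C hY hZ hw hn hc

end words

/-- The pull-backs of Tate classes on the base, on the factors and on products of two linked
factors. -/
def PairTate (χ : Γ →* W.Kˣ) (X : ι → GVar W Γ) (R : ι → ι → Prop) (Z : GVar W Γ) {m : ℕ}
    (L : Fin m → ι) (Y : GVar W Γ) : Set (W.H Y.X) :=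
  {x | ∃ (V : GVar W Γ) (f : Y.X ⟶ V.X) (n : ℕ) (z : W.H V.X),
    (V = Z ∨ (∃ a, V = X (L a)) ∨
      ∃ a b, a < b ∧ R (L a) (L b) ∧ IsProd (X (L a)) (X (L b)) V) ∧
    Equivariant (A := Y) (B := V) f ∧ IsTate χ V n z ∧ x = W.map f z}

/-- morphisms to products -/
theorem exists_lift {A B V Y : GVar W Γ} (hP : IsProd A B V) {p : Y.X ⟶ A.X} {q : Y.X ⟶ B.X}
    (hp : Equivariant (A := Y) (B := A) p) (hq : Equivariant (A := Y) (B := B) q) :
    ∃ (p' : V.X ⟶ A.X) (q' : V.X ⟶ B.X) (f : Y.X ⟶ V.X), Equivariant (A := V) (B := A) p' ∧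
      Equivariant (A := V) (B := B) q' ∧ Equivariant (A := Y) (B := V) f ∧ f ≫ p' = p ∧
        f ≫ q' = q ∧ (∀ c, c ∈ Submodule.span W.K {y | ∃ a b, y = W.map p' a * W.map q' b}) ∧
          ∀ a b, W.tr V.X (W.map p' a * W.map q' b) = W.tr A.X a * W.tr B.X b := by
  obtain ⟨V, υ⟩ := V
  obtain ⟨h, h1, h2⟩ := hP
  change V = _ at h
  subst h
  rw [eqToHom_refl, Category.id_comp] at h1 h2
  have hf1 : Obj.lift p q ≫ fst A.X B.X = p := Obj.lift_fst _ _
  have hf2 : Obj.lift p q ≫ snd A.X B.X = q := Obj.lift_snd _ _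
  refine ⟨fst A.X B.X, snd A.X B.X, Obj.lift p q, h1, h2, ?_, hf1, hf2, ?_,
    fun a b => W.tr_prod a b⟩
  · intro g x
    refine W.kunneth_induction (p := fun x => Y.act g (W.map (Obj.lift p q) x) =
      W.map (Obj.lift p q) (υ g x)) ?_ ?_ x
    · intro a b ha hb
      rw [map_add, map_add, map_add, map_add, ha, hb]
    · intro i j a _ b _
      have k1 : υ g (W.map (fst A.X B.X) a) = W.map (fst A.X B.X) (A.act g a) := h1 g a
      have k2 : υ g (W.map (snd A.X B.X) b) = W.map (snd A.X B.X) (B.act g b) := h2 g b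
      have k3 : Y.act g (W.map p a) = W.map p (A.act g a) := hp g a
      have k4 : Y.act g (W.map q b) = W.map q (B.act g b) := hq g b
      rw [map_mul, map_mul, map_mul, map_mul, k1, k2, ← W.map_comp, ← W.map_comp,
        ← W.map_comp, ← W.map_comp, hf1, hf2, k3, k4]
  · intro c
    refine W.kunneth_induction (p := fun c => c ∈ Submodule.span W.K {y | ∃ a b, y =
      W.map (fst A.X B.X) a * W.map (snd A.X B.X) b}) (fun a b ha hb =>
        Submodule.add_mem _ ha hb) ?_ c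
    intro i j a _ b _
    exact Submodule.subset_span ⟨a, b, rfl⟩

variable [IsAlgClosed W.K]

/-- **The main theorem.** -/
theorem mem_adjoin (e : W.K ≃+* ℂ) (C : Ctx (dT := dT) χ hT Z)
    (hX : ∀ i, TrAct χ (X i)) (hZ : TrAct χ Z) {R : ι → ι → Prop}
    (hR : ∀ a b (u : Fin (E a).r) (u' : Fin (E b).r), (E a).ty u = (E b).ty u' → R a b)
    (hprod : ∀ a b, R a b → ∃ V, IsProd (X a) (X b) V)
    {m : ℕ} {L : Fin m → ι} {Y : GVar W Γ} (hY : Tow X Z L Y)
    (hal : ∀ w : ∀ a, List (Fin (E (L a)).r), (∀ a, w a ∈ (E (L a)).wd) →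
      Al hT E (List.ofFn fun a => (w a).map fun u => (⟨a, u⟩ : Lt E L)).flatten)
    {j : ℕ} {c : W.H Y.X} (hc : IsTate χ Y j c) :
    c ∈ Algebra.adjoin W.K (PairTate χ X R Z L Y) := by
  classical
  obtain ⟨D⟩ := hY.data
  let S : Finset τ := (Finset.univ : Finset (Σ a : Fin m, Fin (E (L a)).r)).image
    fun v => (E (L v.1)).ty v.2
  have hS : ∀ v : Lt E L, tl E v ∈ S := fun v => Finset.mem_image.2 ⟨v, Finset.mem_univ _, rfl⟩
  choose bs hb using fun t => exists_good e (hT t).B (by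
    cases h : hT t with
    | sp o => exact Or.inr fun x y => o.sy x y
    | so o => exact Or.inl fun x y => o.sy x y) (MRep.nd (hT t))
  have h1 : ∀ a l, W.map (D.p a) ((E (L a)).s l) ∈
      Algebra.adjoin W.K (PairTate χ X R Z L Y) := by
    intro a l
    exact Algebra.subset_adjoin ⟨X (L a), D.p a, (E (L a)).n l, (E (L a)).s l,
      Or.inr (Or.inl ⟨_, rfl⟩), D.hp a, (E (L a)).isTate l, rfl⟩
  have key : ∀ (v v' : Lt E L) (V : GVar W Γ) (p : V.X ⟶ (X (L v.1)).X)
      (q : V.X ⟶ (X (L v'.1)).X) (f : Y.X ⟶ V.X) (_ : Equivariant (A := V) (B := X (L v.1)) p)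
      (_ : Equivariant (A := V) (B := X (L v'.1)) q) (_ : Equivariant (A := Y) (B := V) f)
      (_ : f ≫ p = D.p v.1) (_ : f ≫ q = D.p v'.1)
      (_ : V = Z ∨ (∃ a, V = X (L a)) ∨
        ∃ a b, a < b ∧ R (L a) (L b) ∧ IsProd (X (L a)) (X (L b)) V),
      thl hT bs E D hS v v' ∈ Algebra.adjoin W.K (PairTate χ X R Z L Y) := by
    intro v v' V p q f hp hq hf hf1 hf2 hV
    obtain ⟨i, hi⟩ := theta_tate hT bs S e hb C.mu (V := V) (A := X (L v.1)) (B := X (L v'.1)) hp
      hq (E (L v.1)) (E (L v'.1)) (hS v) (hS v')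
    refine Algebra.subset_adjoin ⟨V, f, i, _, hV, hf, hi, ?_⟩
    refine Eq.trans ?_ (map_theta hT bs S (V := V) (V' := Y) (A := X (L v.1))
      (B := X (L v'.1)) f _ _ (t := ⟨(E (L v.1)).ty v.2, hS v⟩)
      (t' := ⟨(E (L v'.1)).ty v'.2, hS v'⟩) _ _).symm
    unfold thl
    congr 1
    · exact hf1.symm
    · exact hf2.symm
  have h2 : ∀ v v', thl hT bs E D hS v v' ∈ Algebra.adjoin W.K (PairTate χ X R Z L Y) := by
    intro v v'
    by_cases ht : (E (L v.1)).ty v.2 = (E (L v'.1)).ty v'.2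
    swap
    · have h3 : thl hT bs E D hS v v' = 0 :=
        theta_ne hT bs S fun h => ht (congrArg Subtype.val h)
      rw [h3]
      exact Subalgebra.zero_mem _
    rcases lt_trichotomy v.1 v'.1 with h | h | h
    · obtain ⟨V, hP⟩ := hprod _ _ (hR _ _ _ _ ht)
      obtain ⟨p', q', f, k1, k2, k3, k4, k5, -, -⟩ := exists_lift hP (D.hp v.1) (D.hp v'.1)
      exact key v v' V p' q' f k1 k2 k3 k4 k5 (Or.inr (Or.inr ⟨_, _, h, hR _ _ _ _ ht, hP⟩))
    · obtain ⟨a, u⟩ := v
      obtain ⟨a', u'⟩ := v'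
      change a = a' at h
      subst h
      refine key ⟨a, u⟩ ⟨a, u'⟩ (X (L a)) (𝟙 _) (𝟙 _) (D.p a) ?_ ?_ (D.hp a)
        (Category.comp_id _) (Category.comp_id _) (Or.inr (Or.inl ⟨a, rfl⟩))
      · intro g x
        rw [W.map_id, W.map_id]
      · intro g x
        rw [W.map_id, W.map_id]
    · obtain ⟨V, hP⟩ := hprod _ _ (hR _ _ _ _ ht.symm)
      obtain ⟨p', q', f, k1, k2, k3, k4, k5, -, -⟩ := exists_lift hP (D.hp v'.1) (D.hp v.1)
      exact key v v' V q' p' f k2 k1 k3 k5 k4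
        (Or.inr (Or.inr ⟨_, _, h, hR _ _ _ _ ht.symm, hP⟩))
  have h3 := mem_tgt hT bs E D hS e C hb (trAct_tow hY hX hZ) hZ h1 h2 hal hc
  obtain ⟨N, hN, M, w, k1, k2, rfl⟩ := exists_coeff D hc h3
  refine Subalgebra.sum_mem _ fun n _ => Subalgebra.mul_mem _ (k1 n).2 ?_
  obtain ⟨i, hi⟩ := k2 n
  exact Algebra.subset_adjoin ⟨Z, D.q, i, w n, Or.inl rfl, D.hq, hi, rfl⟩

end

end Run7.h552.PG
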