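import Pool.Agent.Run7.h552.PD.Defs

/-!
# Theories of special cohomology classes
-/

set_option autoImplicit false

open CategoryTheory AlgebraicGeometry

universe u

namespace Run7.h552.PG

open Pool.Agent.H914 Pool.Agent.H914.VarClass Pool.Agent.H914.VarClass.Obj
  Pool.Agent.H914.WeilCohomology Pool.Agent.TH125.Gal Run7.h552.NP Run7.h552.PD

/-- The set `S` is a subalgebra. -/
def IsSubalg (K : Type) {A : Type} [Field K] [Ring A] [Algebra K A] (S : Set A) : Prop :=
  ∃ B : Subalgebra K A, (B : Set A) = S

variable {k : Type u} [Field k] {𝒱 : VarClass k} {ops : CycleOps 𝒱}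

/-- A theory of special cohomology classes: subalgebras of the cohomology algebras which are stable
under pull-backs and push-forwards, for example the spaces generated by the absolute Hodge classes,
by the motivated classes, or by the classes of algebraic cycles. -/
structure ClassTheory (W : WeilCohomology.{u, 0} ops) where
  /-- the special classes -/
  cls : ∀ V : 𝒱.Obj, Set (W.H V)
  alg : ∀ V, IsSubalg W.K (cls V)
  map : ∀ (V V' : 𝒱.Obj) (f : V ⟶ V'), Set.MapsTo (W.map f) (cls V') (cls V)
  push : ∀ (V V' : 𝒱.Obj) (f : V ⟶ V'), Set.MapsTo (W.push f) (cls V) (cls V')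

variable {W : WeilCohomology.{u, 0} ops} {Γ : Type} [Group Γ] {ι : Type}

/-- All classes `x` in `H^(2n)(V)` which are multiplied by `χ g ^ n` by all `g` in a subgroup of
finite index are special classes. -/
def IsFull (χ : CharOf W Γ) (𝒞 : ClassTheory W) (V : GVar W Γ) : Prop :=
  ∀ n x, IsTate χ V n x → x ∈ 𝒞.cls V.X

/-- `IsFull` for `Z`, for the factors `X_(L a)`, and for the products of two linked factors. -/
def PairsFull (χ : CharOf W Γ) (𝒞 : ClassTheory W) {X : ι → GVar W Γ} (P : ∀ i, Gens (X i))
    (Z : GVar W Γ) {m : ℕ} (L : Fin m → ι) : Prop :=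
  IsFull χ 𝒞 Z ∧ (∀ a, IsFull χ 𝒞 (X (L a))) ∧
    ∀ a b, a < b → LinkedVar P (L a) (L b) → ∀ V, IsProd (X (L a)) (X (L b)) V → IsFull χ 𝒞 V

end Run7.h552.PG
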