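import Pool.Agent.Run7.h552.PG.Cv
import Pool.Agent.Run7.h552.PG.ClDefs

/-!
# Theories of special cohomology classes: towers and pairs
-/

set_option autoImplicit false
set_option linter.unusedSectionVars false

open CategoryTheory AlgebraicGeometry Finset Function

universe u

namespace Run7.h552.PG

open Pool.Agent Pool.Agent.H914 Pool.Agent.H914.VarClass Pool.Agent.H914.VarClass.Obj
  Pool.Agent.H914.WeilCohomology Pool.Agent.H281R3.HT Pool.Agent.Y127.G Run7.h552.PD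
open Pool.Agent.TH125.Gal hiding Equivariant
open Run7.h552.NP (IsProd Equivariant)

noncomputable section

variable {k : Type u} [Field k] {𝒱 : VarClass k} {ops : CycleOps 𝒱}
  {W : WeilCohomology.{u, 0} ops} {Γ : Type} [Group Γ] {ι : Type} {χ : Γ →* W.Kˣ}
  {𝒞 : ClassTheory W}

/-- **From a variety to the target of a morphism.** -/
theorem full_of_push {Y V : GVar W Γ} {f : Y.X ⟶ V.X} (hf : Equivariant (A := Y) (B := V) f)
    {α : W.H Y.X} (hα : ∃ n, IsTate χ Y n α) {r : W.K} (hr : r ≠ 0) (hp : W.push f α = r • 1)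
    (hY : IsFull χ 𝒞 Y) : IsFull χ 𝒞 V := by
  intro j c hc
  obtain ⟨n, hα⟩ := hα
  obtain ⟨B, hB⟩ := 𝒞.alg V.X
  have h1 : W.push f (α * W.map f c) ∈ 𝒞.cls V.X := 𝒞.push _ _ f (hY _ _ (hα.mul (hc.map hf)))
  rw [← hB] at h1 ⊢
  have h2 : W.push f (α * W.map f c) = r • c := by
    rw [push_mul, hp, smul_mul_assoc, one_mul]
  rw [h2] at h1
  have h5 := B.smul_mem h1 r⁻¹
  rwa [smul_smul, inv_mul_cancel₀ hr, one_smul] at h5

theorem full_of_retr {Y V : GVar W Γ} (h : Retr χ Y V) (hY : IsFull χ 𝒞 Y) : IsFull χ 𝒞 V := by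
  obtain ⟨f, hf, α, hα, r, hr, hp⟩ := h
  exact full_of_push hf hα hr hp hY

variable {X : ι → GVar W Γ} {Z : GVar W Γ} {G : Set (GVar W Γ)} {P : ∀ i, Gens (X i)}

/-- **From towers to pairs.** -/
theorem pairs_of_full (h : GenFamily χ G X P Z) {m : ℕ} {L : Fin m → ι} {Y : GVar W Γ}
    (hY : Tow X Z L Y) (hp : ∀ a, HasPoint (X (L a))) (hpZ : HasPoint Z)
    (hT : IsFull χ 𝒞 Y) : PairsFull χ 𝒞 P Z L := by
  obtain ⟨D⟩ := hY.data
  choose pt h1 h2 using fun a => exists_pt_class (χ := χ) (h.good _ (h.mem (L a))).1 (hp a)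
  obtain ⟨ptZ, h3, h4⟩ := exists_pt_class (χ := χ) (h.good _ h.mem_base).1 hpZ
  exact ⟨full_of_retr (retr_base D h1 h2) hT, fun a => full_of_retr (retr_factor D h1 h2 h3 h4 a) hT,
    fun a b hab _ V hV => full_of_retr (retr_pair D h1 h2 h3 h4 hab hV) hT⟩

/-- **From pairs to towers.** -/
theorem full_of_pairs [IsAlgClosed W.K] (e : W.K ≃+* ℂ) (h : GenFamily χ G X P Z) {m : ℕ}
    {L : Fin m → ι} {Y : GVar W Γ} (hY : Tow X Z L Y) (hL : Few P L)
    (hT : PairsFull χ 𝒞 P Z L) : IsFull χ 𝒞 Y := by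
  intro j c hc
  obtain ⟨B, hB⟩ := 𝒞.alg Y.X
  rw [← hB]
  refine Algebra.adjoin_le (S := B) ?_ (mem_fromPairs e h hY hL hc)
  rintro x ⟨V, f, n, z, hV, -, hz, rfl⟩
  have h2 : W.map f z ∈ 𝒞.cls Y.X → W.map f z ∈ (B : Set (W.H Y.X)) := fun h => by rwa [hB]
  refine h2 (𝒞.map _ _ f ?_)
  rcases hV with rfl | ⟨a, rfl⟩ | ⟨a, b, hab, hR, hP⟩
  · exact hT.1 n z hz
  · exact hT.2.1 a n z hz
  · exact hT.2.2 a b hab hR V hP n z hz

end

end Run7.h552.PG
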