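import Pool.Agent.Run7.h552.PD.Fft

/-!
# Multipliers and twists
-/

set_option autoImplicit false
set_option linter.unusedSectionVars false

namespace Run7.h552.PG

open Module Finset Function Pool.Agent.TH118.SG Pool.Agent.TH125.Gal Pool.Agent.Y127.G
  Pool.Agent.Y95.ZT Run7.h552.PD

section det

variable {K : Type} [Field K] {V : Type} [AddCommGroup V] [Module K V] [FiniteDimensional K V]

/-- the determinant of a similitude -/
theorem det_sq (B : V →ₗ[K] V →ₗ[K] K) (nd : ∀ x, (∀ y, B y x = 0) → x = 0) {f : V →ₗ[K] V}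
    {μ : K} (hf : ∀ x y, B (f x) (f y) = μ * B x y) :
    LinearMap.det f ^ 2 = μ ^ finrank K V := by
  classical
  let v := finBasis K V
  obtain ⟨d, hd, -⟩ := exists_dual B nd v
  let Q : Matrix _ _ K := Matrix.of fun p q => B (v p) (v q)
  let A : Matrix _ _ K := LinearMap.toMatrix v v f
  have hA : ∀ p, f (v p) = ∑ r, A r p • v r := by
    intro p
    conv_lhs => rw [← v.sum_repr (f (v p))]
    refine Finset.sum_congr rfl fun r _ => ?_
    have h0 : A r p = v.repr (f (v p)) r := LinearMap.toMatrix_apply v v f r p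
    rw [h0]
  have h1 : ∃ R : Matrix (Fin (finrank K V)) (Fin (finrank K V)) K, Q * R = 1 := by
    refine ⟨Matrix.of fun q r => v.repr (d r) q, ?_⟩
    ext p r
    rw [Matrix.mul_apply, Matrix.one_apply, ← hd p r]
    conv_rhs => rw [← v.sum_repr (d r), map_sum]
    refine Finset.sum_congr rfl fun q _ => ?_
    rw [map_smul, smul_eq_mul, mul_comm]
    rfl
  obtain ⟨R, hR⟩ := h1
  have h2 : A.transpose * Q * A = μ • Q := by
    ext p q
    rw [Matrix.smul_apply, smul_eq_mul]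
    have h3 : μ * Q p q = B (f (v p)) (f (v q)) := (hf _ _).symm
    rw [h3, hA p, hA q, LinearMap.map_sum₂, Matrix.mul_apply]
    simp only [Matrix.mul_apply, Matrix.transpose_apply]
    rw [Finset.sum_congr rfl fun j _ => Finset.sum_mul _ _ _, Finset.sum_comm]
    refine Finset.sum_congr rfl fun r _ => ?_
    rw [map_sum]
    refine Finset.sum_congr rfl fun j _ => ?_
    rw [map_smul, map_smul, LinearMap.smul_apply, smul_eq_mul, smul_eq_mul]
    change A r p * Q r j * A j q = A j q * (A r p * Q r j)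
    ring
  have h3 := congrArg Matrix.det h2
  rw [Matrix.det_mul, Matrix.det_mul, Matrix.det_transpose, Matrix.det_smul, Fintype.card_fin] at h3
  have h4 : Q.det ≠ 0 := by
    intro h
    have h5 := congrArg Matrix.det hR
    rw [Matrix.det_mul, h, zero_mul, Matrix.det_one] at h5
    exact zero_ne_one h5
  have h5 : A.det = LinearMap.det f := LinearMap.det_toMatrix v f
  rw [← h5]
  have h6 : (A.det ^ 2 - μ ^ finrank K V) * Q.det = 0 := by
    linear_combination h3
  exact sub_eq_zero.1 ((mul_eq_zero.1 h6).resolve_right h4)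

end det

section twist

variable {K : Type} [Field K] {Γ : Type} [Group Γ]

/-- characters of finite order -/
theorem finite_order (θ : Γ →* Kˣ) {n : ℕ} (hn : n ≠ 0) (h : ∀ g, θ g ^ n = 1) :
    θ.ker.FiniteIndex := by
  have : NeZero n := ⟨hn⟩
  have h1 : θ.range ≤ rootsOfUnity n K := by
    rintro _ ⟨g, rfl⟩
    rw [mem_rootsOfUnity]
    exact h g
  have h2 : Finite θ.range := Finite.of_injective (Subgroup.inclusion h1)
    (Subgroup.inclusion_injective h1)
  exact Subgroup.finiteIndex_ker θ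

variable {M N : FRep K Γ}

/-- **The twist between two linked representations.** -/
theorem exists_twist {χ : Γ →* Kˣ} {d d' : ℕ} {B : M.V →ₗ[K] M.V →ₗ[K] K}
    {B' : N.V →ₗ[K] N.V →ₗ[K] K} (nd : ∀ x, (∀ y, B y x = 0) → x = 0)
    (nd' : ∀ x, (∀ y, B' y x = 0) → x = 0)
    (hB : ∀ g x y, B (M.ρ g x) (M.ρ g y) = (χ g : K) ^ d * B x y)
    (hB' : ∀ g x y, B' (N.ρ g x) (N.ρ g y) = (χ g : K) ^ d' * B' x y)
    {ψ : M.V ≃ₗ[K] N.V} {ε : Γ → K} (hψ : ∀ g x, ψ (M.ρ g x) = ε g • N.ρ g (ψ x))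
    (hne : ∃ x : M.V, x ≠ 0) {z : ℤ} (hz : 2 * z = (d : ℤ) - d') :
    ∃ Δ : Subgroup Γ, Δ.FiniteIndex ∧ ∀ g ∈ Δ, ε g = (χ g : K) ^ z := by
  obtain ⟨x, hx⟩ := hne
  have hψx : ψ x ≠ 0 := fun h => hx (ψ.injective (by rw [h, map_zero]))
  have h1 : ε 1 = 1 := by
    have h2 := hψ 1 x
    rw [map_one, map_one, Module.End.one_apply, Module.End.one_apply] at h2
    have h3 : (ε 1 - 1) • ψ x = 0 := by rw [sub_smul, one_smul, ← h2, sub_self]
    exact sub_eq_zero.1 ((smul_eq_zero.1 h3).resolve_right hψx)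
  have hNne : ∀ g, N.ρ g (ψ x) ≠ 0 := by
    intro g h
    apply hψx
    rw [← FRep.inv_left N g (ψ x), h, map_zero]
  have h2 : ∀ g h, ε (g * h) = ε g * ε h := by
    intro g h
    have k1 := hψ (g * h) x
    have k2 : ψ (M.ρ (g * h) x) = (ε g * ε h) • N.ρ (g * h) (ψ x) := by
      rw [map_mul, map_mul, Module.End.mul_apply, Module.End.mul_apply, hψ, hψ, map_smul, smul_smul]
    rw [k2] at k1
    have h3 : (ε (g * h) - ε g * ε h) • N.ρ (g * h) (ψ x) = 0 := by
      rw [sub_smul, k1, sub_self]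
    exact sub_eq_zero.1 ((smul_eq_zero.1 h3).resolve_right (hNne _))
  let η : Γ →* K := { toFun := ε, map_one' := h1, map_mul' := h2 }
  let E : Γ →* Kˣ := η.toHomUnits
  have hE : ∀ g, (E g : K) = ε g := fun g => rfl
  let θ : Γ →* Kˣ := E * χ ^ (-z)
  have hθ : ∀ g, (θ g : K) = ε g * (χ g : K) ^ (-z) := by
    intro g
    rw [MonoidHom.mul_apply, Units.val_mul, hE, MonoidHom.zpow_apply, Units.val_zpow_eq_zpow_val]
  have hn : finrank K M.V ≠ 0 := by
    intro h
    have := finrank_zero_iff.1 h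
    exact hx (Subsingleton.elim _ _)
  have hdet : ∀ g, LinearMap.det (M.ρ g) ^ 2 = ((χ g : K) ^ d) ^ finrank K M.V := fun g =>
    det_sq B nd (hB g)
  have hdet' : ∀ g, LinearMap.det (M.ρ g) ^ 2 =
      (ε g ^ 2 * (χ g : K) ^ d') ^ finrank K M.V := by
    intro g
    let B2 : M.V →ₗ[K] M.V →ₗ[K] K := B'.compl₁₂ ψ.toLinearMap ψ.toLinearMap
    have hB2 : ∀ x y, B2 x y = B' (ψ x) (ψ y) := fun x y => rfl
    refine det_sq B2 (fun x hx => ?_) fun x y => ?_
    · have h3 : ψ x = 0 := nd' _ fun y => by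
        have h4 := hx (ψ.symm y)
        rwa [hB2, LinearEquiv.apply_symm_apply] at h4
      exact ψ.injective (by rw [h3, map_zero])
    · rw [hB2, hB2, hψ, hψ, map_smul, map_smul, LinearMap.smul_apply, hB', smul_eq_mul, smul_eq_mul]
      ring
  have h3 : ∀ g, θ g ^ (2 * finrank K M.V) = 1 := by
    intro g
    have hχ : (χ g : K) ≠ 0 := Units.ne_zero (χ g)
    apply Units.ext
    rw [Units.val_pow_eq_pow_val, Units.val_one, hθ, pow_mul, mul_pow]
    have h4 : ((χ g : K) ^ (-z)) ^ 2 = (χ g : K) ^ d' * ((χ g : K) ^ d)⁻¹ := by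
      rw [← zpow_natCast, ← zpow_mul, ← zpow_natCast, ← zpow_natCast, ← zpow_neg,
        ← zpow_add₀ hχ]
      congr 1
      push_cast
      linarith
    rw [h4, ← mul_assoc, mul_pow, ← hdet' g, hdet g, inv_pow, mul_inv_cancel₀]
    exact pow_ne_zero _ (pow_ne_zero _ hχ)
  refine ⟨θ.ker, finite_order θ (Nat.mul_ne_zero two_ne_zero hn) h3, fun g hg => ?_⟩
  have h4 : (θ g : K) = 1 := by
    rw [MonoidHom.mem_ker.1 hg, Units.val_one]
  rw [hθ, zpow_neg] at h4
  have hχ : (χ g : K) ^ z ≠ 0 := zpow_ne_zero _ (Units.ne_zero (χ g))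
  field_simp at h4
  exact h4

theorem isoUpTo_refl (M : FRep K Γ) : IsoUpTo M M :=
  ⟨LinearEquiv.refl K M.V, fun _ => 1, fun g x => by
    rw [one_smul]
    rfl⟩

theorem isoUpTo_symm (h : IsoUpTo M N) : IsoUpTo N M := by
  obtain ⟨ψ, ε, h⟩ := h
  refine ⟨ψ.symm, fun g => (ε g)⁻¹, fun g y => ?_⟩
  have h1 := h g (ψ.symm y)
  rw [LinearEquiv.apply_symm_apply] at h1
  apply ψ.injective
  rw [LinearEquiv.apply_symm_apply, map_smul, h1, smul_smul]
  by_cases hε : ε g = 0
  · rw [hε, zero_smul] at h1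
    have h2 : M.ρ g (ψ.symm y) = 0 := ψ.injective (by rw [h1, map_zero])
    have h3 : ψ.symm y = 0 := by rw [← FRep.inv_left M g (ψ.symm y), h2, map_zero]
    have h4 : y = 0 := ψ.symm.injective (by rw [h3, map_zero])
    rw [h4, map_zero, smul_zero]
  · rw [inv_mul_cancel₀ hε, one_smul]

theorem isoUpTo_trans {P : FRep K Γ} (h : IsoUpTo M N) (h' : IsoUpTo N P) : IsoUpTo M P := by
  obtain ⟨ψ, ε, h⟩ := h
  obtain ⟨ψ', ε', h'⟩ := h'
  refine ⟨ψ.trans ψ', fun g => ε g * ε' g, fun g x => ?_⟩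
  rw [LinearEquiv.trans_apply, LinearEquiv.trans_apply, h, map_smul, h', smul_smul]

end twist

end Run7.h552.PG
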