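import Pool.Agent.Run7.h552.MX.CCnv

/-!
# From pieces of the cohomology to representations
-/

set_option autoImplicit false
set_option linter.unusedSectionVars false

open CategoryTheory AlgebraicGeometry

universe u

namespace Run7.h552.PG

open Pool.Agent Pool.Agent.TH125.Gal
  Pool.Agent.Y127 Pool.Agent.Y127.G Pool.Agent.Y95.ZT Run7.h552.CT Run7.h552.SF Run7.h552.MX

section rep

variable {K : Type} [Field K] {A : Type} [Ring A] [Algebra K A] [FiniteDimensional K A]
  {Γ : Type} [Group Γ] {ρ : C.Act K A Γ} {T : Submodule K A} {ρT : Γ →* (T →ₗ[K] T)}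
  (hρ : ∀ g x, (ρT g x : A) = C.ap ρ g x)

include hρ

theorem isDefect_gen {N N' : Set Γ} (hN : N ⊆ N') {g : Γ} {d : ℕ}
    (h : V11219.Min.IsDefect T ρ N g d) : V11219.Sm.IsDefect ρT N' g d := by
  rcases h with h | ⟨g', hg', h2, a, ha, h⟩
  · left
    have h1 := SF.range_dif (ρ := ρ) hρ g
    rw [h]
    exact h1.symm
  · right
    refine ⟨g', hN hg', quad_of (ρ := ρ) hρ h2, a, ha, ?_⟩
    have hd : ∀ g (x : T), (((ρT g - 1 : Module.End K T) x : T) : A) =
      V11219.Min.dif ρ g x := fun g x => SF.dif_coe (ρ := ρ) hρ g x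
    have key : ∀ (n : ℕ) (x : T),
        ((((((ρT g - 1) * (ρT g' - 1) - a • 1) ^ n : Module.End K T) x : T)) : A) =
        ((V11219.Min.dif ρ g * V11219.Min.dif ρ g' - a • 1) ^ n : Module.End K A) (x : A) := by
      intro n
      induction n with
      | zero => intro x; rfl
      | succ n ih =>
        intro x
        rw [pow_succ, Module.End.mul_apply, ih, pow_succ, Module.End.mul_apply]
        congr 1
        rw [LinearMap.sub_apply, LinearMap.sub_apply, Module.End.mul_apply, Submodule.coe_sub,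
          hd, hd]
        rfl
    have e1 : (T ⊓ Module.End.maxGenEigenspace (V11219.Min.dif ρ g * V11219.Min.dif ρ g') a :
        Submodule K A) =
        (Module.End.maxGenEigenspace ((ρT g - 1) * (ρT g' - 1)) a).map T.subtype := by
      ext z
      constructor
      · rintro ⟨hz, hz'⟩
        refine ⟨⟨z, hz⟩, ?_, rfl⟩
        obtain ⟨n, hn⟩ := (Module.End.mem_maxGenEigenspace _ _ _).1 hz'
        refine (Module.End.mem_maxGenEigenspace _ _ _).2 ⟨n, Subtype.ext ?_⟩
        exact (key n ⟨z, hz⟩).trans hn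
      · rintro ⟨x, hx, rfl⟩
        refine ⟨x.2, ?_⟩
        obtain ⟨n, hn⟩ := (Module.End.mem_maxGenEigenspace _ _ _).1 hx
        refine (Module.End.mem_maxGenEigenspace _ _ _).2 ⟨n, ?_⟩
        have h3 := key n x
        rw [hn] at h3
        exact h3.symm
    rw [h, e1]
    exact Submodule.finrank_map_subtype_eq _ _

theorem smallDefects_gen {N N' : Set Γ} (hN : N ⊆ N') (h : V11219.Min.SmallDefects T ρ N) :
    V11219.Gk.SmallDefects ρT N' := by
  rcases h with ⟨g, hg, h1⟩ | ⟨⟨g, hg, h1⟩, h2⟩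
  · refine Or.inl ⟨g, hN hg, ?_⟩
    rcases h1 with h1 | h1
    · left
      intro p hp
      obtain ⟨d, hd, hpd⟩ := h1 p hp
      exact ⟨d, isDefect_gen hρ hN hd, hpd⟩
    · exact Or.inr (isDefect_gen hρ hN h1)
  · refine Or.inr ⟨⟨g, hN hg, fun U hU => ?_⟩, fun p hp => ?_⟩
    · have h3 : ∀ h' : Γ, ∀ x ∈ U.map T.subtype,
          C.ap ρ (h' * g * h'⁻¹) x ∈ U.map T.subtype := by
        rintro h' _ ⟨x, hx, rfl⟩
        exact ⟨ρT (h' * g * h'⁻¹) x, hU h' x hx, hρ _ _⟩
      rcases h1 (U.map T.subtype) (Submodule.map_subtype_le _ _) h3 with h4 | h4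
      · left
        rw [eq_bot_iff]
        intro x hx
        have h5 : (x : A) ∈ U.map T.subtype := ⟨x, hx, rfl⟩
        rw [h4, Submodule.mem_bot] at h5
        exact (Submodule.mem_bot _).2 (Subtype.ext h5)
      · right
        rw [eq_top_iff]
        intro x _
        have h5 : (x : A) ∈ U.map T.subtype := by
          rw [h4]
          exact x.2
        obtain ⟨y, hy, hyx⟩ := h5
        have h6 : y = x := Subtype.ext hyx
        rwa [h6] at hy
    · obtain ⟨g, hg, d, hd, hpd⟩ := h2 p hp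
      exact ⟨g, hN hg, d, isDefect_gen hρ hN hd, hpd⟩

/-- the condition on tensor products -/
theorem not_tenRep_gen (h : ¬SF.P.TensorOn ρ T) : ¬TenRep ρT := by
  rintro ⟨x, y, hx, hy, hxy, hs⟩
  refine h ⟨x, y, hx, hy, hxy, fun g a ha => ⟨_, hs g a ha, fun t t' htt => ?_⟩⟩
  have h1 : ρT g t = t' := Subtype.ext ((hρ g t).trans htt)
  have h2 : ρT g⁻¹ t' = t := by
    rw [← h1]
    exact FRep.inv_left (⟨T, ρT⟩ : FRep K Γ) g t
  have h3 : ρT g (a (ρT g⁻¹ t')) = ρT g (a t) := by rw [h2]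
  exact ((hρ g (a t)).symm.trans (congrArg Subtype.val h3).symm)

/-- the local condition, symplectic type -/
theorem bigLoc_gen (h : SF.P.LocalType ρ T) : BigLoc (⟨T, ρT⟩ : FRep K Γ) := by
  rcases h with ⟨v, F, s, h1, h2⟩ | h
  · left
    refine ⟨v, F, ?_⟩
    have e1 : slopes v ((⟨T, ρT⟩ : FRep K Γ).ρ F) = s := SF.slopes_of (ρ := ρ) hρ h1
    rw [e1]
    rcases h2 with h2 | ⟨s', h', c, h3, h4⟩
    · exact Or.inl h2
    · refine Or.inr ⟨s', h', c, h3, ?_⟩
      rcases h4 with h4 | ⟨q, h5, h6, h7⟩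
      · exact Or.inl h4
      · exact Or.inr ⟨q, h5, h6, h7.imp_right (not_tenRep_gen hρ)⟩
  · right
    right
    exact smallDefects_gen hρ (fun g hg => quad_of (ρ := ρ) hρ hg) h

/-- the local condition, orthogonal type -/
theorem bigLocO_gen (h : (∃ v F p q h c, 0 < c ∧ C.LvNum p q ∧
      C.SlopesOn v F ρ T (Level p q h c)) ∨ ∃ g, C.Maximal ρ (T : Set A) g) :
    BigLocO (⟨T, ρT⟩ : FRep K Γ) := by
  rcases h with ⟨v, F, p, q, h, c, hc, hn, h1⟩ | ⟨g, h1⟩
  · exact Or.inl ⟨v, F, p, q, h, c, hc, hn, SF.slopes_of (ρ := ρ) hρ (slopesOn_of h1)⟩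
  · exact Or.inr (Or.inr ⟨g, maximal_coe hρ h1⟩)

theorem si_gen (h : IrredAct ρ T) : SI ρT := by
  intro Δ hΔ U hU
  have hst : ∀ g ∈ Δ, ∀ a ∈ U.map T.subtype, C.ap ρ g a ∈ U.map T.subtype := by
    rintro g hg _ ⟨x, hx, rfl⟩
    exact ⟨ρT g x, hU g hg x hx, hρ _ _⟩
  rcases h Δ hΔ (U.map T.subtype) (Submodule.map_subtype_le _ _) hst with h1 | h1
  · left
    rw [eq_bot_iff]
    intro x hx
    have h2 : (x : A) ∈ U.map T.subtype := ⟨x, hx, rfl⟩
    rw [h1, Submodule.mem_bot] at h2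
    exact (Submodule.mem_bot _).2 (Subtype.ext h2)
  · right
    rw [eq_top_iff]
    intro x _
    have h5 : (x : A) ∈ U.map T.subtype := by
      rw [h1]
      exact x.2
    obtain ⟨y, hy, hyx⟩ := h5
    have h6 : y = x := Subtype.ext hyx
    rwa [h6] at hy

end rep

end Run7.h552.PG
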