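import Pool.Agent.Run7.h552.PD.Acc
import Pool.Agent.Run7.h552.PG.All
import Pool.Agent.Run7.h552.PG.Loc
import Pool.Agent.Run7.h552.PG.Det
import Pool.Agent.Run7.h552.NA.ECnv

/-!
# From families of varieties to the data of the proof
-/

set_option autoImplicit false
set_option linter.unusedSectionVars false

open CategoryTheory AlgebraicGeometry Finset Function

universe u

namespace Run7.h552.PG

open Pool.Agent Pool.Agent.H914 Pool.Agent.H914.VarClass Pool.Agent.H914.VarClass.Obj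
  Pool.Agent.H914.WeilCohomology Pool.Agent.H281R3.HT Pool.Agent.TH125.Gal
  Pool.Agent.Y127.G Run7.h552.PD
open Run7.h552.NP (IsProd Equivariant)
open Run7.h552.MX (MRep Indep)

noncomputable section

variable {k : Type u} [Field k] {𝒱 : VarClass k} {ops : CycleOps 𝒱}
  {W : WeilCohomology.{u, 0} ops} {Γ : Type} [Group Γ] {ι : Type} {χ : Γ →* W.Kˣ}

theorem HasForm.lin {K A Γ : Type} [Field K] [Ring A] [Algebra K A] [Group Γ] {χ : Γ →* Kˣ}
    {ρ : NP.Act K A Γ} {T : Submodule K A} {t d : ℕ} (h : HasForm χ ρ T t d) :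
    ∃ b : A →ₗ[K] A →ₗ[K] K, (∀ x ∈ T, ∀ y ∈ T, b x y = (-1) ^ t * b y x) ∧
      (∀ x ∈ T, (∀ y ∈ T, b x y = 0) → x = 0) ∧
      ∀ g, ∀ x ∈ T, ∀ y ∈ T, b (NP.ap ρ g x) (NP.ap ρ g y) = (χ g : K) ^ d * b x y := by
  obtain ⟨b, h1, h2, h3, h4, h5⟩ := h
  exact ⟨LinearMap.mk₂ K b (fun x y z => (h2 z).map_add x y) (fun c x z => (h2 z).map_smul c x)
    (fun x y z => (h1 x).map_add y z) (fun c x z => (h1 x).map_smul c z), h3, h4, h5⟩

/-- the representation of a piece -/
abbrev pRep {A : GVar W Γ} {P : Piece A} (h : IsPiece χ P) : FRep W.K Γ := Y95.ZT.subRep A.act P.sp h.stable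

theorem pRep_dim {A : GVar W Γ} {P : Piece A} (h : IsPiece χ P) :
    Module.finrank W.K (pRep h).V = P.dim := by
  exact (MX.dm_eq (K := W.K) P.sp).symm

/-- the members of the proof -/
theorem exists_mrep {A : GVar W Γ} {P : Piece A} (h : IsPiece χ P) :
    ∃ o : MRep (pRep h), o.μ = χ ^ P.deg ∧ (o.IsO ↔ Even P.typ) ∧
      ∀ (Z : GVar W Γ) (U : Submodule W.K (W.H Z.X)) (hU : ∀ g, ∀ x ∈ U, Z.act g x ∈ U),
        (¬NP.Entangled A.act P.sp Z.act U ∨ NP.LowDim P.typ (NP.dm W.K (U : Set (W.H Z.X)))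
          (NP.dm W.K (P.sp : Set (W.H A.X)))) → o.Small (Y95.ZT.subRep Z.act U hU) := by
  obtain ⟨b, h1, h2, h3⟩ := HasForm.lin h.form
  let B : P.sp →ₗ[W.K] P.sp →ₗ[W.K] W.K := b.domRestrict₁₂ P.sp P.sp
  have hB : ∀ x y : P.sp, B x y = b x y := fun x y => rfl
  have hnd : ∀ x : P.sp, (∀ y, B x y = 0) → x = 0 := fun x hx =>
    Subtype.ext (h2 x x.2 fun y hy => hx ⟨y, hy⟩)
  have heqv : ∀ g (x y : P.sp), B ((pRep h).ρ g x) ((pRep h).ρ g y) =
      ((χ ^ P.deg) g : W.K) * B x y := by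
    intro g x y
    rw [MonoidHom.pow_apply, Units.val_pow_eq_pow_val]
    exact h3 g x x.2 y y.2
  have hsi : SI (pRep h).ρ := si_gen (ρ := A.act) (ρT := (pRep h).ρ) (fun g x => rfl) h.irred
  rcases h.loc with ⟨ho, hl⟩ | ⟨he, hd, hl⟩
  · let o : SF.SRep (pRep h) :=
      { B := B
        μ := χ ^ P.deg
        eqv := heqv
        sy := fun (x y : P.sp) => by
          have h4 := h1 x x.2 y y.2
          rw [ho.neg_one_pow, neg_one_mul] at h4
          exact h4
        nd := hnd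
        si := hsi
        loc := bigLoc_gen (ρ := A.act) (ρT := (pRep h).ρ) (fun g x => rfl)
          (MX.localSp_of hl) }
    refine ⟨.sp o, rfl, ?_, fun Z U hU hs => ?_⟩
    · exact ⟨fun h => h.elim, fun h => absurd h (Nat.not_even_iff_odd.2 ho)⟩
    · exact NA.freeS_of ho (ρT := (pRep h).ρ) (fun g x => rfl) hU hs
  · let o : MX.ORepM (pRep h) :=
      { B := B
        μ := χ ^ P.deg
        eqv := heqv
        sy := fun (x y : P.sp) => by
          have h4 := h1 x x.2 y y.2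
          rw [he.neg_one_pow, one_mul] at h4
          exact h4
        nd := hnd
        si := hsi
        dim := by
          have hd' : MX.C.dm W.K (P.sp : Set (W.H A.X)) = 3 ∨
            5 ≤ MX.C.dm W.K (P.sp : Set (W.H A.X)) := hd
          rw [MX.dm_eq] at hd'
          exact hd'
        loc := bigLocO_gen (ρ := A.act) (ρT := (pRep h).ρ) (fun g x => rfl) hl }
    refine ⟨.so o, rfl, ⟨fun _ => he, fun _ => trivial⟩, fun Z U hU hs => ?_⟩
    exact NA.freeO_of he (ρT := (pRep h).ρ) (fun g x => rfl) hU hs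

/-- pieces are not zero -/
theorem piece_ne {A : GVar W Γ} {P : Piece A} (h : IsPiece χ P) : ∃ x : (pRep h).V, x ≠ 0 := by
  rcases h.loc with ⟨ho, hl⟩ | ⟨he, hd, hl⟩
  · exact SF.exists_ne_of_bigLoc (bigLoc_gen (ρ := A.act) (ρT := (pRep h).ρ) (fun g x => rfl)
      (MX.localSp_of hl))
  · by_contra hcon
    push Not at hcon
    have h2 : Subsingleton (pRep h).V := ⟨fun a b => by rw [hcon a, hcon b]⟩
    have h3 : Module.finrank W.K (pRep h).V = 0 := Module.finrank_zero_of_subsingleton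
    have hd' : MX.C.dm W.K (P.sp : Set (W.H A.X)) = 3 ∨
      5 ≤ MX.C.dm W.K (P.sp : Set (W.H A.X)) := hd
    rw [MX.dm_eq] at hd'
    change Module.finrank W.K P.sp = 0 at h3
    omega

/-- linked pieces -/
theorem isoUpTo_of {A B : GVar W Γ} {P : Piece A} {Q : Piece B} (hP : IsPiece χ P)
    (hQ : IsPiece χ Q) (h : NP.TwistIso A.act P.sp B.act Q.sp) :
    IsoUpTo (pRep hP) (pRep hQ) := by
  obtain ⟨ψ, ε, h1, h2, h3⟩ := h
  let f : P.sp →ₗ[W.K] Q.sp :=
    { toFun := fun x => ⟨ψ x, h2.mapsTo x.2⟩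
      map_add' := fun x y => Subtype.ext (h1.map_add _ _)
      map_smul' := fun a x => Subtype.ext (h1.map_smul _ _) }
  have hf : ∀ x, (f x : W.H B.X) = ψ x := fun x => rfl
  let F : P.sp ≃ₗ[W.K] Q.sp := LinearEquiv.ofBijective f ⟨fun x y hxy => by
      apply Subtype.ext
      exact h2.injOn x.2 y.2 (by rw [← hf, ← hf, hxy]), fun y => by
      obtain ⟨x, hx, hxy⟩ := h2.surjOn y.2
      exact ⟨⟨x, hx⟩, Subtype.ext hxy⟩⟩
  exact ⟨F, ε, fun g x => Subtype.ext (h3 g x.1 x.2)⟩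

theorem twistIso_iff {A B : GVar W Γ} {P : Piece A} {Q : Piece B} (hP : IsPiece χ P)
    (hQ : IsPiece χ Q) :
    NP.TwistIso A.act P.sp B.act Q.sp ↔ IsoUpTo (pRep hP) (pRep hQ) := by
  refine ⟨isoUpTo_of hP hQ, ?_⟩
  rintro ⟨ψ, ε, h⟩
  refine MX.twistIso_of' hP.stable ⟨ψ, ε, fun g x y hxy => ?_⟩
  have h1 : (pRep hP).ρ g x = y := Subtype.ext hxy
  have h2 := h g x
  rw [h1] at h2
  exact congrArg Subtype.val h2

section family

variable {G : Set (GVar W Γ)} {X : ι → GVar W Γ} {P : ∀ i, Gens (X i)} {Z : GVar W Γ}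
  (h : GenFamily χ G X P Z)

/-- all pieces -/
abbrev Pcs (P : ∀ i, Gens (X i)) : Type := Σ i, Fin (P i).r

/-- the representation of a piece of the family -/
def fRep (p : Pcs P) : FRep W.K Γ := pRep ((h.gen p.1).piece p.2)

/-- the equivalence relation -/
def lkSetoid : Setoid (Pcs P) where
  r p q := Even (((P p.1).pc p.2).deg + ((P q.1).pc q.2).deg) ∧ IsoUpTo (fRep h p) (fRep h q)
  iseqv :=
    { refl := fun p => ⟨Even.add_self _, isoUpTo_refl _⟩
      symm := fun {p q} hpq => ⟨by rw [add_comm]; exact hpq.1, isoUpTo_symm hpq.2⟩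
      trans := fun {p q r} h1 h2 => ⟨by
        have k1 := h1.1
        have k2 := h2.1
        rw [Nat.even_add] at k1 k2 ⊢
        exact k1.trans k2, isoUpTo_trans h1.2 h2.2⟩ }

theorem linked_iff (p q : Pcs P) :
    Linked ((P p.1).pc p.2) ((P q.1).pc q.2) ↔ (lkSetoid h).r p q := by
  unfold Linked LinkedIn
  rw [twistIso_iff ((h.gen p.1).piece p.2) ((h.gen q.1).piece q.2)]
  rfl

/-- the types -/
abbrev Typ : Type := Quotient (lkSetoid h)

/-- the representative of a type -/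
def rp (t : Typ h) : Pcs P := Quotient.out t

theorem rp_rel (p : Pcs P) : (lkSetoid h).r (rp h (Quotient.mk _ p)) p :=
  Quotient.exact (Quotient.out_eq _)

/-- the representation of a type -/
def tRep (t : Typ h) : FRep W.K Γ := fRep h (rp h t)

theorem tRep_dim (t : Typ h) :
    Module.finrank W.K (tRep h t).V = ((P (rp h t).1).pc (rp h t).2).dim :=
  pRep_dim ((h.gen (rp h t).1).piece (rp h t).2)

/-- the degree of a type -/
def tDeg (t : Typ h) : ℕ := ((P (rp h t).1).pc (rp h t).2).deg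

/-- the member of a type -/
def tM (t : Typ h) : MRep (tRep h t) :=
  (exists_mrep ((h.gen (rp h t).1).piece (rp h t).2)).choose

theorem tM_mu (t : Typ h) : (tM h t).μ = χ ^ tDeg h t :=
  (exists_mrep ((h.gen (rp h t).1).piece (rp h t).2)).choose_spec.1

theorem tM_isO (t : Typ h) : (tM h t).IsO ↔ Even ((P (rp h t).1).pc (rp h t).2).typ :=
  (exists_mrep ((h.gen (rp h t).1).piece (rp h t).2)).choose_spec.2.1

theorem tM_small (t : Typ h) (Z : GVar W Γ) (U : Submodule W.K (W.H Z.X))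
    (hU : ∀ g, ∀ x ∈ U, Z.act g x ∈ U)
    (hs : ¬NP.Entangled (X (rp h t).1).act ((P (rp h t).1).pc (rp h t).2).sp Z.act U ∨
      NP.LowDim ((P (rp h t).1).pc (rp h t).2).typ (NP.dm W.K (U : Set (W.H Z.X)))
        (NP.dm W.K (((P (rp h t).1).pc (rp h t).2).sp : Set (W.H (X (rp h t).1).X)))) : (tM h t).Small (Y95.ZT.subRep Z.act U hU) :=
  (exists_mrep ((h.gen (rp h t).1).piece (rp h t).2)).choose_spec.2.2 Z U hU hs

/-- different types are apart -/
theorem apart {t t' : Typ h} (ht : t ≠ t') :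
    Apart ((P (rp h t).1).pc (rp h t).2) ((P (rp h t').1).pc (rp h t').2) := by
  refine (h.pairs _ _ _ _).resolve_left fun h1 => ht ?_
  have h2 := (linked_iff h (rp h t) (rp h t')).1 h1
  have h3 : Quotient.mk (lkSetoid h) (rp h t) = Quotient.mk (lkSetoid h) (rp h t') :=
    Quotient.sound h2
  unfold rp at h3
  rwa [Quotient.out_eq, Quotient.out_eq] at h3

/-- **The context.** -/
theorem ctx : Ctx (dT := tDeg h) χ (tM h) Z where
  mu := tM_mu h
  ind :=
    { iso := fun t t' ht hi => (apart h ht).1 ((twistIso_iff ((h.gen _).piece _)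
        ((h.gen _).piece _)).2 hi)
      mixed := fun t t' h1 h2 h3 => by
        have ht : t ≠ t' := by
          rintro rfl
          exact h1 h2
        have h4 := (apart h ht).2.1 (Nat.not_even_iff_odd.1 fun h5 => h1 ((tM_isO h t).2 h5))
          ((tM_isO h t').1 h2)
        have k1 := tRep_dim h t
        have k2 := tRep_dim h t'
        rw [k1, k2] at h3
        rw [k2]
        exact h4 h3
      eight := fun t t' ht h1 h2 h3 h4 => by
        have k1 := tRep_dim h t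
        have k2 := tRep_dim h t'
        rw [k1] at h3
        rw [k2] at h4
        exact absurd ⟨(tM_isO h t).1 h1, (tM_isO h t').1 h2, h3, h4⟩ (apart h ht).2.2 }
  base := by
    intro t
    obtain ⟨r, U, h1, h2, h3⟩ := h.base (rp h t).1 (rp h t).2
    refine ⟨r, fun a => Y95.ZT.subRep Z.act (U a) (h2 a), fun a => tM_small h t Z (U a) (h2 a) (h1 a), ?_⟩
    unfold GenBy
    rw [eq_top_iff, ← h3]
    refine Algebra.adjoin_mono ?_
    rintro x (hx | hx)
    · exact Or.inl hx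
    · obtain ⟨a, ha⟩ := Set.mem_iUnion.1 hx
      exact Or.inr (Or.inr ⟨a, (U a).subtype, fun g y => rfl, ⟨x, ha⟩, rfl⟩)

/-- the twist of a piece -/
theorem exists_ph (p : Pcs P) : ∃ (ψ : (tRep h (Quotient.mk _ p)).V ≃ₗ[W.K] (fRep h p).V) (z : ℤ)
    (Δ : Subgroup Γ), Δ.FiniteIndex ∧
      2 * z = (tDeg h (Quotient.mk _ p) : ℤ) - ((P p.1).pc p.2).deg ∧
      ∀ g ∈ Δ, ∀ x, (fRep h p).ρ g (ψ x) =
        (χ g : W.K) ^ (-z) • ψ ((tRep h (Quotient.mk _ p)).ρ g x) := by
  obtain ⟨h1, ψ, ε, hψ⟩ := rp_rel h p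
  obtain ⟨o, ho1, -, -⟩ := exists_mrep ((h.gen p.1).piece p.2)
  obtain ⟨z, hz⟩ : ∃ z : ℤ, 2 * z = (tDeg h (Quotient.mk _ p) : ℤ) - ((P p.1).pc p.2).deg := by
    have h2 : Even (tDeg h (Quotient.mk _ p) + ((P p.1).pc p.2).deg) := h1
    obtain ⟨n, hn⟩ := h2
    exact ⟨(tDeg h (Quotient.mk _ p) : ℤ) - n, by omega⟩
  obtain ⟨Δ, hΔ, hε⟩ := exists_twist (M := tRep h (Quotient.mk _ p)) (N := fRep h p) (χ := χ)
    (d := tDeg h (Quotient.mk _ p)) (d' := ((P p.1).pc p.2).deg)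
    (B := (tM h (Quotient.mk _ p)).B) (B' := o.B) (MRep.nd' _) (MRep.nd' _)
    (fun g x y => by
      have h2 := MRep.eqv (tM h (Quotient.mk _ p)) g x y
      rw [tM_mu, MonoidHom.pow_apply, Units.val_pow_eq_pow_val] at h2
      exact h2)
    (fun g x y => by
      have h2 := MRep.eqv o g x y
      rw [ho1, MonoidHom.pow_apply, Units.val_pow_eq_pow_val] at h2
      exact h2) hψ (piece_ne ((h.gen (rp h (Quotient.mk _ p)).1).piece
        (rp h (Quotient.mk _ p)).2)) hz
  refine ⟨ψ, z, Δ, hΔ, hz, fun g hg x => ?_⟩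
  have h2 := hψ g x
  have h3 : ψ ((tRep h (Quotient.mk _ p)).ρ g x) = ε g • (fRep h p).ρ g (ψ x) := h2
  have h4 : (χ g : W.K) ^ (-z) • (ε g • (fRep h p).ρ g (ψ x)) = (fRep h p).ρ g (ψ x) := by
    rw [hε g hg, smul_smul, ← zpow_add₀ (Units.ne_zero (χ g)), neg_add_cancel, zpow_zero,
      one_smul]
  exact h4.symm.trans (congrArg (fun y => (χ g : W.K) ^ (-z) • y) h3.symm)

end family

end

end Run7.h552.PG
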