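import Pool.Agent.Run7.h552.PG.Fin
import Pool.Agent.TH125.Gal.Diag
import Pool.Agent.Run7.h552.PD.TDefs

/-!
# The Tate conjecture for towers and for pairs
-/

set_option autoImplicit false
set_option linter.unusedSectionVars false

open CategoryTheory AlgebraicGeometry Finset Function

universe u

namespace Run7.h552.PG

open Pool.Agent Pool.Agent.H914 Pool.Agent.H914.VarClass Pool.Agent.H914.VarClass.Obj
  Pool.Agent.H914.WeilCohomology Pool.Agent.H281R3.HT Pool.Agent.Y127.G Run7.h552.PD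
open Pool.Agent.TH125.Gal hiding Equivariant
open Run7.h552.NP (IsProd Equivariant)

noncomputable section

variable {k : Type u} [Field k] {𝒱 : VarClass k} {ops : CycleOps 𝒱}
  {W : WeilCohomology.{u, 0} ops} {Γ : Type} [Group Γ] {ι : Type} {χ : Γ →* W.Kˣ}

/-- a product which is generated by algebraic classes -/
theorem algSpan_adjoin {Y : 𝒱.Obj} {S : Set (W.H Y)} (hS : ∀ x ∈ S, x ∈ algSpan W Y) {x : W.H Y}
    (hx : x ∈ Algebra.adjoin W.K S) : x ∈ algSpan W Y := by
  induction hx using Algebra.adjoin_induction with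
  | mem x hx => exact hS x hx
  | algebraMap r =>
    rw [Algebra.algebraMap_eq_smul_one]
    exact Submodule.smul_mem _ _ algSpan_one
  | add x y _ _ hx hy => exact Submodule.add_mem _ hx hy
  | mul x y _ _ hx hy => exact algSpan_mul hx hy

theorem tate_iff {V : GVar W Γ} : TateConjecture χ V ↔
    ∀ n x, IsTate χ V n x → x ∈ Submodule.span W.K (algClasses W V.X n) :=
  ⟨fun h n x hx => h n x hx.1 hx.2, fun h n x h1 h2 => h n x ⟨h1, h2⟩⟩

theorem span_le_algSpan {V : 𝒱.Obj} {n : ℕ} {x : W.H V}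
    (hx : x ∈ Submodule.span W.K (algClasses W V n)) : x ∈ algSpan W V :=
  Submodule.span_le.2 (fun _ hy => alg_mem hy) hx

theorem algSpan_push {X Y : 𝒱.Obj} (f : X ⟶ Y) {a : W.H X} (ha : a ∈ algSpan W X) :
    W.push f a ∈ algSpan W Y := by
  induction ha using Submodule.span_induction with
  | mem a ha =>
    obtain ⟨i, hi⟩ := Set.mem_iUnion.1 ha
    by_cases h : i + Y.dim < X.dim
    · rw [alg_push_zero hi h]
      exact Submodule.zero_mem _
    · exact alg_mem (alg_push f hi (i := i + Y.dim - X.dim) (by omega))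
  | zero => rw [map_zero]; exact Submodule.zero_mem _
  | add x y _ _ hx hy => rw [map_add]; exact Submodule.add_mem _ hx hy
  | smul q x _ hx => rw [map_smul]; exact Submodule.smul_mem _ _ hx

/-- **From a variety to the target of a morphism.** -/
theorem tate_of_push {Y V : GVar W Γ} {f : Y.X ⟶ V.X} (hf : Equivariant (A := Y) (B := V) f)
    {α : W.H Y.X} (hα : ∃ n, IsTate χ Y n α) {r : W.K} (hr : r ≠ 0) (hp : W.push f α = r • 1)
    (hY : TateConjecture χ Y) : TateConjecture χ V := by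
  rw [tate_iff] at hY ⊢
  intro j c hc
  obtain ⟨n, hα⟩ := hα
  have h1 := algSpan_push f (span_le_algSpan (hY _ _ (hα.mul (hc.map hf))))
  have h2 : W.push f (α * W.map f c) = r • c := by
    rw [push_mul, hp, smul_mul_assoc, one_mul]
  rw [h2] at h1
  have h5 := Submodule.smul_mem _ r⁻¹ h1
  rw [smul_smul, inv_mul_cancel₀ hr, one_smul] at h5
  exact algSpan_gr h5 hc.1

theorem push_eq {X Y : 𝒱.Obj} (f : X ⟶ Y) {α : W.H X} {r : W.K} {S : Set (W.H Y)}
    (hS : ∀ c, c ∈ Submodule.span W.K S) (h : ∀ w ∈ S, W.tr X (α * W.map f w) = r * W.tr Y w) :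
    W.push f α = r • 1 := by
  rw [← sub_eq_zero]
  refine W.nondeg _ fun w => ?_
  have h1 := hS w
  rw [sub_mul, smul_mul_assoc, one_mul, map_sub, W.tr_push, map_smul, smul_eq_mul, sub_eq_zero]
  induction h1 using Submodule.span_induction with
  | mem w hw => exact h w hw
  | zero => rw [map_zero, mul_zero, map_zero, map_zero, mul_zero]
  | add a b _ _ ha hb => rw [map_add, mul_add, map_add, ha, hb, map_add, mul_add]
  | smul q a _ ha =>
    rw [map_smul, mul_smul_comm, map_smul, ha, map_smul, smul_eq_mul, smul_eq_mul]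
    ring

/-- **Points.** -/
theorem exists_pt_class {A : GVar W Γ} (hA : NP.GaloisVar χ A) (h : HasPoint A) :
    ∃ a, (∃ n, IsTate χ A n a) ∧ W.tr A.X a ≠ 0 := by
  obtain ⟨z, hz, hd⟩ := h
  have h1 : W.cl A.X z ∈ algClasses W A.X A.X.dim := ⟨z, hz, rfl⟩
  refine ⟨W.cl A.X z, ⟨_, W.cl_mem hz, hA.cl_fix _ _ h1⟩, ?_⟩
  rw [W.tr_cl hz]
  exact_mod_cast hd

theorem mon_central {Y : 𝒱.Obj} {m : ℕ} {B : Fin m → 𝒱.Obj} (p : ∀ a, Y ⟶ B a)
    (x : ∀ a, W.H (B a)) (h : ∀ c y, W.map (p c) (x c) * y = y * W.map (p c) (x c))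
    (y : W.H Y) : mon p x * y = y * mon p x := by
  have key : ∀ l : List (W.H Y), (∀ z ∈ l, ∀ y, z * y = y * z) → ∀ y, l.prod * y = y * l.prod := by
    intro l hl
    induction l with
    | nil => intro y; rw [List.prod_nil, one_mul, mul_one]
    | cons a l ih =>
      intro y
      rw [List.prod_cons, mul_assoc, ih (fun z hz => hl z (List.mem_cons_of_mem _ hz)),
        ← mul_assoc, hl a List.mem_cons_self, mul_assoc]
  refine key _ (fun z hz => ?_) y
  rw [List.mem_ofFn'] at hz
  obtain ⟨a, rfl⟩ := hz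
  exact h a

theorem mon_upd {Y : 𝒱.Obj} {m : ℕ} : ∀ {B : Fin m → 𝒱.Obj} (p : ∀ a, Y ⟶ B a)
    (x : ∀ a, W.H (B a)) (a : Fin m) (_ : x a = 1)
    (_ : ∀ c, a < c → ∀ y, W.map (p c) (x c) * y = y * W.map (p c) (x c)) (u : W.H (B a)),
    mon p x * W.map (p a) u = mon p (update x a u) := by
  induction m with
  | zero => intro B p x a; exact a.elim0
  | succ m ih =>
    intro B p x a h1 h2 u
    rw [mon_succ, mon_succ]
    induction a using Fin.cases with
    | zero =>
      rw [update_self, h1, map_one, one_mul, mon_central (fun c : Fin m => p c.succ)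
        (fun c => x c.succ) (fun c => h2 c.succ (Fin.succ_pos c))]
      rfl
    | succ b =>
      have h3 := ih (fun c => p c.succ) (fun c => x c.succ) b h1
        (fun c hc => h2 c.succ (Fin.succ_lt_succ_iff.2 hc)) u
      rw [mul_assoc]
      have h4 : (fun c : Fin m => update x b.succ u c.succ) = update (fun c => x c.succ) b u := by
        funext c
        by_cases hc : c = b
        · subst hc
          rw [update_self, update_self]
        · rw [update_of_ne hc, update_of_ne fun h => hc (Fin.succ_injective _ h)]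
      have h5 : update x b.succ u 0 = x 0 := update_of_ne (Fin.succ_ne_zero b).symm _ _
      rw [h4, h5]
      congr 1

variable {X : ι → GVar W Γ} {Z : GVar W Γ}

section

variable {m : ℕ} {L : Fin m → ι} {Y : GVar W Γ} (D : TD X Z L Y)

theorem tate_central {V : GVar W Γ} {f : Y.X ⟶ V.X} {x : W.H V.X} (hx : ∃ n, IsTate χ V n x)
    (y : W.H Y.X) : W.map f x * y = y * W.map f x := by
  obtain ⟨n, hn⟩ := hx
  exact even_comm (W.map_mem f hn.1) y

variable {pt : ∀ a, W.H (X (L a)).X} (hpt : ∀ a, ∃ n, IsTate χ (X (L a)) n (pt a))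
  (htr : ∀ a, W.tr (X (L a)).X (pt a) ≠ 0) {ptZ : W.H Z.X} (hptZ : ∃ n, IsTate χ Z n ptZ)
  (htrZ : W.tr Z.X ptZ ≠ 0)

/-- There are an equivariant morphism to `V` and a Tate class whose push-forward is a nonzero
number. -/
def Retr (χ : Γ →* W.Kˣ) (Y V : GVar W Γ) : Prop :=
  ∃ f : Y.X ⟶ V.X, Equivariant (A := Y) (B := V) f ∧ ∃ α, (∃ n, IsTate χ Y n α) ∧
    ∃ r : W.K, r ≠ 0 ∧ W.push f α = r • 1

include D hpt htr

theorem retr_base : Retr χ Y Z := by
  refine ⟨D.q, D.hq, _, mon_tate D hpt, ∏ a, W.tr _ (pt a),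
    Finset.prod_ne_zero_iff.2 fun a _ => htr a, ?_⟩
  exact push_eq D.q (S := Set.univ) (fun c => Submodule.subset_span trivial) fun w _ =>
    D.tr_mono pt w

include hptZ htrZ

theorem retr_factor (a : Fin m) : Retr χ Y (X (L a)) := by
  classical
  have hx : ∀ c, ∃ n, IsTate χ (X (L c)) n (update pt a 1 c) := by
    intro c
    by_cases hc : c = a
    · subst hc
      rw [update_self]
      exact ⟨0, IsTate.one⟩
    · rw [update_of_ne hc]
      exact hpt c
  obtain ⟨n1, h1⟩ := mon_tate D hx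
  obtain ⟨n2, h2⟩ := hptZ
  refine ⟨D.p a, D.hp a, _, ⟨_, h1.mul (h2.map D.hq)⟩,
    (∏ c ∈ Finset.univ.erase a, W.tr _ (pt c)) * W.tr Z.X ptZ,
    mul_ne_zero (Finset.prod_ne_zero_iff.2 fun c _ => htr c) htrZ, ?_⟩
  refine push_eq (D.p a) (S := Set.univ) (fun c => Submodule.subset_span trivial) fun u _ => ?_
  rw [mul_assoc, tate_central (V := Z) ⟨n2, h2⟩, ← mul_assoc, mon_upd D.p _ a (update_self _ _ _)
    (fun c _ y => tate_central (V := X (L c)) (hx c) y), D.tr_mono,
    ← Finset.mul_prod_erase _ _ (Finset.mem_univ a), update_self]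
  have h3 : ∏ c ∈ Finset.univ.erase a, W.tr _ (update (update pt a 1) a u c) =
      ∏ c ∈ Finset.univ.erase a, W.tr _ (pt c) := by
    refine Finset.prod_congr rfl fun c hc => ?_
    rw [update_of_ne (Finset.ne_of_mem_erase hc), update_of_ne (Finset.ne_of_mem_erase hc)]
  rw [h3]
  ring

theorem retr_pair {a b : Fin m} (hab : a < b) {V : GVar W Γ}
    (hV : IsProd (X (L a)) (X (L b)) V) : Retr χ Y V := by
  classical
  obtain ⟨p', q', f, -, -, hf, hf1, hf2, hsp, htrV⟩ := exists_lift hV (D.hp a) (D.hp b)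
  have hx : ∀ c, ∃ n, IsTate χ (X (L c)) n (update (update pt a 1) b 1 c) := by
    intro c
    by_cases hc : c = b
    · subst hc
      rw [update_self]
      exact ⟨0, IsTate.one⟩
    · rw [update_of_ne hc]
      by_cases hc : c = a
      · subst hc
        rw [update_self]
        exact ⟨0, IsTate.one⟩
      · rw [update_of_ne hc]
        exact hpt c
  obtain ⟨n1, h1⟩ := mon_tate D hx
  obtain ⟨n2, h2⟩ := hptZ
  refine ⟨f, hf, _, ⟨_, h1.mul (h2.map D.hq)⟩,
    (∏ c ∈ (Finset.univ.erase b).erase a, W.tr _ (pt c)) * W.tr Z.X ptZ,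
    mul_ne_zero (Finset.prod_ne_zero_iff.2 fun c _ => htr c) htrZ, ?_⟩
  refine push_eq f hsp ?_
  rintro w ⟨u, v, rfl⟩
  have e1 : W.map f (W.map p' u * W.map q' v) = W.map (D.p a) u * W.map (D.p b) v := by
    rw [map_mul, ← W.map_comp, ← W.map_comp, hf1, hf2]
  have e2 : update (update pt a 1) b 1 a = (1 : W.H (X (L a)).X) := by
    rw [update_of_ne hab.ne, update_self]
  have e3 : update (update (update pt a 1) b 1) a u b = (1 : W.H (X (L b)).X) := by
    rw [update_of_ne hab.ne', update_self]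
  rw [e1, htrV, mul_assoc, tate_central (V := Z) ⟨n2, h2⟩, ← mul_assoc, ← mul_assoc,
    mon_upd D.p _ a e2 (fun c _ y => tate_central (V := X (L c)) (hx c) y),
    mon_upd D.p _ b e3 (fun c hc y => by
      rw [update_of_ne (hab.trans hc).ne']
      exact tate_central (V := X (L c)) (hx c) y), D.tr_mono,
    ← Finset.mul_prod_erase _ _ (Finset.mem_univ b), update_self,
    ← Finset.mul_prod_erase _ _ (Finset.mem_erase.2 ⟨hab.ne, Finset.mem_univ a⟩),
    update_of_ne hab.ne, update_self]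
  have h3 : ∏ c ∈ (Finset.univ.erase b).erase a,
      W.tr _ (update (update (update (update pt a 1) b 1) a u) b v c) =
      ∏ c ∈ (Finset.univ.erase b).erase a, W.tr _ (pt c) := by
    refine Finset.prod_congr rfl fun c hc => ?_
    have k1 := Finset.ne_of_mem_erase hc
    have k2 := Finset.ne_of_mem_erase (Finset.mem_of_mem_erase hc)
    rw [update_of_ne k2, update_of_ne k1, update_of_ne k2, update_of_ne k1]
  rw [h3]
  ring

end

theorem tate_of_retr {Y V : GVar W Γ} (h : Retr χ Y V) (hY : TateConjecture χ Y) :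
    TateConjecture χ V := by
  obtain ⟨f, hf, α, hα, r, hr, hp⟩ := h
  exact tate_of_push hf hα hr hp hY

variable {G : Set (GVar W Γ)} {P : ∀ i, Gens (X i)} [IsAlgClosed W.K]

/-- **From pairs to towers.** -/
theorem tate_of_pairs (e : W.K ≃+* ℂ) (h : GenFamily χ G X P Z) {m : ℕ} {L : Fin m → ι}
    {Y : GVar W Γ} (hY : Tow X Z L Y) (hL : Few P L) (hT : PairsTate χ P Z L) :
    TateConjecture χ Y := by
  rw [tate_iff]
  intro j c hc
  refine algSpan_gr (algSpan_adjoin ?_ (mem_fromPairs e h hY hL hc)) hc.1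
  rintro x ⟨V, f, n, z, hV, -, hz, rfl⟩
  refine algSpan_map f (span_le_algSpan (n := n) ?_)
  rcases hV with rfl | ⟨a, rfl⟩ | ⟨a, b, hab, hR, hP⟩
  · exact tate_iff.1 hT.1 n z hz
  · exact tate_iff.1 (hT.2.1 a) n z hz
  · exact tate_iff.1 (hT.2.2 a b hab hR V hP) n z hz

/-- **From towers to pairs.** -/
theorem pairs_of_tate (h : GenFamily χ G X P Z) {m : ℕ} {L : Fin m → ι} {Y : GVar W Γ}
    (hY : Tow X Z L Y) (hp : ∀ a, HasPoint (X (L a))) (hpZ : HasPoint Z)
    (hT : TateConjecture χ Y) : PairsTate χ P Z L := by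
  obtain ⟨D⟩ := hY.data
  choose pt h1 h2 using fun a => exists_pt_class (χ := χ) (h.good _ (h.mem (L a))).1 (hp a)
  obtain ⟨ptZ, h3, h4⟩ := exists_pt_class (χ := χ) (h.good _ h.mem_base).1 hpZ
  exact ⟨tate_of_retr (retr_base D h1 h2) hT, fun a => tate_of_retr (retr_factor D h1 h2 h3 h4 a) hT,
    fun a b hab _ V hV => tate_of_retr (retr_pair D h1 h2 h3 h4 hab hV) hT⟩

end

end Run7.h552.PG
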