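import Mathlib

/-!
# Bases with a real orthogonal Gram matrix
-/

set_option autoImplicit false
set_option linter.unusedSectionVars false

namespace Run7.h552.PG

open Module Finset

noncomputable section

variable {K : Type} [Field K] (e : K ≃+* ℂ)

/-- complex conjugation -/
def cj : K →+* K := (e.symm : ℂ →+* K).comp ((starRingEnd ℂ).comp (e : K →+* ℂ))

theorem e_cj (a : K) : e (cj e a) = starRingEnd ℂ (e a) := by
  unfold cj
  simp

theorem cj_cj (a : K) : cj e (cj e a) = a := by
  apply e.injective
  rw [e_cj, e_cj, Complex.conj_conj]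

theorem cj_neg_one : cj e (-1) = -1 := by rw [map_neg, map_one]

/-- positivity -/
theorem sum_cj_ne {ι : Type} [Fintype ι] (f : ι → K) (h : ∃ i, f i ≠ 0) :
    ∑ i, f i * cj e (f i) ≠ 0 := by
  intro h0
  obtain ⟨i, hi⟩ := h
  have h1 := congrArg e h0
  rw [map_sum, map_zero] at h1
  have h2 : ∀ i, e (f i * cj e (f i)) = ((Complex.normSq (e (f i)) : ℝ) : ℂ) := by
    intro i
    rw [map_mul, e_cj, Complex.mul_conj]
  rw [Finset.sum_congr rfl fun i _ => h2 i, ← Complex.ofReal_sum] at h1
  have h3 : ∑ i, Complex.normSq (e (f i)) = 0 := by exact_mod_cast h1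
  rw [Finset.sum_eq_zero_iff_of_nonneg fun i _ => Complex.normSq_nonneg _] at h3
  have h4 := h3 i (Finset.mem_univ _)
  rw [Complex.normSq_eq_zero] at h4
  exact hi (e.injective (by rw [h4, map_zero]))

variable {V : Type} [AddCommGroup V] [Module K V]

/-- The Gram matrix of the basis is real and orthogonal. -/
structure IsGood {β : Type} [Fintype β] [DecidableEq β] (B : V →ₗ[K] V →ₗ[K] K)
    (v : Basis β K V) : Prop where
  real : ∀ p q, cj e (B (v p) (v q)) = B (v p) (v q)
  orth : ∀ p q, ∑ r, B (v p) (v r) * B (v q) (v r) = if p = q then 1 else 0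

theorem IsGood.reindex {β β' : Type} [Fintype β] [DecidableEq β] [Fintype β'] [DecidableEq β']
    {B : V →ₗ[K] V →ₗ[K] K} {v : Basis β K V} (h : IsGood e B v) (f : β ≃ β') :
    IsGood e B (v.reindex f) := by
  refine ⟨fun p q => ?_, fun p q => ?_⟩
  · rw [Basis.reindex_apply, Basis.reindex_apply]
    exact h.real _ _
  · have h1 := h.orth (f.symm p) (f.symm q)
    rw [← Fintype.sum_equiv f.symm (fun r => B (v.reindex f p) (v.reindex f r) *
      B (v.reindex f q) (v.reindex f r)) _ fun r => by
        rw [Basis.reindex_apply, Basis.reindex_apply, Basis.reindex_apply]] at h1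
    rw [h1]
    simp only [f.symm.injective.eq_iff]

variable [FiniteDimensional K V]

/-- symmetric forms -/
theorem exists_good_sym [IsAlgClosed K] [CharZero K] (B : V →ₗ[K] V →ₗ[K] K)
    (sy : ∀ x y, B x y = B y x) (nd : ∀ x, (∀ y, B x y = 0) → x = 0) :
    ∃ v : Basis (Fin (finrank K V)) K V, IsGood e B v := by
  have h2 : Invertible (2 : K) := invertibleOfNonzero two_ne_zero
  obtain ⟨v, hv⟩ := LinearMap.BilinForm.exists_orthogonal_basis (K := K) (V := V) (B := B)
    (by
      refine ⟨fun x y => ?_⟩
      simp only [RingHom.id_apply]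
      exact sy x y)
  have hvo : ∀ p q, p ≠ q → B (v p) (v q) = 0 := fun p q h => hv h
  have hne : ∀ p, B (v p) (v p) ≠ 0 := by
    intro p hp
    refine v.ne_zero p (nd _ fun y => ?_)
    rw [← v.sum_repr y, map_sum]
    refine Finset.sum_eq_zero fun q _ => ?_
    rw [map_smul]
    by_cases h : p = q
    · subst h; rw [hp, smul_zero]
    · rw [hvo p q h, smul_zero]
  have hex : ∀ p, ∃ c : K, c ^ 2 = B (v p) (v p) := fun p =>
    IsAlgClosed.exists_pow_nat_eq _ (by norm_num)
  choose c hc using hex
  have hc0 : ∀ p, c p ≠ 0 := by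
    intro p h
    apply hne p
    rw [← hc, h]
    ring
  let w : ∀ p : Fin (finrank K V), Kˣ := fun p => (Units.mk0 (c p) (hc0 p))⁻¹
  have hw : ∀ p q, B (v.unitsSMul w p) (v.unitsSMul w q) = if p = q then 1 else 0 := by
    intro p q
    rw [Basis.unitsSMul_apply, Basis.unitsSMul_apply, Units.smul_def, Units.smul_def, map_smul,
      map_smul, LinearMap.smul_apply, smul_eq_mul, smul_eq_mul]
    by_cases h : p = q
    · subst h
      rw [if_pos rfl, ← hc]
      change (Units.mk0 (c p) (hc0 p))⁻¹.val * ((Units.mk0 (c p) (hc0 p))⁻¹.val * (c p ^ 2)) = 1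
      rw [Units.val_inv_eq_inv_val, Units.val_mk0]
      have h3 : (c p)⁻¹ * ((c p)⁻¹ * c p ^ 2) = ((c p)⁻¹ * c p) * ((c p)⁻¹ * c p) := by ring
      rw [h3, inv_mul_cancel₀ (hc0 p), mul_one]
    · rw [if_neg h, hvo p q h, mul_zero, mul_zero]
  refine ⟨v.unitsSMul w, fun p q => ?_, fun p q => ?_⟩
  · rw [hw]
    split
    · exact map_one _
    · exact map_zero _
  · simp only [hw]
    rw [Finset.sum_eq_single p]
    · rw [if_pos rfl, one_mul]
      simp only [eq_comm]
    · intro b _ hb
      rw [if_neg (Ne.symm hb), zero_mul]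
    · intro h
      exact absurd (Finset.mem_univ _) h

/-- alternating forms -/
theorem exists_good_alt [CharZero K] (n : ℕ) : ∀ (V : Type) [AddCommGroup V] [Module K V]
    [FiniteDimensional K V] (B : V →ₗ[K] V →ₗ[K] K) (_ : ∀ x y, B x y = - B y x)
    (_ : ∀ x, (∀ y, B x y = 0) → x = 0) (_ : finrank K V = n),
    ∃ (β : Type) (_ : Fintype β) (_ : DecidableEq β) (v : Basis β K V), IsGood e B v := by
  induction n using Nat.strong_induction_on with
  | _ n ih =>
  intro V _ _ _ B sk nd hn
  have hself : ∀ x, B x x = 0 := fun x => by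
    have h1 := sk x x
    have h2 : (2 : K) * B x x = 0 := by linear_combination h1
    exact (mul_eq_zero.1 h2).resolve_left two_ne_zero
  by_cases h0 : ∀ x : V, x = 0
  · have : Subsingleton V := ⟨fun a b => by rw [h0 a, h0 b]⟩
    exact ⟨Fin 0, inferInstance, inferInstance, Basis.empty V, fun p => p.elim0, fun p => p.elim0⟩
  · push Not at h0
    obtain ⟨x, hx⟩ := h0
    have h1 : ∃ y, B x y ≠ 0 := by
      by_contra hcon
      push Not at hcon
      exact hx (nd x hcon)
    obtain ⟨y0, hy0⟩ := h1
    obtain ⟨y, hy⟩ : ∃ y, B x y = 1 := ⟨(B x y0)⁻¹ • y0, by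
      rw [map_smul, smul_eq_mul, inv_mul_cancel₀ hy0]⟩
    have hyx : B y x = -1 := by rw [sk, hy]
    let U : Submodule K V := LinearMap.ker (B x) ⊓ LinearMap.ker (B y)
    have hU : ∀ w : U, B x w = 0 ∧ B y w = 0 := fun w =>
      ⟨LinearMap.mem_ker.1 (Submodule.mem_inf.1 w.2).1, LinearMap.mem_ker.1
        (Submodule.mem_inf.1 w.2).2⟩
    have hmem : ∀ v : V, v + B y v • x - B x v • y ∈ U := by
      intro v
      refine Submodule.mem_inf.2 ⟨LinearMap.mem_ker.2 ?_, LinearMap.mem_ker.2 ?_⟩
      · rw [map_sub, map_add, map_smul, map_smul, hself, hy, smul_zero, add_zero, smul_eq_mul,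
          mul_one, sub_self]
      · rw [map_sub, map_add, map_smul, map_smul, hself, hyx, smul_zero, sub_zero, smul_eq_mul]
        ring
    let E : V ≃ₗ[K] (Fin 2 → K) × U :=
      { toFun := fun v => (![- B y v, B x v], ⟨_, hmem v⟩)
        map_add' := by
          intro v w
          refine Prod.ext ?_ (Subtype.ext ?_)
          · funext i
            fin_cases i
            · change - B y (v + w) = - B y v + - B y w
              rw [map_add]; ring
            · change B x (v + w) = B x v + B x w
              rw [map_add]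
          · change v + w + B y (v + w) • x - B x (v + w) • y =
              (v + B y v • x - B x v • y) + (w + B y w • x - B x w • y)
            rw [map_add, map_add]
            module
        map_smul' := by
          intro a v
          refine Prod.ext ?_ (Subtype.ext ?_)
          · funext i
            fin_cases i
            · change - B y (a • v) = a * (- B y v)
              rw [map_smul, smul_eq_mul]; ring
            · change B x (a • v) = a * (B x v)
              rw [map_smul, smul_eq_mul]
          · change a • v + B y (a • v) • x - B x (a • v) • y =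
              a • (v + B y v • x - B x v • y)
            rw [map_smul, map_smul, smul_eq_mul, smul_eq_mul]
            module
        invFun := fun z => z.1 0 • x + z.1 1 • y + (z.2 : V)
        left_inv := by
          intro v
          change (- B y v) • x + B x v • y + (v + B y v • x - B x v • y) = v
          module
        right_inv := by
          rintro ⟨z, w⟩
          obtain ⟨k1, k2⟩ := hU w
          have k3 : B x (z 0 • x + z 1 • y + (w : V)) = z 1 := by
            rw [map_add, map_add, map_smul, map_smul, hself, hy, k1, smul_zero, smul_eq_mul]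
            ring
          have k4 : B y (z 0 • x + z 1 • y + (w : V)) = - z 0 := by
            rw [map_add, map_add, map_smul, map_smul, hself, hyx, k2, smul_zero, smul_eq_mul]
            ring
          refine Prod.ext ?_ (Subtype.ext ?_)
          · funext i
            fin_cases i
            · change - B y (z 0 • x + z 1 • y + (w : V)) = z 0
              rw [k4, neg_neg]
            · change B x (z 0 • x + z 1 • y + (w : V)) = z 1
              rw [k3]
          · change z 0 • x + z 1 • y + (w : V) + B y (z 0 • x + z 1 • y + (w : V)) • x -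
              B x (z 0 • x + z 1 • y + (w : V)) • y = w
            rw [k3, k4]
            module }
    have hEs : ∀ z, E.symm z = z.1 0 • x + z.1 1 • y + (z.2 : V) := fun z => rfl
    have hdim : finrank K U < n := by
      have h3 := E.finrank_eq
      rw [finrank_prod, finrank_pi, Fintype.card_fin] at h3
      omega
    let BU : U →ₗ[K] U →ₗ[K] K := B.compl₁₂ U.subtype U.subtype
    have hBU : ∀ a b : U, BU a b = B a b := fun a b => rfl
    obtain ⟨β, i1, i2, v, hv⟩ := ih _ hdim U BU (fun a b => sk a b) (by
      intro a ha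
      apply Subtype.ext
      refine nd _ fun w => ?_
      have h3 : w = E.symm (E w) := (E.symm_apply_apply w).symm
      rw [h3, hEs, map_add, map_add, map_smul, map_smul, sk a x, (hU a).1, sk a y, (hU a).2]
      have h4 := ha (E w).2
      rw [hBU] at h4
      rw [h4]
      simp) rfl
    let b : Basis (Fin 2 ⊕ β) K V := ((Pi.basisFun K (Fin 2)).prod v).map E.symm
    have hb0 : b (Sum.inl 0) = x := by
      change E.symm (((Pi.basisFun K (Fin 2)).prod v) (Sum.inl 0)) = x
      rw [Basis.prod_apply, hEs]
      simp
    have hb1 : b (Sum.inl 1) = y := by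
      change E.symm (((Pi.basisFun K (Fin 2)).prod v) (Sum.inl 1)) = y
      rw [Basis.prod_apply, hEs]
      simp
    have hbr : ∀ p, b (Sum.inr p) = v p := by
      intro p
      change E.symm (((Pi.basisFun K (Fin 2)).prod v) (Sum.inr p)) = v p
      rw [Basis.prod_apply, hEs]
      simp
    have k1 : ∀ p, B x (v p : U) = 0 := fun p => (hU (v p)).1
    have k2 : ∀ p, B y (v p : U) = 0 := fun p => (hU (v p)).2
    have k3 : ∀ p, B (v p : U) x = 0 := fun p => by rw [sk, k1, neg_zero]
    have k4 : ∀ p, B (v p : U) y = 0 := fun p => by rw [sk, k2, neg_zero]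
    have k5 : ∀ p q, B (v p : U) (v q : U) = BU (v p) (v q) := fun p q => rfl
    refine ⟨Fin 2 ⊕ β, inferInstance, inferInstance, b, ?_, ?_⟩
    · rintro (p | p) (q | q)
      · fin_cases p <;> fin_cases q <;> simp [hb0, hb1, hself, hy, hyx]
      · fin_cases p <;> simp [hb0, hb1, hbr, k1, k2]
      · fin_cases q <;> simp [hb0, hb1, hbr, k3, k4]
      · rw [hbr, hbr, k5]
        exact hv.real p q
    · rintro (p | p) (q | q)
      · rw [Fintype.sum_sum_type]
        fin_cases p <;> fin_cases q <;>
          simp [hb0, hb1, hbr, hself, hy, hyx, k1, k2, k3, k4, Fin.sum_univ_two]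
      · rw [Fintype.sum_sum_type]
        fin_cases p <;>
          simp [hb0, hb1, hbr, hself, hy, hyx, k1, k2, k3, k4, Fin.sum_univ_two]
      · rw [Fintype.sum_sum_type]
        fin_cases q <;>
          simp [hb0, hb1, hbr, hself, hy, hyx, k1, k2, k3, k4, Fin.sum_univ_two]
      · rw [Fintype.sum_sum_type]
        simp only [hb0, hb1, hbr, k3, k4, Fin.sum_univ_two, mul_zero, add_zero, zero_add, k5]
        rw [hv.orth p q]
        simp only [Sum.inr.injEq]

/-- **Good bases exist.** -/
theorem exists_good [IsAlgClosed K] [CharZero K] (B : V →ₗ[K] V →ₗ[K] K)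
    (sy : (∀ x y, B x y = B y x) ∨ ∀ x y, B x y = - B y x)
    (nd : ∀ x, (∀ y, B x y = 0) → x = 0) :
    ∃ v : Basis (Fin (finrank K V)) K V, IsGood e B v := by
  rcases sy with sy | sy
  · exact exists_good_sym e B sy nd
  · obtain ⟨β, i1, i2, v, hv⟩ := exists_good_alt e _ V B sy nd rfl
    have h1 : Fintype.card β = finrank K V := (finrank_eq_card_basis v).symm
    let f : β ≃ Fin (finrank K V) := Fintype.equivFinOfCardEq h1
    exact ⟨v.reindex f, hv.reindex e f⟩

end

end Run7.h552.PG
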