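import Pool.Agent.Run7.h552.PD.Fft
import Pool.Agent.Run7.h552.PG.Real

/-!
# The first fundamental theorem in adapted bases
-/

set_option autoImplicit false
set_option linter.unusedSectionVars false

namespace Run7.h552.PG

open Module Finset Function Pool.Agent.TH118.SG Pool.Agent.TH125.Gal Pool.Agent.Y127.G
  Pool.Agent.Y127.C Pool.Agent.Y95.ZT Run7.h552.CT Run7.h552.SF Run7.h552.MX Run7.h552.PD

noncomputable section

variable {K : Type} [Field K] [CharZero K] {Γ : Type} [Group Γ] {ι : Type}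
  {T : ι → FRep K Γ} (hT : ∀ j, MRep (T j))
  (bs : ∀ t, Basis (Fin (finrank K (T t).V)) K (T t).V) (S : Finset ι)

/-- the basis of the total space -/
def vg : Basis (Bx T S) K (Vx T S) :=
  letI := Classical.decEq ι
  Pi.basis fun j : S => bs j.1

theorem vg_self (b : Bx T S) : vg bs S b b.1 = bs b.1.1 b.2 := by
  classical
  rw [vg, Pi.basis_apply]
  convert Pi.single_eq_same _ _

theorem vg_ne (b : Bx T S) {j : S} (h : b.1 ≠ j) : vg bs S b j = 0 := by
  classical
  rw [vg, Pi.basis_apply]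
  convert Pi.single_eq_of_ne (Ne.symm h) _

theorem Bt_vg (b : Bx T S) (w : Vx T S) :
    Bt hT S (vg bs S b) w = (hT b.1.1).B (vg bs S b b.1) (w b.1) := by
  rw [Bt_apply, Finset.sum_eq_single b.1]
  · intro j _ hj
    rw [vg_ne bs S b (Ne.symm hj), map_zero, LinearMap.zero_apply]
  · intro h
    exact absurd (Finset.mem_univ _) h

/-- the Gram matrix -/
def Qg : Matrix (Bx T S) (Bx T S) K := Matrix.of fun b b' => Bt hT S (vg bs S b) (vg bs S b')

theorem Qg_apply (b b' : Bx T S) :
    Qg hT bs S b b' = (hT b.1.1).B (vg bs S b b.1) (vg bs S b' b.1) :=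
  Bt_vg hT bs S b _

theorem exists_Rg [DecidableEq ι] : ∃ R : Matrix (Bx T S) (Bx T S) K, Qg hT bs S * R = 1 := by
  obtain ⟨d, hd, -⟩ := exists_dual (Bt hT S) (Bt_nd hT S) (vg bs S)
  refine ⟨Matrix.of fun q r => (vg bs S).repr (d r) q, ?_⟩
  ext p r
  rw [Matrix.mul_apply, Matrix.one_apply, ← hd p r]
  conv_rhs => rw [← (vg bs S).sum_repr (d r), map_sum]
  refine Finset.sum_congr rfl fun q _ => ?_
  rw [map_smul, smul_eq_mul, mul_comm]
  rfl

variable {A : Type} [AddCommGroup A] [Module K A]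

/-- the form as a function of indices -/
def fg {R : Type} (s : R → S) (h : MultilinearMap K (fun r : R => (T (s r).1).V) A) :
    (R → Bx T S) → A :=
  fun J => h fun r => vg bs S (J r) (s r)

/-- **The first fundamental theorem, mixed type.** -/
theorem gen_of_killg [DecidableEq ι] {R : Type} [Fintype R] [DecidableEq R] (s : R → S)
    (h : MultilinearMap K (fun r : R => (T (s r).1).V) A)
    (hk : ∀ i ∈ S, ∀ x y : (T i).V, ∃ D : ∀ j, (T j).V →ₗ[K] (T j).V,
      D i = oo (hT i).B (hT i).s x y ∧ (∀ j ∈ S, j ≠ i → D j = 0) ∧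
      ∀ v : ∀ r : R, (T (s r).1).V, ∑ r, h (update v r (D (s r).1 (v r))) = 0)
    (hc : ∀ i : S, (hT i.1).IsO → (univ.filter fun r => s r = i).card < finrank K (T i.1).V) :
    fg bs S s h ∈ Pool.Agent.TH125.Nod.Gen (fun b : Bx T S => b.1) (Qg hT bs S) s := by
  classical
  obtain ⟨Rm, hR⟩ := exists_Rg hT bs S
  refine Pool.Agent.TH125.Nod.fft (K := K) (κ := fun b : Bx T S => b.1) (Q := Qg hT bs S) (R := Rm)
    (s := sg hT S) ?_ ?_ ?_ hR (Fintype.card R) R s (fg bs S s h) rfl ?_ ?_ ?_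
  · intro j
    unfold sg
    split
    · exact Or.inl rfl
    · exact Or.inr rfl
  · intro a b hab
    rw [Qg_apply, vg_ne bs S b (Ne.symm hab), map_zero]
  · intro a b
    rw [sg_eq]
    by_cases hab : a.1 = b.1
    · rw [Qg_apply, Qg_apply, MRep.sy, ← hab]
    · rw [Qg_apply, Qg_apply, vg_ne bs S b (Ne.symm hab), map_zero, vg_ne bs S a hab, map_zero,
        mul_zero]
  · intro J hJ
    push Not at hJ
    obtain ⟨r, hr⟩ := hJ
    exact h.map_coord_zero r (vg_ne bs S _ hr)
  · intro u v huv J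
    obtain ⟨i, hi⟩ : ∃ i : S, u.1 = i := ⟨_, rfl⟩
    have hvi : v.1 = i := (show u.1 = v.1 from huv).symm.trans hi
    obtain ⟨D, hD1, hD2, hD3⟩ := hk i.1 i.2 (vg bs S u i) (vg bs S v i)
    have h1 := hD3 fun r => vg bs S (J r) (s r)
    rw [← h1]
    refine Finset.sum_congr rfl fun r _ => ?_
    have hup : ∀ b : Bx T S, fg bs S s h (update J r b) =
        h (update (fun r => vg bs S (J r) (s r)) r (vg bs S b (s r))) := by
      intro b
      unfold fg
      congr 1
      funext r'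
      by_cases hr : r' = r
      · subst hr
        rw [update_self, update_self]
      · rw [update_of_ne hr, update_of_ne hr]
    rw [hup, hup, ← h.map_update_smul, ← h.map_update_smul, ← h.map_update_sub]
    congr 2
    by_cases hr : s r = i
    · have hQ : ∀ b b' : Bx T S, b.1 = i → Qg hT bs S b b' =
          (hT i.1).B (vg bs S b i) (vg bs S b' i) := by
        intro b b' hb
        subst hb
        rw [Qg_apply]
      have key : ∀ (j : S) (hj : j = i) (w : (T j.1).V),
          w = vg bs S (J r) j → Qg hT bs S v (J r) • vg bs S u j -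
            (((sg hT S u.1 : ℤ) : K) * Qg hT bs S u (J r)) • vg bs S v j = D j.1 w := by
        intro j hj w hw
        subst hj
        rw [hD1, hw, hQ v _ hvi, hQ u _ hi, sg_eq, hi, oo_apply]
      exact key (s r) hr _ rfl
    · rw [hD2 (s r).1 (s r).2 fun h => hr (Subtype.ext h), LinearMap.zero_apply,
        vg_ne bs S u (by rw [hi]; exact Ne.symm hr), vg_ne bs S v (by rw [hvi]; exact Ne.symm hr),
        smul_zero, smul_zero, sub_zero]
  · intro i hi
    have hO : (hT i.1).IsO := by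
      by_contra hcon
      unfold sg at hi
      rw [if_neg hcon] at hi
      norm_num at hi
    refine (hc i hO).trans_le (le_of_eq ?_)
    have h1 : (Pool.Agent.TH125.Nod.blk (fun b : Bx T S => b.1) i).card =
        Fintype.card (Fin (finrank K (T i.1).V)) := by
      rw [← Fintype.card_coe]
      refine Fintype.card_congr (Equiv.symm ?_)
      refine Equiv.ofBijective (fun p => ⟨⟨i, p⟩, Pool.Agent.TH125.Nod.mem_blk.2 rfl⟩) ⟨?_, ?_⟩
      · intro p q h
        have h2 := congrArg Subtype.val h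
        exact eq_of_heq (Sigma.mk.inj h2).2
      · rintro ⟨⟨j, p⟩, hp⟩
        rw [Pool.Agent.TH125.Nod.mem_blk] at hp
        obtain rfl : j = i := hp
        exact ⟨p, rfl⟩
    rw [h1, Fintype.card_fin]

section good

variable {bs} (e : K ≃+* ℂ) (hb : ∀ t, IsGood e (hT t).B (bs t))

include hb

theorem Qg_real (p q : Bx T S) : cj e (Qg hT bs S p q) = Qg hT bs S p q := by
  rw [Qg_apply]
  obtain ⟨j, a⟩ := p
  obtain ⟨j', a'⟩ := q
  by_cases h : j' = j
  · subst h
    rw [vg_self bs S ⟨j', a⟩, vg_self bs S ⟨j', a'⟩]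
    exact (hb j'.1).real a a'
  · rw [vg_ne bs S ⟨j', a'⟩ h, map_zero, map_zero]

theorem Qg_orth [DecidableEq ι] (p q : Bx T S) :
    ∑ r, Qg hT bs S p r * Qg hT bs S q r = if p = q then 1 else 0 := by
  obtain ⟨j, a⟩ := p
  obtain ⟨j', a'⟩ := q
  rw [Fintype.sum_sigma, Finset.sum_eq_single j]
  · by_cases h : j' = j
    · subst h
      have h1 := (hb j'.1).orth a a'
      have h2 : ∀ x : Fin (finrank K (T j'.1).V), Qg hT bs S ⟨j', a⟩ ⟨j', x⟩ *
          Qg hT bs S ⟨j', a'⟩ ⟨j', x⟩ = (hT j'.1).B (bs j'.1 a) (bs j'.1 x) *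
            (hT j'.1).B (bs j'.1 a') (bs j'.1 x) := by
        intro x
        rw [Qg_apply, Qg_apply]
        have k1 : vg bs S ⟨j', a⟩ j' = bs j'.1 a := vg_self bs S ⟨j', a⟩
        have k2 : vg bs S ⟨j', a'⟩ j' = bs j'.1 a' := vg_self bs S ⟨j', a'⟩
        have k3 : vg bs S ⟨j', x⟩ j' = bs j'.1 x := vg_self bs S ⟨j', x⟩
        rw [k1, k2, k3]
      rw [Finset.sum_congr rfl fun x _ => h2 x, h1]
      by_cases h3 : a = a'
      · subst h3; rw [if_pos rfl, if_pos rfl]
      · rw [if_neg h3, if_neg]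
        intro h4
        exact h3 (eq_of_heq (Sigma.mk.inj h4).2)
    · rw [if_neg]
      · refine Finset.sum_eq_zero fun x _ => ?_
        have h2 : Qg hT bs S ⟨j', a'⟩ ⟨j, x⟩ = 0 := by
          rw [Qg_apply, vg_ne bs S ⟨j, x⟩ (Ne.symm h), map_zero]
        rw [h2, mul_zero]
      · intro h4
        exact h (Sigma.mk.inj h4).1.symm
  · intro j2 _ hj2
    refine Finset.sum_eq_zero fun x _ => ?_
    have h2 : Qg hT bs S ⟨j, a⟩ ⟨j2, x⟩ = 0 := by
      rw [Qg_apply, vg_ne bs S ⟨j2, x⟩ hj2, map_zero]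
    rw [h2, zero_mul]
  · intro h
    exact absurd (Finset.mem_univ _) h

end good

end

end Run7.h552.PG
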