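import Pool.Agent.Run7.h552.PD.Coef
import Pool.Agent.Run7.h552.PG.Fft

/-!
# Generators of the cohomology and the classes of pairs
-/

set_option autoImplicit false
set_option linter.unusedSectionVars false

open CategoryTheory AlgebraicGeometry Finset Function

universe u

namespace Run7.h552.PG

open Pool.Agent Pool.Agent.H914 Pool.Agent.H914.VarClass Pool.Agent.H914.VarClass.Obj
  Pool.Agent.H914.WeilCohomology Pool.Agent.H281R3.HT Pool.Agent.W552 Pool.Agent.TH125.Gal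
  Pool.Agent.Y127.G Run7.h552.PD
open Run7.h552.NP (IsProd Equivariant)
open Run7.h552.MX (MRep)

noncomputable section

variable {k : Type u} [Field k] {𝒱 : VarClass k} {ops : CycleOps 𝒱}
  {W : WeilCohomology.{u, 0} ops} {Γ : Type} [Group Γ] {ι τ : Type}

/-- The cohomology of `A` is generated by Tate classes and by twists of the representations `T t`;
it is spanned by the products of Tate classes with the words in `wd`. -/
structure Dg (χ : Γ →* W.Kˣ) (T : τ → FRep W.K Γ) (dT : τ → ℕ) (A : GVar W Γ) where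
  Δ : Subgroup Γ
  fin : Δ.FiniteIndex
  NC : Type
  s : NC → W.H A.X
  n : NC → ℕ
  r : ℕ
  ty : Fin r → τ
  ph : ∀ u, (T (ty u)).V →ₗ[W.K] W.H A.X
  d : Fin r → ℕ
  z : Fin r → ℤ
  wd : Set (List (Fin r))
  s_mem : ∀ l, s l ∈ W.gr A.X (2 * n l)
  s_act : ∀ g ∈ Δ, ∀ l, A.act g (s l) = (χ g : W.K) ^ n l • s l
  hz : ∀ u, 2 * z u = (dT (ty u) : ℤ) - d u
  ph_mem : ∀ u x, ph u x ∈ W.gr A.X (d u)
  ph_act : ∀ g ∈ Δ, ∀ u x, A.act g (ph u x) = (χ g : W.K) ^ (-z u) • ph u ((T (ty u)).ρ g x)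
  span : ∀ x, x ∈ Submodule.span W.K {y | ∃ (l : NC) (w : List (Σ u, (T (ty u)).V)),
    w.map Sigma.fst ∈ wd ∧ y = s l * (w.map fun v => ph v.1 v.2).prod}

attribute [instance] Dg.fin

variable {χ : Γ →* W.Kˣ} {T : τ → FRep W.K Γ} {dT : τ → ℕ}

theorem Dg.isTate {A : GVar W Γ} (E : Dg χ T dT A) (l : E.NC) : IsTate χ A (E.n l) (E.s l) :=
  ⟨E.s_mem l, E.Δ, E.fin, fun g hg => E.s_act g hg l⟩

section one

variable {K : Type} [Field K] {V M : Type} [AddCommGroup V] [Module K V] [AddCommGroup M]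
  [Module K M] {β : Type} [Fintype β] [DecidableEq β]

/-- the canonical element, one space -/
theorem sum_one (B : V →ₗ[K] V →ₗ[K] K) (v : Module.Basis β K V)
    (ho : ∀ p q, ∑ r, B (v p) (v r) * B (v q) (v r) = if p = q then 1 else 0)
    {ρ : V →ₗ[K] V} {μ : K} (hμ : μ ≠ 0) (hρ : ∀ x y, B (ρ x) (ρ y) = μ * B x y)
    (F : V →ₗ[K] V →ₗ[K] M) :
    ∑ p, ∑ q, B (v p) (v q) • F (ρ (v p)) (ρ (v q)) =
      μ • ∑ p, ∑ q, B (v p) (v q) • F (v p) (v q) := by
  let Q : Matrix β β K := Matrix.of fun p q => B (v p) (v q)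
  let A : Matrix β β K := Matrix.of fun r p => v.repr (ρ (v p)) r
  have hA : ∀ p, ρ (v p) = ∑ r, A r p • v r := fun p => (v.sum_repr _).symm
  have h1 : Q * Q.transpose = 1 := by
    ext p q
    rw [Matrix.mul_apply, Matrix.one_apply]
    exact ho p q
  have h1' : Q.transpose * Q = 1 := mul_eq_one_comm.1 h1
  have h2 : A.transpose * Q * A = μ • Q := by
    ext p q
    rw [Matrix.smul_apply, smul_eq_mul]
    have h3 : μ * Q p q = B (ρ (v p)) (ρ (v q)) := (hρ _ _).symm
    rw [h3, hA p, hA q, LinearMap.map_sum₂, Matrix.mul_apply]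
    simp only [Matrix.mul_apply, Matrix.transpose_apply]
    rw [Finset.sum_congr rfl fun j _ => Finset.sum_mul _ _ _, Finset.sum_comm]
    refine Finset.sum_congr rfl fun r _ => ?_
    rw [map_sum]
    refine Finset.sum_congr rfl fun j _ => ?_
    rw [map_smul, map_smul, LinearMap.smul_apply, smul_eq_mul, smul_eq_mul]
    change A r p * Q r j * A j q = A j q * (A r p * Q r j)
    ring
  have h3 : (μ⁻¹ • (Q.transpose * A.transpose * Q)) * A = 1 := by
    rw [Matrix.smul_mul, Matrix.mul_assoc, Matrix.mul_assoc, ← Matrix.mul_assoc A.transpose, h2,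
      Matrix.mul_smul, h1', smul_smul, inv_mul_cancel₀ hμ, one_smul]
  have h4 : A * (μ⁻¹ • (Q.transpose * A.transpose * Q)) = 1 := mul_eq_one_comm.1 h3
  have h5 : A * Q.transpose * A.transpose = μ • Q.transpose := by
    have h6 : A * Q.transpose * A.transpose * (Q * Q.transpose) =
        μ • ((A * (μ⁻¹ • (Q.transpose * A.transpose * Q))) * Q.transpose) := by
      rw [Matrix.mul_smul, Matrix.smul_mul, smul_smul, mul_inv_cancel₀ hμ, one_smul]
      simp only [Matrix.mul_assoc]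
    rw [h1, Matrix.mul_one, h4, Matrix.one_mul] at h6
    exact h6
  have h6 : A * Q * A.transpose = μ • Q := by
    have h7 := congrArg Matrix.transpose h5
    rw [Matrix.transpose_mul, Matrix.transpose_mul, Matrix.transpose_smul,
      Matrix.transpose_transpose, Matrix.transpose_transpose, ← Matrix.mul_assoc] at h7
    exact h7
  have h7 : ∀ r s, ∑ p, ∑ q, A r p * (B (v p) (v q) * A s q) = μ * B (v r) (v s) := by
    intro r s
    have h8 := congrFun (congrFun h6 r) s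
    rw [Matrix.smul_apply, smul_eq_mul, Matrix.mul_apply] at h8
    simp only [Matrix.mul_apply, Matrix.transpose_apply] at h8
    rw [Finset.sum_congr rfl fun j _ => Finset.sum_mul _ _ _, Finset.sum_comm] at h8
    refine Eq.trans ?_ h8
    refine Finset.sum_congr rfl fun p _ => Finset.sum_congr rfl fun q _ => ?_
    change _ = A r p * B (v p) (v q) * A s q
    ring
  have h8 : ∀ p q, B (v p) (v q) • F (ρ (v p)) (ρ (v q)) =
      ∑ r, ∑ s, (A r p * (B (v p) (v q) * A s q)) • F (v r) (v s) := by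
    intro p q
    rw [hA p, hA q, LinearMap.map_sum₂, Finset.smul_sum]
    refine Finset.sum_congr rfl fun r _ => ?_
    rw [map_sum, Finset.smul_sum]
    refine Finset.sum_congr rfl fun s _ => ?_
    rw [map_smul, map_smul, LinearMap.smul_apply, smul_smul, smul_smul]
    congr 1
    ring
  rw [Finset.sum_congr rfl fun p _ => Finset.sum_congr rfl fun q _ => h8 p q]
  have h9 : ∑ p, ∑ q, ∑ r, ∑ s, (A r p * (B (v p) (v q) * A s q)) • F (v r) (v s) =
      ∑ r, ∑ s, (∑ p, ∑ q, A r p * (B (v p) (v q) * A s q)) • F (v r) (v s) := by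
    have k1 : ∀ p, ∑ q, ∑ r, ∑ s, (A r p * (B (v p) (v q) * A s q)) • F (v r) (v s) =
        ∑ r, ∑ s, ∑ q, (A r p * (B (v p) (v q) * A s q)) • F (v r) (v s) := by
      intro p
      rw [Finset.sum_comm]
      refine Finset.sum_congr rfl fun r _ => ?_
      rw [Finset.sum_comm]
    rw [Finset.sum_congr rfl fun p _ => k1 p, Finset.sum_comm]
    refine Finset.sum_congr rfl fun r _ => ?_
    rw [Finset.sum_comm]
    refine Finset.sum_congr rfl fun s _ => ?_
    rw [Finset.sum_smul]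
    refine Finset.sum_congr rfl fun p _ => ?_
    rw [Finset.sum_smul]
  rw [h9, Finset.smul_sum]
  refine Finset.sum_congr rfl fun r _ => ?_
  rw [Finset.smul_sum]
  refine Finset.sum_congr rfl fun s _ => ?_
  rw [h7, mul_smul]

end one

variable (hT : ∀ t, MRep (T t))
  (bs : ∀ t, Module.Basis (Fin (Module.finrank W.K (T t).V)) W.K (T t).V) (S : Finset τ)

/-- only one type contributes -/
theorem sum_type {t : S} {M : Type} [AddCommGroup M] [Module W.K M] (e : W.K ≃+* ℂ)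
    (hb : ∀ t, IsGood e (hT t).B (bs t))
    (F : (T t.1).V →ₗ[W.K] (T t.1).V →ₗ[W.K] M) (g : (T t.1).V →ₗ[W.K] (T t.1).V) :
    ∑ b, ∑ b', Qg hT bs S b b' • F (g (vg bs S b t)) (g (vg bs S b' t)) =
      ∑ p, ∑ q, (hT t.1).B (bs t.1 p) (bs t.1 q) • F (g (bs t.1 p)) (g (bs t.1 q)) := by
  classical
  rw [Fintype.sum_sigma, Finset.sum_eq_single t]
  · refine Finset.sum_congr rfl fun p _ => ?_
    have k1 : ∀ p, vg bs S ⟨t, p⟩ t = bs t.1 p := fun p => vg_self bs S ⟨t, p⟩
    rw [Fintype.sum_sigma, Finset.sum_eq_single t]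
    · refine Finset.sum_congr rfl fun q _ => ?_
      rw [Qg_apply, k1, k1]
    · intro j _ hj
      refine Finset.sum_eq_zero fun q _ => ?_
      rw [vg_ne bs S ⟨j, q⟩ hj, map_zero, map_zero, smul_zero]
    · intro h
      exact absurd (Finset.mem_univ _) h
  · intro j _ hj
    refine Finset.sum_eq_zero fun p _ => Finset.sum_eq_zero fun b' _ => ?_
    rw [vg_ne bs S ⟨j, p⟩ hj, map_zero, map_zero, LinearMap.zero_apply, smul_zero]
  · intro h
    exact absurd (Finset.mem_univ _) h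

/-- the form in a twisted pair of vectors -/
theorem sum_good {t : S} {M : Type} [AddCommGroup M] [Module W.K M] (e : W.K ≃+* ℂ)
    (hb : ∀ t, IsGood e (hT t).B (bs t))
    (F : (T t.1).V →ₗ[W.K] (T t.1).V →ₗ[W.K] M) (g : Γ) :
    ∑ b, ∑ b', Qg hT bs S b b' • F ((T t.1).ρ g (vg bs S b t)) ((T t.1).ρ g (vg bs S b' t)) =
      ((hT t.1).μ g : W.K) • ∑ b, ∑ b', Qg hT bs S b b' •
        F (vg bs S b t) (vg bs S b' t) := by
  rw [sum_type hT bs S e hb F ((T t.1).ρ g)]
  have h1 := sum_type hT bs S e hb F LinearMap.id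
  simp only [LinearMap.id_apply] at h1
  rw [h1]
  exact sum_one (hT t.1).B (bs t.1) (hb t.1).orth (Units.ne_zero _)
    (fun x y => MRep.eqv (hT t.1) g x y) F

/-- The class of a pair. -/
def theta {V A B : GVar W Γ} (p : V.X ⟶ A.X) (q : V.X ⟶ B.X) {t t' : S}
    (f : (T t.1).V →ₗ[W.K] W.H A.X) (f' : (T t'.1).V →ₗ[W.K] W.H B.X) : W.H V.X :=
  ∑ b, ∑ b', Qg hT bs S b b' • (W.map p (f (vg bs S b t)) * W.map q (f' (vg bs S b' t')))

theorem map_theta {V V' A B : GVar W Γ} (F : V'.X ⟶ V.X) (p : V.X ⟶ A.X) (q : V.X ⟶ B.X)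
    {t t' : S} (f : (T t.1).V →ₗ[W.K] W.H A.X) (f' : (T t'.1).V →ₗ[W.K] W.H B.X) :
    W.map F (theta hT bs S (V := V) (A := A) (B := B) p q f f') =
      theta hT bs S (V := V') (A := A) (B := B) (F ≫ p) (F ≫ q) f f' := by
  rw [theta, theta, map_sum]
  refine Finset.sum_congr rfl fun b _ => ?_
  rw [map_sum]
  refine Finset.sum_congr rfl fun b' _ => ?_
  rw [map_smul, map_mul, ← W.map_comp, ← W.map_comp]

theorem theta_ne {V A B : GVar W Γ} {p : V.X ⟶ A.X} {q : V.X ⟶ B.X} {t t' : S}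
    {f : (T t.1).V →ₗ[W.K] W.H A.X} {f' : (T t'.1).V →ₗ[W.K] W.H B.X} (ht : t ≠ t') :
    theta hT bs S (V := V) (A := A) (B := B) p q f f' = 0 := by
  rw [theta]
  refine Finset.sum_eq_zero fun b _ => Finset.sum_eq_zero fun b' _ => ?_
  by_cases hb : b.1 = t
  · by_cases hb' : b'.1 = t'
    · rw [Qg_apply, vg_ne bs S b' (by rw [hb, hb']; exact Ne.symm ht), map_zero, zero_smul]
    · rw [vg_ne bs S b' hb', map_zero, map_zero, mul_zero, smul_zero]
  · rw [vg_ne bs S b hb, map_zero, map_zero, zero_mul, smul_zero]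

/-- **The class of a pair is a Tate class.** -/
theorem theta_tate (e : W.K ≃+* ℂ) (hb : ∀ t, IsGood e (hT t).B (bs t))
    (hμ : ∀ t, (hT t).μ = χ ^ dT t) {V A B : GVar W Γ} {p : V.X ⟶ A.X}
    {q : V.X ⟶ B.X} (hp : Equivariant (A := V) (B := A) p) (hq : Equivariant (A := V) (B := B) q)
    (E : Dg χ T dT A) (E' : Dg χ T dT B) {u : Fin E.r} {u' : Fin E'.r} (hu : E.ty u ∈ S)
    (hu' : E'.ty u' ∈ S) : ∃ n, IsTate χ V n
      (theta hT bs S (V := V) (A := A) (B := B) p q (t := ⟨E.ty u, hu⟩) (t' := ⟨E'.ty u', hu'⟩)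
        (E.ph u) (E'.ph u')) := by
  classical
  by_cases ht : (⟨E.ty u, hu⟩ : S) = ⟨E'.ty u', hu'⟩
  swap
  · refine ⟨0, ?_⟩
    rw [theta_ne hT bs S ht]
    exact IsTate.intro (Submodule.zero_mem _) ⊤ inferInstance fun g _ => by
      rw [map_zero, smul_zero]
  -- generalise
  have key : ∀ (t' : τ) (ht' : t' ∈ S) (htt : t' = E.ty u) (f' : (T t').V →ₗ[W.K] W.H B.X)
      (d' : ℕ) (z' : ℤ) (_ : 2 * z' = (dT t' : ℤ) - d') (_ : ∀ x, f' x ∈ W.gr B.X d')
      (_ : ∀ g ∈ E'.Δ, ∀ x, B.act g (f' x) = (χ g : W.K) ^ (-z') • f' ((T t').ρ g x)),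
      ∃ n, IsTate χ V n
        (theta hT bs S (V := V) (A := A) (B := B) p q (t := ⟨E.ty u, hu⟩) (t' := ⟨t', ht'⟩)
          (E.ph u) f') := by
    rintro t' ht' rfl f' d' z' hz' hf' hact'
    have hz := E.hz u
    obtain ⟨N, hN⟩ : ∃ N : ℕ, 2 * N = E.d u + d' := by
      have h3 : (E.d u + d' : ℤ) = 2 * (dT (E.ty u) - E.z u - z') := by linarith
      refine ⟨(E.d u + d') / 2, ?_⟩
      omega
    refine ⟨N, IsTate.intro ?_ (E.Δ ⊓ E'.Δ) inferInstance fun g hg => ?_⟩
    · rw [theta]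
      refine Submodule.sum_mem _ fun b _ => Submodule.sum_mem _ fun b' _ =>
        Submodule.smul_mem _ _ ?_
      rw [hN]
      exact W.mul_mem (W.map_mem p (E.ph_mem u _)) (W.map_mem q (hf' _))
    · obtain ⟨hg1, hg2⟩ := Subgroup.mem_inf.1 hg
      let F : (T (E.ty u)).V →ₗ[W.K] (T (E.ty u)).V →ₗ[W.K] W.H V.X :=
        (LinearMap.mul W.K (W.H V.X)).compl₁₂ ((W.map p).toLinearMap ∘ₗ E.ph u)
          ((W.map q).toLinearMap ∘ₗ f')
      have hF : ∀ x y, F x y = W.map p (E.ph u x) * W.map q (f' y) := fun x y => rfl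
      have h4 := sum_good hT bs S (t := ⟨E.ty u, hu⟩) e hb F g
      have h5 : V.act g (theta hT bs S (V := V) (A := A) (B := B) p q (t := ⟨E.ty u, hu⟩)
          (t' := ⟨E.ty u, ht'⟩) (E.ph u) f') =
          ((χ g : W.K) ^ (-E.z u) * (χ g : W.K) ^ (-z')) • ∑ b, ∑ b', Qg hT bs S b b' •
            F ((T (E.ty u)).ρ g (vg bs S b ⟨E.ty u, hu⟩))
              ((T (E.ty u)).ρ g (vg bs S b' ⟨E.ty u, hu⟩)) := by
        rw [theta, map_sum, Finset.smul_sum]
        refine Finset.sum_congr rfl fun b _ => ?_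
        rw [map_sum, Finset.smul_sum]
        refine Finset.sum_congr rfl fun b' _ => ?_
        have h6 : V.act g (W.map p (E.ph u (vg bs S b ⟨E.ty u, hu⟩))) =
            W.map p (A.act g (E.ph u (vg bs S b ⟨E.ty u, hu⟩))) := hp g _
        have h7 : V.act g (W.map q (f' (vg bs S b' ⟨E.ty u, hu⟩))) =
            W.map q (B.act g (f' (vg bs S b' ⟨E.ty u, hu⟩))) := hq g _
        rw [map_smul, map_mul, h6, h7, E.ph_act g hg1, hact' g hg2, map_smul, map_smul,
          smul_mul_assoc, mul_smul_comm, hF]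
        rw [smul_smul, smul_smul, smul_smul]
        congr 1
        ring
      rw [h5]
      have h6 : ∑ b, ∑ b', Qg hT bs S b b' •
            F ((T (E.ty u)).ρ g (vg bs S b ⟨E.ty u, hu⟩))
              ((T (E.ty u)).ρ g (vg bs S b' ⟨E.ty u, hu⟩)) =
          ((hT (E.ty u)).μ g : W.K) • theta hT bs S (V := V) (A := A) (B := B) p q
            (t := ⟨E.ty u, hu⟩) (t' := ⟨E.ty u, ht'⟩) (E.ph u) f' := h4
      rw [h6, smul_smul, hμ, MonoidHom.pow_apply, Units.val_pow_eq_pow_val]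
      congr 1
      have h7 : (χ g : W.K) ≠ 0 := Units.ne_zero (χ g)
      rw [← zpow_natCast, ← zpow_natCast, ← zpow_add₀ h7, ← zpow_add₀ h7]
      congr 1
      have h8 : (2 * N : ℤ) = E.d u + d' := by exact_mod_cast hN
      linarith
  exact key _ hu' (congrArg Subtype.val ht).symm _ (E'.d u') (E'.z u') (E'.hz u')
    (fun x => E'.ph_mem u' x) (fun g hg x => E'.ph_act g hg u' x)

end

end Run7.h552.PG
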