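import Pool.Agent.Run7.h552.PG.Ker
import Pool.Agent.Run7.h552.PD.Mem

/-!
# Tate classes on towers are generated by the classes of pairs
-/

set_option autoImplicit false
set_option linter.unusedSectionVars false

open CategoryTheory AlgebraicGeometry Finset Function

universe u

namespace Run7.h552.PG

open Pool.Agent Pool.Agent.H914 Pool.Agent.H914.VarClass Pool.Agent.H914.VarClass.Obj
  Pool.Agent.H914.WeilCohomology Pool.Agent.H281R3.HT Pool.Agent.TH125.Gal
  Pool.Agent.Y127.G Run7.h552.PD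
open Run7.h552.NP (IsProd Equivariant)
open Run7.h552.MX (MRep Indep)

noncomputable section

variable {k : Type u} [Field k] {𝒱 : VarClass k} {ops : CycleOps 𝒱}
  {W : WeilCohomology.{u, 0} ops} {Γ : Type} [Group Γ] {ι τ : Type}
  {χ : Γ →* W.Kˣ}

theorem nondeg' {X : 𝒱.Obj} (a : W.H X) (h : ∀ b, W.tr X (b * a) = 0) : a = 0 := by
  refine W.nondeg a fun b => ?_
  refine gr_induction (W.isInternal X) (p := fun b => W.tr X (a * b) = 0) ?_ ?_ b
  · intro i b hb
    have h1 := tr_swap hb a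
    rw [h b] at h1
    exact (mul_eq_zero.1 h1.symm).resolve_left (pow_ne_zero _ (by norm_num))
  · intro b b' h h'
    rw [mul_add, map_add, h, h', add_zero]

/-- **A positive structure on the cohomology.** -/
theorem exists_star (e : W.K ≃+* ℂ) (Z : 𝒱.Obj) : ∃ st : W.H Z → W.H Z,
    st 0 = 0 ∧ (∀ a b, st (a + b) = st a + st b) ∧ (∀ (r : W.K) a, st (r • a) = cj e r • st a) ∧
      ∀ {J : Type} [Fintype J] (f : J → W.H Z), (∃ j, f j ≠ 0) →
        ∑ j, W.tr Z (f j * st (f j)) ≠ 0 := by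
  classical
  let ζ := Module.finBasis W.K (W.H Z)
  obtain ⟨d, hd, -⟩ := exists_dual (bil W Z) (fun x hx => nondeg' x hx) ζ
  have hd' : ∀ p q, W.tr Z (ζ p * d q) = if p = q then 1 else 0 := hd
  refine ⟨fun a => ∑ i, cj e (ζ.repr a i) • d i, ?_, ?_, ?_, ?_⟩
  · simp
  · intro a b
    rw [← Finset.sum_add_distrib]
    refine Finset.sum_congr rfl fun i _ => ?_
    rw [map_add, Finsupp.add_apply, map_add, add_smul]
  · intro r a
    rw [Finset.smul_sum]
    refine Finset.sum_congr rfl fun i _ => ?_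
    rw [map_smul, Finsupp.smul_apply, smul_eq_mul, map_mul, mul_smul]
  · intro J _ f hf
    have h1 : ∀ a : W.H Z, W.tr Z (a * ∑ i, cj e (ζ.repr a i) • d i) =
        ∑ i, ζ.repr a i * cj e (ζ.repr a i) := by
      intro a
      have h2 : ∀ i, W.tr Z (a * d i) = ζ.repr a i := by
        intro i
        conv_lhs => rw [← ζ.sum_repr a]
        rw [Finset.sum_mul, map_sum, Finset.sum_eq_single i]
        · rw [smul_mul_assoc, map_smul, hd', if_pos rfl, smul_eq_mul, mul_one]
        · intro j _ hj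
          rw [smul_mul_assoc, map_smul, hd', if_neg hj, smul_zero]
        · intro h
          exact absurd (Finset.mem_univ _) h
      rw [Finset.mul_sum, map_sum]
      refine Finset.sum_congr rfl fun i _ => ?_
      rw [mul_smul_comm, map_smul, h2, smul_eq_mul, mul_comm]
    rw [Finset.sum_congr rfl fun j _ => h1 (f j), ← Fintype.sum_prod_type'
      (f := fun j i => ζ.repr (f j) i * cj e (ζ.repr (f j) i))]
    refine sum_cj_ne e (fun x : J × _ => ζ.repr (f x.1) x.2) ?_
    obtain ⟨j, hj⟩ := hf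
    by_contra hcon
    push Not at hcon
    apply hj
    apply ζ.repr.injective
    ext i
    rw [map_zero]
    exact hcon (j, i)

variable {T : τ → FRep W.K Γ} {dT : τ → ℕ} (hT : ∀ t, MRep (T t))
  (bs : ∀ t, Module.Basis (Fin (Module.finrank W.K (T t).V)) W.K (T t).V) {S : Finset τ}
  {X : ι → GVar W Γ} {Z : GVar W Γ} (E : ∀ i, Dg χ T dT (X i))

section words

variable {m : ℕ} {L : Fin m → ι} {Y : GVar W Γ} (D : TD X Z L Y)
  (hS : ∀ v : Lt E L, tl E v ∈ S)

/-- the class of two letters -/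
def thl (v v' : Lt E L) : W.H Y.X :=
  theta hT bs S (V := Y) (A := X (L v.1)) (B := X (L v'.1)) (D.p v.1) (D.p v'.1)
    (t := ⟨(E (L v.1)).ty v.2, hS v⟩) (t' := ⟨(E (L v'.1)).ty v'.2, hS v'⟩) ((E (L v.1)).ph v.2)
    ((E (L v'.1)).ph v'.2)

theorem thl_adj (v v' : Lt E L) :
    thl hT bs E D hS v v' ∈ Algebra.adjoin W.K (⋃ a, Set.range (W.map (D.p a))) := by
  unfold thl theta
  refine Subalgebra.sum_mem _ fun b _ => Subalgebra.sum_mem _ fun b' _ =>
    Subalgebra.smul_mem _ (Subalgebra.mul_mem _ ?_ ?_) _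
  · exact Algebra.subset_adjoin (Set.mem_iUnion.2 ⟨_, _, rfl⟩)
  · exact Algebra.subset_adjoin (Set.mem_iUnion.2 ⟨_, _, rfl⟩)

theorem sig_adj (l : ∀ a, (E (L a)).NC) :
    sig E D l ∈ Algebra.adjoin W.K (⋃ a, Set.range (W.map (D.p a))) := by
  unfold sig mon
  refine Subalgebra.list_prod_mem _ fun y hy => ?_
  rw [List.mem_ofFn'] at hy
  obtain ⟨a, rfl⟩ := hy
  exact Algebra.subset_adjoin (Set.mem_iUnion.2 ⟨_, _, rfl⟩)

variable {𝒜 : Subalgebra W.K (W.H Y.X)}

theorem sig_pd (h1 : ∀ a l, W.map (D.p a) ((E (L a)).s l) ∈ 𝒜) (l : ∀ a, (E (L a)).NC) :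
    Pd χ Y 𝒜 (sig E D l) := by
  refine ⟨sig_tate E D l, ?_⟩
  unfold sig mon
  refine Subalgebra.list_prod_mem _ fun y hy => ?_
  rw [List.mem_ofFn'] at hy
  obtain ⟨a, rfl⟩ := hy
  exact h1 _ _

/-- the sum of an invariant function against the products -/
def Nf (st : W.H Z.X → W.H Z.X) (w : List (Lt E L)) (σ : W.H Y.X)
    (f : (Fin w.length → Bx T S) → W.H Z.X) : W.H Y.X :=
  ∑ J, W.map D.q (st (f J)) * (Phi E D w (vJ bs E hS w J) * σ)

/-- **The sum is generated by classes of pairs.** -/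
theorem Nf_mem (e : W.K ≃+* ℂ) (hb : ∀ t, IsGood e (hT t).B (bs t))
    (hμ : ∀ t, (hT t).μ = χ ^ dT t) (h1 : ∀ a l, W.map (D.p a) ((E (L a)).s l) ∈ 𝒜)
    (h2 : ∀ v v', thl hT bs E D hS v v' ∈ 𝒜) {st : W.H Z.X → W.H Z.X} (hst0 : st 0 = 0)
    (hst1 : ∀ a b, st (a + b) = st a + st b)
    (hst2 : ∀ (r : W.K) a, st (r • a) = cj e r • st a) (w : List (Lt E L))
    (l : ∀ a, (E (L a)).NC) {f : (Fin w.length → Bx T S) → W.H Z.X}
    (hf : f ∈ Pool.Agent.TH125.Nod.Gen (fun b : Bx T S => b.1) (Qg hT bs S) (sL E hS w)) :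
    Nf bs E D hS st w (sig E D l) f ∈ Tgt' χ D 𝒜 := by
  classical
  unfold Pool.Agent.TH125.Nod.Gen at hf
  induction hf using Submodule.span_induction with
  | zero =>
    have h3 : Nf bs E D hS st w (sig E D l) 0 = 0 := by
      unfold Nf
      refine Finset.sum_eq_zero fun J _ => ?_
      have h4 : st ((0 : (Fin w.length → Bx T S) → W.H Z.X) J) = 0 := hst0
      rw [h4, map_zero, zero_mul]
    rw [h3]
    exact Submodule.zero_mem _
  | add a b _ _ ha hb' =>
    have h3 : Nf bs E D hS st w (sig E D l) (a + b) = Nf bs E D hS st w (sig E D l) a +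
        Nf bs E D hS st w (sig E D l) b := by
      unfold Nf
      rw [← Finset.sum_add_distrib]
      refine Finset.sum_congr rfl fun J _ => ?_
      have h4 : st ((a + b) J) = st (a J) + st (b J) := hst1 _ _
      rw [h4, map_add, add_mul]
    rw [h3]
    exact Submodule.add_mem _ ha hb'
  | smul r a _ ha =>
    have h3 : Nf bs E D hS st w (sig E D l) (r • a) =
        cj e r • Nf bs E D hS st w (sig E D l) a := by
      unfold Nf
      rw [Finset.smul_sum]
      refine Finset.sum_congr rfl fun J _ => ?_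
      have h4 : st ((r • a) J) = cj e r • st (a J) := hst2 _ _
      rw [h4, map_smul, smul_mul_assoc]
    rw [h3]
    exact Submodule.smul_mem _ _ ha
  | mem f hf =>
    obtain ⟨n, e', w0, rfl⟩ := hf
    -- drop the condition on types
    have h3 : ∀ J : Fin w.length → Bx T S, W.map D.q (st (Pool.Agent.TH125.Nod.gen
        (fun b : Bx T S => b.1) (Qg hT bs S) (sL E hS w) e' w0 J)) *
          (Phi E D w (vJ bs E hS w J) * sig E D l) =
        (∏ i, Qg hT bs S (J (e' (i, 0))) (J (e' (i, 1)))) •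
          (W.map D.q (st w0) * (Phi E D w (vJ bs E hS w J) * sig E D l)) := by
      intro J
      by_cases hJ : ∀ r, (J r).1 = sL E hS w r
      · have h4 : Pool.Agent.TH125.Nod.gen (fun b : Bx T S => b.1) (Qg hT bs S) (sL E hS w) e' w0 J =
            (∏ i, Qg hT bs S (J (e' (i, 0))) (J (e' (i, 1)))) • w0 := if_pos hJ
        rw [h4, hst2, map_prod, map_smul, smul_mul_assoc]
        congr 1
        exact Finset.prod_congr rfl fun i _ => Qg_real hT S e hb _ _
      · push Not at hJ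
        obtain ⟨r, hr⟩ := hJ
        have h4 : Phi E D w (vJ bs E hS w J) = 0 := by
          refine (Phi E D w).map_coord_zero r ?_
          exact vg_ne bs S (J r) hr
        rw [h4, zero_mul, mul_zero, mul_zero, smul_zero]
    have h4 : Nf bs E D hS st w (sig E D l) (Pool.Agent.TH125.Nod.gen
        (fun b : Bx T S => b.1) (Qg hT bs S) (sL E hS w) e' w0) =
        W.map D.q (st w0) * ((∑ J : Fin w.length → Bx T S,
          (∏ i, Qg hT bs S (J (e' (i, 0))) (J (e' (i, 1)))) • Phi E D w (vJ bs E hS w J)) *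
            sig E D l) := by
      unfold Nf
      rw [Finset.sum_congr rfl fun J _ => h3 J, Finset.sum_mul, Finset.mul_sum]
      refine Finset.sum_congr rfl fun J _ => ?_
      rw [smul_mul_assoc, mul_smul_comm]
    rw [h4]
    obtain ⟨ε, hε⟩ := sum_words (K := W.K)
      (E := fun (p : Fin w.length) (b : Bx T S) => el E D (w.get p) (vg bs S b (sL E hS w p)))
      (fun p => dl E (w.get p)) (by
        intro r p q _
        exact W.comm (el_mem E D _ _) (el_mem E D _ _)) e' (Qg hT bs S)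
    have h5 : ∀ J : Fin w.length → Bx T S, Phi E D w (vJ bs E hS w J) =
        (List.ofFn fun p => el E D (w.get p) (vg bs S (J p) (sL E hS w p))).prod := fun J =>
      Phi_apply E D w _
    rw [Finset.sum_congr rfl fun J _ => by rw [h5 J], hε]
    have h6 : ∀ i : Fin n, ∑ a : Fin 2 → Bx T S, Qg hT bs S (a 0) (a 1) •
        (el E D (w.get (e' (i, 0))) (vg bs S (a 0) (sL E hS w (e' (i, 0)))) *
          el E D (w.get (e' (i, 1))) (vg bs S (a 1) (sL E hS w (e' (i, 1))))) =
        thl hT bs E D hS (w.get (e' (i, 0))) (w.get (e' (i, 1))) := by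
      intro i
      refine (Fintype.sum_equiv (finTwoArrowEquiv (Bx T S)) _ (fun a => Qg hT bs S a.1 a.2 •
        (el E D (w.get (e' (i, 0))) (vg bs S a.1 (sL E hS w (e' (i, 0)))) *
          el E D (w.get (e' (i, 1))) (vg bs S a.2 (sL E hS w (e' (i, 1))))))
        (fun a => rfl)).trans ?_
      rw [Fintype.sum_prod_type]
      rfl
    rw [show (fun i : Fin n => ∑ a : Fin 2 → Bx T S, Qg hT bs S (a 0) (a 1) •
        (el E D (w.get (e' (i, 0))) (vg bs S (a 0) (sL E hS w (e' (i, 0)))) *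
          el E D (w.get (e' (i, 1))) (vg bs S (a 1) (sL E hS w (e' (i, 1)))))) =
        fun i => thl hT bs E D hS (w.get (e' (i, 0))) (w.get (e' (i, 1))) from funext h6]
    have hpd : Pd χ Y 𝒜 (((ε : W.K) • (List.ofFn fun i : Fin n =>
        thl hT bs E D hS (w.get (e' (i, 0))) (w.get (e' (i, 1)))).prod) * sig E D l) := by
      refine Pd.mul (Pd.smul (Pd.list ?_) _) (sig_pd E D h1 l)
      intro x hx
      rw [List.mem_ofFn'] at hx
      obtain ⟨i, rfl⟩ := hx
      exact ⟨theta_tate hT bs S e hb hμ (D.hp _) (D.hp _) (E _) (E _) (hS _) (hS _), h2 _ _⟩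
    obtain ⟨⟨N, hN⟩, hN'⟩ := hpd
    rw [← even_comm hN.1]
    refine Submodule.subset_span ⟨_, st w0, ⟨⟨N, hN⟩, hN'⟩, adj_le D.p ?_, rfl⟩
    refine Subalgebra.mul_mem _ (Subalgebra.smul_mem _ (Subalgebra.list_prod_mem _ ?_) _)
      (sig_adj E D l)
    intro x hx
    rw [List.mem_ofFn'] at hx
    obtain ⟨i, rfl⟩ := hx
    exact thl_adj hT bs E D hS _ _

end words

end

end Run7.h552.PG
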