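import Pool.Agent.Run7.h552.PG.Conv

/-!
# Tate classes are generated by those on pairs
-/

set_option autoImplicit false
set_option linter.unusedSectionVars false

open CategoryTheory AlgebraicGeometry Finset Function

universe u

namespace Run7.h552.PG

open Pool.Agent Pool.Agent.H914 Pool.Agent.H914.VarClass Pool.Agent.H914.VarClass.Obj
  Pool.Agent.H914.WeilCohomology Pool.Agent.H281R3.HT Pool.Agent.TH125.Gal
  Pool.Agent.Y127.G Run7.h552.PD
open Run7.h552.NP (IsProd Equivariant)
open Run7.h552.MX (MRep Indep)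

noncomputable section

variable {k : Type u} [Field k] {𝒱 : VarClass k} {ops : CycleOps 𝒱}
  {W : WeilCohomology.{u, 0} ops} {Γ : Type} [Group Γ] {ι : Type} {χ : Γ →* W.Kˣ}

/-- a finite set of Tate classes which spans all Tate classes -/
theorem exists_tate_basis (A : GVar W Γ) : ∃ b : Set (W.H A.X), b.Finite ∧
    (∀ x ∈ b, ∃ n, IsTate χ A n x) ∧
      ∀ x n, IsTate χ A n x → x ∈ Submodule.span W.K b := by
  obtain ⟨b, hb, hsp, hli⟩ := exists_linearIndependent W.K {x : W.H A.X | ∃ n, IsTate χ A n x}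
  refine ⟨b, ?_, fun x hx => hb hx, fun x n hx => ?_⟩
  · exact hli.setFinite
  · rw [hsp]
    exact Submodule.subset_span ⟨n, hx⟩

variable {G : Set (GVar W Γ)} {X : ι → GVar W Γ} {P : ∀ i, Gens (X i)} {Z : GVar W Γ}

/-- a finite set of Tate classes which spans all Tate classes -/
def tb (χ : Γ →* W.Kˣ) (A : GVar W Γ) : Set (W.H A.X) := (exists_tate_basis (χ := χ) A).choose

theorem tb_fin (A : GVar W Γ) : (tb χ A).Finite := (exists_tate_basis (χ := χ) A).choose_spec.1

theorem tb_tate (A : GVar W Γ) (l : tb χ A) : ∃ n, IsTate χ A n l.1 :=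
  (exists_tate_basis (χ := χ) A).choose_spec.2.1 l.1 l.2

theorem tb_span (A : GVar W Γ) : ∀ x n, IsTate χ A n x → x ∈ Submodule.span W.K (tb χ A) :=
  (exists_tate_basis (χ := χ) A).choose_spec.2.2

/-- the twist of a piece -/
def tps (h : GenFamily χ G X P Z) (p : Pcs P) :
    (tRep h (Quotient.mk _ p)).V ≃ₗ[W.K] (fRep h p).V :=
  (exists_ph h p).choose

/-- the exponent of the twist of a piece -/
def tz (h : GenFamily χ G X P Z) (p : Pcs P) : ℤ := (exists_ph h p).choose_spec.choose

theorem tz_spec (h : GenFamily χ G X P Z) (p : Pcs P) :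
    2 * tz h p = (tDeg h (Quotient.mk _ p) : ℤ) - ((P p.1).pc p.2).deg :=
  (exists_ph h p).choose_spec.choose_spec.choose_spec.2.1

theorem tps_spec (h : GenFamily χ G X P Z) (p : Pcs P) : ∃ Δ : Subgroup Γ, Δ.FiniteIndex ∧
    ∀ g ∈ Δ, ∀ x, (fRep h p).ρ g (tps h p x) =
        (χ g : W.K) ^ (-tz h p) • tps h p ((tRep h (Quotient.mk _ p)).ρ g x) :=
  ⟨_, (exists_ph h p).choose_spec.choose_spec.choose_spec.1,
    (exists_ph h p).choose_spec.choose_spec.choose_spec.2.2⟩

/-- the map of a piece -/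
def tph (h : GenFamily χ G X P Z) (i : ι) (u : Fin (P i).r) :
    (tRep h (Quotient.mk _ ⟨i, u⟩)).V →ₗ[W.K] W.H (X i).X :=
  ((P i).pc u).sp.subtype ∘ₗ (tps h ⟨i, u⟩).toLinearMap

theorem tph_symm (h : GenFamily χ G X P Z) (i : ι) (u : Fin (P i).r) (x : W.H (X i).X)
    (hx : x ∈ ((P i).pc u).sp) :
    tph h i u ((tps h ⟨i, u⟩).symm (⟨x, hx⟩ : ((P i).pc u).sp)) = x := by
  have h1 := (tps h ⟨i, u⟩).apply_symm_apply (⟨x, hx⟩ : ((P i).pc u).sp)
  exact congrArg (fun y : ((P i).pc u).sp => (y : W.H (X i).X)) h1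

theorem exists_delta (h : GenFamily χ G X P Z) (i : ι) : ∃ Δ : Subgroup Γ, Δ.FiniteIndex ∧
    (∀ g ∈ Δ, ∀ l : tb χ (X i), (X i).act g l.1 = (χ g : W.K) ^ (tb_tate (X i) l).choose • l.1) ∧
      ∀ g ∈ Δ, ∀ u x, (X i).act g (tph h i u x) =
        (χ g : W.K) ^ (-tz h ⟨i, u⟩) • tph h i u ((tRep h (Quotient.mk _ ⟨i, u⟩)).ρ g x) := by
  choose Δs hΔs hact using fun l : tb χ (X i) => (tb_tate (X i) l).choose_spec.2
  choose Δu hΔu hψ using fun u : Fin (P i).r => tps_spec h ⟨i, u⟩
  have hbF : Finite (tb χ (X i)) := tb_fin (X i)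
  have k1 : (⨅ l, Δs l).FiniteIndex := Subgroup.finiteIndex_iInf hΔs
  have k2 : (⨅ u, Δu u).FiniteIndex := Subgroup.finiteIndex_iInf hΔu
  refine ⟨(⨅ l, Δs l) ⊓ ⨅ u, Δu u, inferInstance,
    fun g hg l => hact l g (Subgroup.mem_iInf.1 (Subgroup.mem_inf.1 hg).1 l), ?_⟩
  intro g hg u x
  have h1 := hψ u g (Subgroup.mem_iInf.1 (Subgroup.mem_inf.1 hg).2 u) x
  exact congrArg (fun y : ((P i).pc u).sp => (y : W.H (X i).X)) h1

/-- **The generators.** -/
def dg (h : GenFamily χ G X P Z) (i : ι) : Dg χ (tRep h) (tDeg h) (X i) where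
  Δ := (exists_delta h i).choose
  fin := (exists_delta h i).choose_spec.1
  NC := tb χ (X i)
  s := fun l => l.1
  n := fun l => (tb_tate (X i) l).choose
  r := (P i).r
  ty := fun u => Quotient.mk _ ⟨i, u⟩
  ph := tph h i
  d := fun u => ((P i).pc u).deg
  z := fun u => tz h ⟨i, u⟩
  wd := (P i).words
  s_mem := fun l => (tb_tate (X i) l).choose_spec.1
  s_act := (exists_delta h i).choose_spec.2.1
  hz := fun u => tz_spec h ⟨i, u⟩
  ph_mem := fun u x => ((h.gen i).piece u).le (Subtype.property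
    (p := fun x => x ∈ ((P i).pc u).sp) (tps h ⟨i, u⟩ x))
  ph_act := (exists_delta h i).choose_spec.2.2
  span := by
    intro x
    have h1 : x ∈ (⊤ : Submodule W.K (W.H (X i).X)) := Submodule.mem_top
    rw [← (h.gen i).span] at h1
    induction h1 using Submodule.span_induction with
    | mem y hy =>
      obtain ⟨s, ⟨m, hs⟩, w, hw, x, hx, rfl⟩ := hy
      have h2 := tb_span (X i) s m hs
      clear hs
      let w' : List (Σ u : Fin (P i).r, (tRep h (Quotient.mk _ ⟨i, u⟩)).V) :=
        List.ofFn fun j : Fin w.length => ⟨w.get j, (tps h ⟨i, w.get j⟩).symm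
          (⟨x j, hx j⟩ : ((P i).pc (w.get j)).sp)⟩
      have h3 : w'.map Sigma.fst = w := by
        change List.map _ (List.ofFn _) = w
        rw [List.map_ofFn]
        exact List.ofFn_get w
      have h4 : (w'.map fun v => tph h i v.1 v.2).prod = (List.ofFn x).prod := by
        change (List.map _ (List.ofFn _)).prod = _
        rw [List.map_ofFn]
        congr 2
        funext j
        exact tph_symm h i (w.get j) (x j) (hx j)
      induction h2 using Submodule.span_induction with
      | mem y hy =>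
        refine Submodule.subset_span ⟨⟨y, hy⟩, w', ?_, ?_⟩
        · rw [h3]
          exact hw
        · rw [h4]
      | zero => rw [zero_mul]; exact Submodule.zero_mem _
      | add a b _ _ ha hb => rw [add_mul]; exact Submodule.add_mem _ ha hb
      | smul r a _ ha => rw [smul_mul_assoc]; exact Submodule.smul_mem _ _ ha
    | zero => exact Submodule.zero_mem _
    | add a b _ _ ha hb => exact Submodule.add_mem _ ha hb
    | smul r a _ ha => exact Submodule.smul_mem _ _ ha

/-- the letters of a list with a property -/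
theorem card_get {α : Type} (p : α → Prop) [DecidablePred p] (w : List α) :
    (Finset.univ.filter fun r : Fin w.length => p (w.get r)).card = w.countP p := by
  induction w with
  | nil => rfl
  | cons a w ih =>
    rw [List.countP_cons, ← ih]
    have h1 := Fin.card_filter_univ_succ (fun r : Fin (w.length + 1) => p ((a :: w).get r))
    refine h1.trans ?_
    by_cases ha : p a
    · have h2 : p ((a :: w).get 0) := ha
      rw [if_pos h2]
      simp only [ha, decide_true, if_true]
      rfl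
    · have h2 : ¬p ((a :: w).get 0) := ha
      rw [if_neg h2]
      simp only [ha, decide_false]
      rfl

/-- **Few letters.** -/
theorem al_of (h : GenFamily χ G X P Z) {m : ℕ} {L : Fin m → ι} (hL : Few P L)
    (w : ∀ a, List (Fin ((dg h (L a)).r))) (hw : ∀ a, w a ∈ (dg h (L a)).wd) :
    Al (tM h) (dg h) (List.ofFn fun a => (w a).map fun u => (⟨a, u⟩ : Lt (dg h) L)).flatten := by
  classical
  intro t ht s hs
  have h1 := hL (rp h t).1 (rp h t).2 ((tM_isO h t).1 ht) w hw
  rw [tRep_dim]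
  refine lt_of_le_of_lt ?_ h1
  have h2 : s.card ≤ (Finset.univ.filter fun r : Fin (List.ofFn fun a => (w a).map fun u =>
      (⟨a, u⟩ : Lt (dg h) L)).flatten.length => tl (dg h) ((List.ofFn fun a => (w a).map fun u =>
        (⟨a, u⟩ : Lt (dg h) L)).flatten.get r) = t).card :=
    Finset.card_le_card fun r hr => Finset.mem_filter.2 ⟨Finset.mem_univ _, hs r hr⟩
  refine h2.trans (le_of_eq ?_)
  rw [card_get (fun v => tl (dg h) v = t), List.countP_flatten, List.map_ofFn, List.sum_ofFn]
  have h3 : ∀ a, ((List.countP fun v => decide (tl (dg h) v = t)) ∘ fun a => (w a).map fun u =>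
      (⟨a, u⟩ : Lt (dg h) L)) a = (Finset.univ.filter fun r : Fin (w a).length =>
        Linked ((P (rp h t).1).pc (rp h t).2) ((P (L a)).pc ((w a).get r))).card := by
    intro a
    rw [Function.comp_apply, List.countP_map]
    have h4 := card_get (fun u : Fin (P (L a)).r =>
      Linked ((P (rp h t).1).pc (rp h t).2) ((P (L a)).pc u)) (w a)
    refine Eq.trans ?_ h4.symm
    refine List.countP_congr fun u _ => ?_
    rw [Function.comp_apply, decide_eq_true_iff, decide_eq_true_iff,
      linked_iff h (rp h t) ⟨L a, u⟩]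
    change (Quotient.mk (lkSetoid h) ⟨L a, u⟩ = t) ↔ _
    constructor
    · rintro rfl
      exact rp_rel h _
    · intro h5
      have h6 : Quotient.mk (lkSetoid h) (rp h t) = Quotient.mk (lkSetoid h) ⟨L a, u⟩ :=
        Quotient.sound h5
      rw [← h6]
      exact Quotient.out_eq t
  rw [Finset.sum_congr rfl fun a _ => h3 a]
  refine Finset.sum_congr rfl fun a _ => ?_
  refine Eq.symm (Eq.trans (b := Nat.card {i : Fin (w a).length //
    Linked ((P (rp h t).1).pc (rp h t).2) ((P (L a)).pc ((w a).get i))}) rfl ?_)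
  rw [Nat.card_eq_fintype_card, Fintype.card_subtype]

theorem trAct_of {A : GVar W Γ} (hA : NP.GaloisVar χ A) : TrAct χ A := fun g a => hA.tr_act g a

variable [IsAlgClosed W.K]

/-- **Tate classes are polynomials in Tate classes on pairs.** -/
theorem mem_fromPairs (e : W.K ≃+* ℂ) (h : GenFamily χ G X P Z) {m : ℕ} {L : Fin m → ι}
    {Y : GVar W Γ} (hY : Tow X Z L Y) (hL : Few P L) {j : ℕ} {c : W.H Y.X}
    (hc : IsTate χ Y j c) : c ∈ Algebra.adjoin W.K (FromPairs χ P Z L Y) := by
  have h1 := mem_adjoin (tM h) (dg h) e (ctx h) (fun i => trAct_of (h.good _ (h.mem i)).1)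
    (trAct_of (h.good _ h.mem_base).1) (R := LinkedVar P)
    (by
      intro a b u u' hu
      have h2 : (lkSetoid h).r ⟨a, u⟩ ⟨b, u'⟩ := Quotient.exact hu
      exact ⟨u, u', (linked_iff h ⟨a, u⟩ ⟨b, u'⟩).2 h2⟩)
    (fun a b _ => by
      obtain ⟨V, -, hV⟩ := (h.good _ (h.mem a)).2 _ (h.mem b)
      exact ⟨V, hV⟩) hY (al_of h hL) hc
  exact h1

end

end Run7.h552.PG
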