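import Pool.Agent.Run7.h552.PG.Wd
import Pool.Agent.Run7.h552.PD.Pat

/-!
# Push-forwards of Tate classes are invariants
-/

set_option autoImplicit false
set_option linter.unusedSectionVars false

open CategoryTheory AlgebraicGeometry Finset Function

universe u

namespace Run7.h552.PG

open Pool.Agent Pool.Agent.H914 Pool.Agent.H914.VarClass Pool.Agent.H914.VarClass.Obj
  Pool.Agent.H914.WeilCohomology Pool.Agent.H281R3.HT Pool.Agent.TH125.Gal
  Pool.Agent.Y127.G Run7.h552.PD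
open Run7.h552.NP (IsProd Equivariant)
open Run7.h552.MX (MRep Indep)

noncomputable section

/-- **Sums of monomials over pairings.** -/
theorem sum_words {K : Type} [Field K] {A : Type} [Ring A] [Algebra K A] {JT : Type} {N : ℕ}
    [Fintype JT] [DecidableEq JT] {E : Fin N → JT → A} (Dg : Fin N → ℕ)
    (hE : ∀ (r : Fin N → JT) p q, p ≠ q → E p (r p) * E q (r q) =
      (-1 : K) ^ (Dg p * Dg q) • (E q (r q) * E p (r p)))
    {m : ℕ} (e : Fin m × Fin 2 ≃ Fin N) (Q : JT → JT → K) :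
    ∃ ε : ℤ, ∑ r : Fin N → JT, (∏ l, Q (r (e (l, 0))) (r (e (l, 1)))) •
        (List.ofFn fun p => E p (r p)).prod =
      (ε : K) • (List.ofFn fun l : Fin m => ∑ a : Fin 2 → JT, Q (a 0) (a 1) •
        (E (e (l, 0)) (a 0) * E (e (l, 1)) (a 1))).prod := by
  let c : Fin N → Option Empty := fun _ => none
  let i : Free c ≃ Fin N := Equiv.subtypeUnivEquiv fun _ => rfl
  have hi : ∀ p, i.symm p = ⟨p, rfl⟩ := fun p => rfl
  have hc : ∀ (r : Free c → JT) (p : Fin N), comb c r p = Sum.inr (r ⟨p, rfl⟩) := fun r p =>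
    comb_none r ⟨p, rfl⟩
  obtain ⟨ε, h⟩ := sum_pattern' (K := K) (A := A) (JC := Empty) (JT := JT)
    (E := fun p x => x.elim (fun _ => 0) (E p)) (c := c) Dg (by
      intro r p q hpq
      rw [hc, hc]
      exact hE (fun p => r ⟨p, rfl⟩) p q hpq) (e.trans i.symm) Q
  refine ⟨ε, ?_⟩
  have h1 : ∑ r : Fin N → JT, (∏ l, Q (r (e (l, 0))) (r (e (l, 1)))) •
        (List.ofFn fun p => E p (r p)).prod =
      ∑ r : Free c → JT, (∏ l, Q (r ((e.trans i.symm) (l, 0))) (r ((e.trans i.symm) (l, 1)))) •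
        (List.ofFn fun p => (comb c r p).elim (fun _ => 0) (E p)).prod := by
    refine Fintype.sum_equiv (Equiv.arrowCongr i.symm (Equiv.refl JT)) _ _ fun r => ?_
    congr 2
  have h2 : fixList c = [] := by
    rw [List.eq_nil_iff_forall_not_mem]
    intro p hp
    rw [mem_fixList] at hp
    exact hp rfl
  rw [h1, h, h2, List.map_nil, List.prod_nil, mul_one]
  rfl

variable {k : Type u} [Field k] {𝒱 : VarClass k} {ops : CycleOps 𝒱}
  {W : WeilCohomology.{u, 0} ops} {Γ : Type} [Group Γ] {ι τ : Type}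
  {χ : Γ →* W.Kˣ}

/-- The group multiplies the trace by a power of the character. -/
def TrAct (χ : Γ →* W.Kˣ) (V : GVar W Γ) : Prop :=
  ∀ g a, W.tr V.X (V.act g a) = (χ g : W.K) ^ V.X.dim * W.tr V.X a

/-- push-forward and the action -/
theorem push_act {V Z : GVar W Γ} {q : V.X ⟶ Z.X} (hq : Equivariant (A := V) (B := Z) q)
    (hV : TrAct χ V) (hZ : TrAct χ Z) (g : Γ) (y : W.H V.X) :
    W.push q (V.act g y) =
      ((χ g : W.K) ^ ((V.X.dim : ℤ) - Z.X.dim)) • Z.act g (W.push q y) := by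
  have hχ : (χ g : W.K) ≠ 0 := Units.ne_zero (χ g)
  have h0 : ∀ b, W.tr Z.X (W.push q (V.act g y) * b) =
      W.tr Z.X ((((χ g : W.K) ^ ((V.X.dim : ℤ) - Z.X.dim)) • Z.act g (W.push q y)) * b) := by
    intro b
    obtain ⟨b, rfl⟩ := (Z.act g).surjective b
    have h1 : V.act g (W.map q b) = W.map q (Z.act g b) := hq g b
    rw [W.tr_push, ← h1, ← map_mul, hV, smul_mul_assoc, ← map_mul, map_smul, hZ, ← W.tr_push,
      smul_eq_mul, zpow_sub₀ hχ, zpow_natCast, zpow_natCast, ← mul_assoc,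
      div_mul_cancel₀ _ (pow_ne_zero _ hχ)]
  rw [← sub_eq_zero]
  refine W.nondeg _ fun b => ?_
  rw [sub_mul, map_sub, h0, sub_self]

/-- the projection formula -/
theorem push_mul {V Z : 𝒱.Obj} (q : V ⟶ Z) (y : W.H V) (w : W.H Z) :
    W.push q (y * W.map q w) = W.push q y * w := by
  rw [← sub_eq_zero]
  refine W.nondeg _ fun b => ?_
  rw [sub_mul, map_sub, W.tr_push, mul_assoc (W.push q y), W.tr_push, map_mul (W.map q),
    ← mul_assoc, sub_self]

/-- the action and the trace on products -/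
theorem trAct_prod {A B C : GVar W Γ} (h : IsProd A B C) (hA : TrAct χ A) (hB : TrAct χ B) :
    TrAct χ C := by
  obtain ⟨C, υ⟩ := C
  obtain ⟨h, h1, h2⟩ := h
  change C = _ at h
  subst h
  rw [eqToHom_refl, Category.id_comp] at h1 h2
  intro g a
  refine W.kunneth_induction (p := fun a => W.tr (A.X.prod B.X) (υ g a) =
    (χ g : W.K) ^ (A.X.dim + B.X.dim) * W.tr (A.X.prod B.X) a) ?_ ?_ a
  · intro a b ha hb
    rw [map_add, map_add, map_add, ha, hb, mul_add]
  · intro i j a _ b _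
    have k1 : υ g (W.map (fst A.X B.X) a) = W.map (fst A.X B.X) (A.act g a) := h1 g a
    have k2 : υ g (W.map (snd A.X B.X) b) = W.map (snd A.X B.X) (B.act g b) := h2 g b
    rw [map_mul, k1, k2, W.tr_prod, W.tr_prod, hA, hB, pow_add]
    ring

theorem trAct_tow {X : ι → GVar W Γ} {Z : GVar W Γ} {m : ℕ} {L : Fin m → ι} {Y : GVar W Γ}
    (hY : Tow X Z L Y) (hX : ∀ i, TrAct χ (X i)) (hZ : TrAct χ Z) : TrAct χ Y := by
  induction hY with
  | base L => exact hZ
  | step _ hP ih => exact trAct_prod hP (hX _) ih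

variable {T : τ → FRep W.K Γ} {dT : τ → ℕ} (hT : ∀ t, MRep (T t))
  (bs : ∀ t, Module.Basis (Fin (Module.finrank W.K (T t).V)) W.K (T t).V) {S : Finset τ}
  {X : ι → GVar W Γ} {Z : GVar W Γ} (E : ∀ i, Dg χ T dT (X i))

section words

variable {m : ℕ} {L : Fin m → ι} {Y : GVar W Γ} (D : TD X Z L Y)
  (hS : ∀ v : Lt E L, tl E v ∈ S)

/-- the form of a class -/
def hC (w : List (Lt E L)) (σ c : W.H Y.X) :
    MultilinearMap W.K (fun r : Fin w.length => (T (tl E (w.get r))).V) (W.H Z.X) :=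
  (W.push D.q ∘ₗ LinearMap.mulRight W.K (σ * c)).compMultilinearMap (Phi E D w)

theorem hC_apply (w : List (Lt E L)) (σ c : W.H Y.X)
    (x : ∀ r : Fin w.length, (T (tl E (w.get r))).V) :
    hC E D w σ c x = W.push D.q (Phi E D w x * (σ * c)) := rfl

theorem hC_eqv (hY : TrAct χ Y) (hZ : TrAct χ Z) (w : List (Lt E L)) {σ c : W.H Y.X} {n j : ℕ}
    (hσ : IsTate χ Y n σ) (hc : IsTate χ Y j c) :
    EqvM T (χ ^ ((w.map (zl E)).sum - n - j + ((Y.X.dim : ℤ) - Z.X.dim))) Z.act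
      (fun r : Fin w.length => tl E (w.get r)) (hC E D w σ c) := by
  obtain ⟨-, Δ, hΔ, h1⟩ := hσ.out
  obtain ⟨-, Δ', hΔ', h2⟩ := hc.out
  have h3 : (⨅ a, (E (L a)).Δ).FiniteIndex := Subgroup.finiteIndex_iInf fun a => (E (L a)).fin
  refine ⟨Δ ⊓ Δ' ⊓ ⨅ a, (E (L a)).Δ, inferInstance, fun g hg x => ?_⟩
  obtain ⟨hg12, hg3⟩ := Subgroup.mem_inf.1 hg
  obtain ⟨hg1, hg2⟩ := Subgroup.mem_inf.1 hg12
  have hχ : (χ g : W.K) ≠ 0 := Units.ne_zero (χ g)
  have h4 := Phi_act E D (fun a => Subgroup.mem_iInf.1 hg3 a) w x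
  have h5 : Y.act g (Phi E D w x * (σ * c)) =
      ((χ g : W.K) ^ n * (χ g : W.K) ^ j) • (Y.act g (Phi E D w x) * (σ * c)) := by
    rw [map_mul, map_mul, h1 g hg1, h2 g hg2, smul_mul_assoc, mul_smul_comm, mul_smul_comm,
      mul_smul_comm, smul_smul]
  have h6 : Y.act g (Phi E D w x) * (σ * c) =
      ((χ g : W.K) ^ n * (χ g : W.K) ^ j)⁻¹ • Y.act g (Phi E D w x * (σ * c)) := by
    rw [h5, smul_smul, inv_mul_cancel₀ (mul_ne_zero (pow_ne_zero _ hχ) (pow_ne_zero _ hχ)),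
      one_smul]
  rw [hC_apply, hC_apply, h4, smul_mul_assoc, h6, map_smul, map_smul,
    push_act D.hq hY hZ, smul_smul, smul_smul]
  congr 1
  generalize ((Y.X.dim : ℤ) - Z.X.dim) = d
  rw [MonoidHom.zpow_apply, Units.val_zpow_eq_zpow_val, zpow_add₀ hχ, zpow_sub₀ hχ, zpow_sub₀ hχ,
    zpow_natCast, zpow_natCast, mul_inv, div_eq_mul_inv, div_eq_mul_inv]
  ring

/-- the types -/
def sL (w : List (Lt E L)) (r : Fin w.length) : S := ⟨tl E (w.get r), hS (w.get r)⟩

/-- the function of a class -/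
def fC (w : List (Lt E L)) (σ c : W.H Y.X) : (Fin w.length → Bx T S) → W.H Z.X :=
  fg bs S (sL E hS w) (hC E D w σ c)

/-- the basis vectors -/
def vJ (w : List (Lt E L)) (J : Fin w.length → Bx T S) (r : Fin w.length) :
    (T (tl E (w.get r))).V :=
  vg bs S (J r) (sL E hS w r)

theorem fC_apply (w : List (Lt E L)) (σ c : W.H Y.X) (J : Fin w.length → Bx T S) :
    fC bs E D hS w σ c J = W.push D.q (Phi E D w (vJ bs E hS w J) * (σ * c)) := rfl

/-- Few letters of orthogonal types. -/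
def Al (w : List (Lt E L)) : Prop :=
  ∀ t, (hT t).IsO → ∀ s : Finset (Fin w.length), (∀ r ∈ s, tl E (w.get r) = t) →
    s.card < Module.finrank W.K (T t).V

variable [IsAlgClosed W.K]

/-- **Tate classes define invariants.** -/
theorem fC_mem [DecidableEq τ] (e : W.K ≃+* ℂ) (C : Ctx (dT := dT) χ hT Z) (hY : TrAct χ Y)
    (hZ : TrAct χ Z) {w : List (Lt E L)} (hw : Al hT E w) {σ c : W.H Y.X} {n j : ℕ}
    (hσ : IsTate χ Y n σ) (hc : IsTate χ Y j c) :
    fC bs E D hS w σ c ∈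
      Pool.Agent.TH125.Nod.Gen (fun b : Bx T S => b.1) (Qg hT bs S) (sL E hS w) := by
  classical
  refine gen_of_killg hT bs S (sL E hS w) (hC E D w σ c) ?_ ?_
  · intro i hi x y
    obtain ⟨m', M, hM, hgen⟩ := C.base i
    obtain ⟨D', k1, k2, k3⟩ := kill_mixed e hgen hT C.ind i hM
      (χ ^ ((w.map (zl E)).sum - n - j + ((Y.X.dim : ℤ) - Z.X.dim))) S x y
    exact ⟨D', k1, k2, fun v => k3 _ (hC_eqv E D hY hZ w hσ hc) v⟩
  · intro i hi
    exact hw i.1 hi _ fun r hr => congrArg Subtype.val (Finset.mem_filter.1 hr).2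

/-- linear maps preserve invariants -/
theorem gen_comp {B ι' R M N : Type} [AddCommGroup M] [Module W.K M] [AddCommGroup N]
    [Module W.K N] {κ : B → ι'} {Q : Matrix B B W.K} {s : R → ι'} (φ : M →ₗ[W.K] N)
    {f : (R → B) → M} (hf : f ∈ Pool.Agent.TH125.Nod.Gen κ Q s) :
    (fun J => φ (f J)) ∈ Pool.Agent.TH125.Nod.Gen κ Q s := by
  unfold Pool.Agent.TH125.Nod.Gen at hf
  induction hf using Submodule.span_induction with
  | mem f hf =>
    obtain ⟨m, e, w, rfl⟩ := hf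
    refine Submodule.subset_span ⟨m, e, φ w, ?_⟩
    funext J
    unfold Pool.Agent.TH125.Nod.gen
    split
    · rw [map_smul]
    · rw [map_zero]
  | zero =>
    have h1 : (fun J : R → B => φ ((0 : (R → B) → M) J)) = 0 := by
      funext J
      exact map_zero φ
    rw [h1]
    exact Submodule.zero_mem _
  | add a b _ _ ha hb =>
    have h1 : (fun J : R → B => φ ((a + b) J)) = (fun J => φ (a J)) + fun J => φ (b J) := by
      funext J
      exact map_add φ _ _
    rw [h1]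
    exact Submodule.add_mem _ ha hb
  | smul r a _ ha =>
    have h1 : (fun J : R → B => φ ((r • a) J)) = r • fun J => φ (a J) := by
      funext J
      exact map_smul φ _ _
    rw [h1]
    exact Submodule.smul_mem _ _ ha

/-- **Multiples of Tate classes define invariants.** -/
theorem fC_mul [DecidableEq τ] (e : W.K ≃+* ℂ) (C : Ctx (dT := dT) χ hT Z) (hY : TrAct χ Y)
    (hZ : TrAct χ Z) {w : List (Lt E L)} (hw : Al hT E w) {σ M : W.H Y.X} {n j : ℕ}
    (hσ : IsTate χ Y n σ) (hM : IsTate χ Y j M) (w0 : W.H Z.X) :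
    fC bs E D hS w σ (M * W.map D.q w0) ∈
      Pool.Agent.TH125.Nod.Gen (fun b : Bx T S => b.1) (Qg hT bs S) (sL E hS w) := by
  have h1 := gen_comp (LinearMap.mulRight W.K w0) (fC_mem hT bs E D hS e C hY hZ hw hσ hM)
  have h2 : fC bs E D hS w σ (M * W.map D.q w0) =
      fun J => LinearMap.mulRight W.K w0 (fC bs E D hS w σ M J) := by
    funext J
    rw [fC_apply, fC_apply, LinearMap.mulRight_apply, ← mul_assoc σ, ← mul_assoc]
    exact push_mul _ _ _
  rw [h2]
  exact h1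

end words

end

end Run7.h552.PG
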