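import Pool.Agent.Run7.h552.PD.TDefs

/-!
# The Tate conjecture over a given field
-/

set_option autoImplicit false

open CategoryTheory AlgebraicGeometry

universe u

namespace Run7.h552.PG

open Pool.Agent.H914 Pool.Agent.H914.VarClass Pool.Agent.H914.VarClass.Obj
  Pool.Agent.H914.WeilCohomology Pool.Agent.TH125.Gal Run7.h552.NP Run7.h552.PD

/-- All elements `c` of `gr (2 * j)` such that `g c = χ g ^ j • c` for all `g ∈ Δ` are linear
combinations of elements of `S j` with the same property, for all `j`. -/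
def TateOverAct {K A Γ : Type} [Field K] [Ring A] [Algebra K A] [Group Γ] (χ : Γ →* Kˣ)
    (Δ : Subgroup Γ) (gr : ℕ → Submodule K A) (S : ℕ → Set A) (ρ : Act K A Γ) : Prop :=
  ∀ j, ∀ c ∈ gr (2 * j), (∀ g ∈ Δ, ap ρ g c = (χ g : K) ^ j • c) →
    c ∈ Submodule.span K {a | a ∈ S j ∧ ∀ g ∈ Δ, ap ρ g a = (χ g : K) ^ j • a}

variable {k : Type u} [Field k] {𝒱 : VarClass k} {ops : CycleOps 𝒱}
  {W : WeilCohomology.{u, 0} ops} {Γ : Type} [Group Γ]

/-- Let `Δ` be the Galois group of the field `F`. This is the statement `T^j(Y)` over `F` for all `j`: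
every class in `H^(2j)(Y)` which is multiplied by `χ g ^ j` by all `g ∈ Δ` is a linear combination of
classes of algebraic cycles of codimension `j` with the same property. -/
def TateOver (χ : CharOf W Γ) (Δ : Subgroup Γ) (Y : GVar W Γ) : Prop :=
  TateOverAct χ Δ (W.gr Y.X) (algClasses W Y.X) Y.act

/-- `TateOver` for all subgroups of finite index. -/
def TateOverAll (χ : CharOf W Γ) (Y : GVar W Γ) : Prop :=
  ∀ Δ : Subgroup Γ, Δ.FiniteIndex → TateOver χ Δ Y

/-- All Tate classes on `Y` are polynomials in the classes in `FromPairs`. -/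
def GeneratedByPairs (χ : CharOf W Γ) {ι : Type} {X : ι → GVar W Γ} (P : ∀ i, Gens (X i))
    (Z : GVar W Γ) {m : ℕ} (L : Fin m → ι) (Y : GVar W Γ) : Prop :=
  ∀ n x, IsTate χ Y n x → x ∈ Algebra.adjoin W.K (FromPairs χ P Z L Y)

/-- `Z` and the factors `X_(L a)` have zero-cycles of degree different from zero. -/
def HavePoints {ι : Type} (X : ι → GVar W Γ) (Z : GVar W Γ) {m : ℕ} (L : Fin m → ι) : Prop :=
  (∀ a, HasPoint (X (L a))) ∧ HasPoint Z

/-- All Tate classes on `Y` are polynomials in those on `Z`, on the factors and on the products of two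
linked factors; if the latter are algebraic then the Tate conjecture holds for `Y` over all finite
extensions, and conversely if `Z` and the factors have zero-cycles of degree different from zero. -/
def DecidedByPairs (χ : CharOf W Γ) {ι : Type} {X : ι → GVar W Γ} (P : ∀ i, Gens (X i))
    (Z : GVar W Γ) {m : ℕ} (L : Fin m → ι) (Y : GVar W Γ) : Prop :=
  GeneratedByPairs χ P Z L Y ∧ (PairsTate χ P Z L → TateOverAll χ Y) ∧
    (HavePoints X Z L → TateOverAll χ Y → PairsTate χ P Z L)

end Run7.h552.PG
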