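import Pool.Agent.Run7.h552.PG.Cv
import Pool.Agent.Run7.h552.PG.TODefs
import Pool.Agent.Y127.NTower

/-!
# The Tate conjecture over all finite extensions
-/

set_option autoImplicit false
set_option linter.unusedSectionVars false

open CategoryTheory AlgebraicGeometry Finset Function

universe u

namespace Run7.h552.PG

open Pool.Agent Pool.Agent.H914 Pool.Agent.H914.VarClass Pool.Agent.H914.VarClass.Obj
  Pool.Agent.H914.WeilCohomology Pool.Agent.H281R3.HT Run7.h552.PD
open Pool.Agent.TH125.Gal hiding Equivariant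
open Run7.h552.NP (IsProd Equivariant)

noncomputable section

variable {k : Type u} [Field k] {𝒱 : VarClass k} {ops : CycleOps 𝒱}
  {W : WeilCohomology.{u, 0} ops} {Γ : Type} [Group Γ] {ι : Type} {χ : Γ →* W.Kˣ}

/-- cycles over the field itself -/
theorem over_of_tate {Y : GVar W Γ} (hG : NP.GaloisVar χ Y) (h : TateConjecture χ Y)
    {Δ : Subgroup Γ} (hΔ : Δ.FiniteIndex) : TateOver χ Δ Y :=
  Y127.tateOver_of_tc (show Y127.GaloisType χ Y from hG)
    fun j c hcj hc => h j c hcj ⟨Δ, hΔ, hc⟩

theorem tate_of_over {Y : GVar W Γ} (h : TateOverAll χ Y) : TateConjecture χ Y := by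
  rintro j c hcj ⟨Δ, hΔ, hc⟩
  exact Submodule.span_mono (fun _ ha => ha.1) (h Δ hΔ j c hcj hc)

end

end Run7.h552.PG
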