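import Pool.Agent.Run7.h552.PG.Dg

/-!
# Words in the generators of the cohomology of a tower
-/

set_option autoImplicit false
set_option linter.unusedSectionVars false

open CategoryTheory AlgebraicGeometry Finset Function

universe u

namespace Run7.h552.PG

open Pool.Agent Pool.Agent.H914 Pool.Agent.H914.VarClass Pool.Agent.H914.VarClass.Obj
  Pool.Agent.H914.WeilCohomology Pool.Agent.H281R3.HT Pool.Agent.TH125.Gal
  Pool.Agent.Y127.G Run7.h552.PD
open Run7.h552.NP (IsProd Equivariant)
open Run7.h552.MX (MRep)

noncomputable section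

variable {k : Type u} [Field k] {𝒱 : VarClass k} {ops : CycleOps 𝒱}
  {W : WeilCohomology.{u, 0} ops} {Γ : Type} [Group Γ] {ι τ : Type}

/-- elements of even degree are central -/
theorem even_comm {X : 𝒱.Obj} {n : ℕ} {a : W.H X} (ha : a ∈ W.gr X (2 * n)) (b : W.H X) :
    a * b = b * a := by
  refine gr_induction (W.isInternal X) (p := fun b => a * b = b * a) ?_ ?_ b
  · intro i b hb
    rw [W.comm ha hb, show 2 * n * i = 2 * (n * i) by ring, pow_mul, neg_one_sq, one_pow, one_smul]
  · intro b b' h h'
    rw [mul_add, add_mul, h, h']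

/-- the trace is cyclic up to a sign -/
theorem tr_swap {X : 𝒱.Obj} {i : ℕ} {a : W.H X} (ha : a ∈ W.gr X i) (b : W.H X) :
    W.tr X (a * b) = (-1 : W.K) ^ i * W.tr X (b * a) := by
  refine gr_induction (W.isInternal X) (p := fun b => W.tr X (a * b) =
    (-1 : W.K) ^ i * W.tr X (b * a)) ?_ ?_ b
  · intro j b hb
    by_cases h : i + j = 2 * X.dim
    · rw [W.comm ha hb, map_smul, smul_eq_mul]
      congr 1
      have h1 : (-1 : W.K) ^ (i * j) * (-1) ^ i = 1 := by
        rw [← pow_add, show i * j + i = i * (j + 1) by ring]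
        have h2 : Even (i * (j + 1)) := by
          rw [Nat.even_mul]
          by_cases h3 : Even i
          · exact Or.inl h3
          · right
            have h4 : Even (i + j) := ⟨X.dim, by rw [h]; ring⟩
            rw [Nat.even_add] at h4
            rw [Nat.even_add_one]
            exact fun h5 => h3 (h4.2 h5)
        exact h2.neg_one_pow
      have h2 : (-1 : W.K) ^ i * (-1) ^ i = 1 := by
        rw [← pow_add, ← two_mul, pow_mul, neg_one_sq, one_pow]
      calc (-1 : W.K) ^ (i * j) = (-1 : W.K) ^ (i * j) * ((-1) ^ i * (-1) ^ i) := by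
            rw [h2, mul_one]
        _ = (-1 : W.K) ^ i := by rw [← mul_assoc, h1, one_mul]
    · rw [W.tr_eq_zero (W.mul_mem ha hb) h, W.tr_eq_zero (W.mul_mem hb ha) (by omega), mul_zero]
  · intro b b' h h'
    rw [mul_add, add_mul, map_add, map_add, h, h', mul_add]

section mon

variable {Y : 𝒱.Obj}

theorem mon_mulLeft {m : ℕ} {B : Fin (m + 1) → 𝒱.Obj} (p : ∀ a, Y ⟶ B a) (y : W.H (B 0))
    {z : W.H Y} (hz : z ∈ Submodule.span W.K (Set.range fun x : ∀ a : Fin m, W.H (B a.succ) =>
      mon (fun a : Fin m => p a.succ) x)) :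
    W.map (p 0) y * z ∈ Submodule.span W.K (Set.range fun x => mon p x) := by
  induction hz using Submodule.span_induction with
  | mem z hz =>
    obtain ⟨x, rfl⟩ := hz
    refine Submodule.subset_span ⟨Fin.cases (motive := fun a => W.H (B a)) y x, ?_⟩
    beta_reduce
    rw [mon_succ]
    rfl
  | zero => rw [mul_zero]; exact Submodule.zero_mem _
  | add a b _ _ ha hb => rw [mul_add]; exact Submodule.add_mem _ ha hb
  | smul r a _ ha => rw [mul_smul_comm]; exact Submodule.smul_mem _ _ ha

/-- multiplication of a monomial by a class of one factor -/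
theorem mul_mon {m : ℕ} : ∀ {B : Fin m → 𝒱.Obj} (p : ∀ a, Y ⟶ B a) (a : Fin m) (x : W.H (B a))
    (y : ∀ a, W.H (B a)),
    W.map (p a) x * mon p y ∈ Submodule.span W.K (Set.range fun x => mon p x) := by
  induction m with
  | zero => intro B p a; exact a.elim0
  | succ m ih =>
    intro B p a x y
    rw [mon_succ]
    induction a using Fin.cases with
    | zero =>
      rw [← mul_assoc, ← map_mul]
      exact mon_mulLeft p _ (Submodule.subset_span ⟨_, rfl⟩)
    | succ b =>
      have h1 := ih (fun a => p a.succ) b x (fun a => y a.succ)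
      refine gr_induction (W.isInternal (B b.succ)) (p := fun x =>
        (W.map (p b.succ) x * mon (fun a => p a.succ) (fun a => y a.succ) ∈ Submodule.span W.K
          (Set.range fun x : ∀ a : Fin m, W.H (B a.succ) => mon (fun a : Fin m => p a.succ) x)) →
        W.map (p b.succ) x * (W.map (p 0) (y 0) * mon (fun a => p a.succ) (fun a => y a.succ)) ∈
          Submodule.span W.K (Set.range fun x => mon p x)) ?_ ?_ x h1
      · intro i x hx h2
        refine gr_induction (W.isInternal (B 0)) (p := fun y0 => W.map (p b.succ) x *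
          (W.map (p 0) y0 * mon (fun a => p a.succ) (fun a => y a.succ)) ∈
          Submodule.span W.K (Set.range fun x => mon p x)) ?_ ?_ (y 0)
        · intro j y0 hy0
          rw [← mul_assoc, W.comm (W.map_mem _ hx) (W.map_mem _ hy0), smul_mul_assoc, mul_assoc]
          exact Submodule.smul_mem _ _ (mon_mulLeft p _ h2)
        · intro u v hu hv
          rw [map_add, add_mul, mul_add]
          exact Submodule.add_mem _ hu hv
      · intro u v hu hv _
        rw [map_add, add_mul]
        exact Submodule.add_mem _ (hu (ih (fun a => p a.succ) b u fun a => y a.succ))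
          (hv (ih (fun a => p a.succ) b v fun a => y a.succ))

/-- the subalgebra generated by the classes of the factors -/
theorem adj_le {m : ℕ} {B : Fin m → 𝒱.Obj} (p : ∀ a, Y ⟶ B a) {x : W.H Y}
    (hx : x ∈ Algebra.adjoin W.K (⋃ a, Set.range (W.map (p a)))) :
    x ∈ Submodule.span W.K (Set.range fun x => mon p x) := by
  have key : ∀ x ∈ Algebra.adjoin W.K (⋃ a, Set.range (W.map (p a))),
      ∀ z ∈ Submodule.span W.K (Set.range fun x => mon p x),
        x * z ∈ Submodule.span W.K (Set.range fun x => mon p x) := by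
    intro x hx
    induction hx using Algebra.adjoin_induction with
    | mem x hx =>
      obtain ⟨a, y, rfl⟩ := Set.mem_iUnion.1 hx
      intro z hz
      induction hz using Submodule.span_induction with
      | mem z hz =>
        obtain ⟨z, rfl⟩ := hz
        exact mul_mon p a y z
      | zero => rw [mul_zero]; exact Submodule.zero_mem _
      | add a b _ _ ha hb => rw [mul_add]; exact Submodule.add_mem _ ha hb
      | smul r a _ ha => rw [mul_smul_comm]; exact Submodule.smul_mem _ _ ha
    | algebraMap r =>
      intro z hz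
      rw [← Algebra.smul_def]
      exact Submodule.smul_mem _ _ hz
    | add x y _ _ hx hy =>
      intro z hz
      rw [add_mul]
      exact Submodule.add_mem _ (hx z hz) (hy z hz)
    | mul x y _ _ hx hy =>
      intro z hz
      rw [mul_assoc]
      exact hx _ (hy z hz)
  have h1 := key x hx 1 (Submodule.subset_span ⟨fun _ => 1, by
    change mon p (fun a => (1 : W.H (B a))) = 1
    unfold mon
    refine List.prod_eq_one fun y hy => ?_
    rw [List.mem_ofFn'] at hy
    obtain ⟨a, rfl⟩ := hy
    exact map_one _⟩)
  rwa [mul_one] at h1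

end mon

variable {χ : Γ →* W.Kˣ} {T : τ → FRep W.K Γ} {dT : τ → ℕ} {X : ι → GVar W Γ} {Z : GVar W Γ}
  (E : ∀ i, Dg χ T dT (X i))

section words

variable {m : ℕ} {L : Fin m → ι} {Y : GVar W Γ} (D : TD X Z L Y)

/-- the letters -/
abbrev Lt (L : Fin m → ι) : Type := Σ a : Fin m, Fin (E (L a)).r

/-- the type of a letter -/
def tl (v : Lt E L) : τ := (E (L v.1)).ty v.2

/-- the elements of a letter -/
def el (v : Lt E L) : (T (tl E v)).V →ₗ[W.K] W.H Y.X :=
  (W.map (D.p v.1)).toLinearMap ∘ₗ (E (L v.1)).ph v.2

theorem el_apply (v : Lt E L) (x : (T (tl E v)).V) :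
    el E D v x = W.map (D.p v.1) ((E (L v.1)).ph v.2 x) := rfl

/-- the degree of a letter -/
def dl (v : Lt E L) : ℕ := (E (L v.1)).d v.2

/-- the twist of a letter -/
def zl (v : Lt E L) : ℤ := (E (L v.1)).z v.2

theorem el_mem (v : Lt E L) (x : (T (tl E v)).V) : el E D v x ∈ W.gr Y.X (dl E v) :=
  W.map_mem _ ((E (L v.1)).ph_mem v.2 x)

/-- the products -/
def Phi (w : List (Lt E L)) :
    MultilinearMap W.K (fun r : Fin w.length => (T (tl E (w.get r))).V) (W.H Y.X) :=
  (MultilinearMap.mkPiAlgebraFin W.K w.length (W.H Y.X)).compLinearMap fun r => el E D (w.get r)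

theorem Phi_apply (w : List (Lt E L)) (x : ∀ r : Fin w.length, (T (tl E (w.get r))).V) :
    Phi E D w x = (List.ofFn fun r => el E D (w.get r) (x r)).prod := by
  rw [Phi, MultilinearMap.compLinearMap_apply, MultilinearMap.mkPiAlgebraFin_apply]

theorem Phi_cons (v : Lt E L) (w : List (Lt E L))
    (x : ∀ r : Fin (v :: w).length, (T (tl E ((v :: w).get r))).V) :
    Phi E D (v :: w) x = el E D v (x 0) * Phi E D w fun r => x r.succ := by
  rw [Phi_apply, Phi_apply]
  have h1 : (List.ofFn fun r : Fin (w.length + 1) => el E D ((v :: w).get r) (x r)) =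
      el E D v (x 0) :: List.ofFn fun r : Fin w.length => el E D (w.get r) (x r.succ) :=
    List.ofFn_succ
  refine (congrArg List.prod h1).trans ?_
  rw [List.prod_cons]

theorem Phi_mem (w : List (Lt E L)) (x : ∀ r : Fin w.length, (T (tl E (w.get r))).V) :
    Phi E D w x ∈ W.gr Y.X (w.map (dl E)).sum := by
  induction w with
  | nil =>
    rw [Phi_apply]
    exact W.one_mem Y.X
  | cons v w ih =>
    rw [Phi_cons, List.map_cons, List.sum_cons]
    exact W.mul_mem (el_mem E D v _) (ih _)

/-- the product of a list of elements of letters -/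
def ev (l : List (Σ v : Lt E L, (T (tl E v)).V)) : W.H Y.X := (l.map fun x => el E D x.1 x.2).prod

theorem exists_Phi (l : List (Σ v : Lt E L, (T (tl E v)).V)) :
    ∃ x, ev E D l = Phi E D (l.map Sigma.fst) x := by
  induction l with
  | nil =>
    refine ⟨fun r => absurd r.2 (by simp), ?_⟩
    rw [Phi_apply]
    rfl
  | cons a l ih =>
    obtain ⟨x, hx⟩ := ih
    refine ⟨Fin.cases (motive := fun r : Fin ((l.map Sigma.fst).length + 1) =>
      (T (tl E ((a.1 :: l.map Sigma.fst).get r))).V) a.2 x, ?_⟩
    change el E D a.1 a.2 * ev E D l = Phi E D (a.1 :: l.map Sigma.fst) _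
    rw [Phi_cons, hx]
    rfl

/-- the action on the products -/
theorem Phi_act {g : Γ} (hg : ∀ a, g ∈ (E (L a)).Δ) (w : List (Lt E L))
    (x : ∀ r : Fin w.length, (T (tl E (w.get r))).V) :
    Phi E D w (fun r => (T (tl E (w.get r))).ρ g (x r)) =
      (χ g : W.K) ^ (w.map (zl E)).sum • Y.act g (Phi E D w x) := by
  induction w with
  | nil =>
    rw [Phi_apply, Phi_apply]
    change (1 : W.H Y.X) = (χ g : W.K) ^ (0 : ℤ) • Y.act g (1 : W.H Y.X)
    rw [map_one, zpow_zero, one_smul]
  | cons v w ih =>
    have h7 : (χ g : W.K) ≠ 0 := Units.ne_zero (χ g)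
    rw [Phi_cons, Phi_cons, List.map_cons, List.sum_cons, zpow_add₀ h7, map_mul]
    have h1 := ih fun r => x r.succ
    have h2 : ∀ y : (T ((E (L v.1)).ty v.2)).V,
        W.map (D.p v.1) ((E (L v.1)).ph v.2 ((T ((E (L v.1)).ty v.2)).ρ g y)) =
        (χ g : W.K) ^ (zl E v) • Y.act g (W.map (D.p v.1) ((E (L v.1)).ph v.2 y)) := by
      intro y
      have h3 : Y.act g (W.map (D.p v.1) ((E (L v.1)).ph v.2 y)) =
          W.map (D.p v.1) ((X (L v.1)).act g ((E (L v.1)).ph v.2 y)) := D.hp v.1 g _
      rw [h3, (E (L v.1)).ph_act g (hg v.1), map_smul, smul_smul, zl, ← zpow_add₀ h7,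
        add_neg_cancel, zpow_zero, one_smul]
    refine (congrArg₂ (· * ·) (h2 (x 0)) h1).trans ?_
    beta_reduce
    rw [smul_mul_assoc, mul_smul_comm, smul_smul]
    rfl

/-- the products of Tate classes of the factors -/
def sig (l : ∀ a, (E (L a)).NC) : W.H Y.X := mon D.p fun a => (E (L a)).s (l a)

theorem mon_tate {x : ∀ a, W.H (X (L a)).X} (h : ∀ a, ∃ n, IsTate χ (X (L a)) n (x a)) :
    ∃ n, IsTate χ Y n (mon D.p x) := by
  rw [mon]
  have key : ∀ l : List (W.H Y.X), (∀ x ∈ l, ∃ n, IsTate χ Y n x) → ∃ n, IsTate χ Y n l.prod := by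
    intro l hl
    induction l with
    | nil => exact ⟨0, IsTate.one⟩
    | cons a l ih =>
      obtain ⟨n, hn⟩ := hl a List.mem_cons_self
      obtain ⟨n', hn'⟩ := ih fun x hx => hl x (List.mem_cons_of_mem _ hx)
      rw [List.prod_cons]
      exact ⟨_, hn.mul hn'⟩
  refine key _ fun y hy => ?_
  rw [List.mem_ofFn'] at hy
  obtain ⟨a, rfl⟩ := hy
  obtain ⟨n, hn⟩ := h a
  exact ⟨n, hn.map (D.hp a)⟩

theorem sig_tate (l : ∀ a, (E (L a)).NC) : ∃ n, IsTate χ Y n (sig E D l) :=
  mon_tate D fun a => ⟨_, (E (L a)).isTate (l a)⟩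

/-- products of central and other elements -/
theorem prod_central {A : Type} [Ring A] {n : ℕ} (f g : Fin n → A)
    (hf : ∀ i x, f i * x = x * f i) :
    (List.ofFn fun i => f i * g i).prod = (List.ofFn g).prod * (List.ofFn f).prod := by
  induction n with
  | zero => rw [List.ofFn_zero, List.ofFn_zero, List.ofFn_zero, List.prod_nil, mul_one]
  | succ n ih =>
    rw [List.ofFn_succ, List.ofFn_succ, List.ofFn_succ, List.prod_cons, List.prod_cons,
      List.prod_cons, ih (fun i => f i.succ) (fun i => g i.succ) fun i => hf i.succ]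
    rw [hf 0, mul_assoc, ← mul_assoc (f 0) _ _, hf 0, mul_assoc, mul_assoc]

/-- multilinear maps and spans -/
theorem mlin_span {K : Type} [Field K] {n : ℕ} {V : Fin n → Type} [∀ a, AddCommGroup (V a)]
    [∀ a, Module K (V a)] {A : Type} [AddCommGroup A] [Module K A] (f : MultilinearMap K V A)
    (G : ∀ a, Set (V a)) (hG : ∀ a x, x ∈ Submodule.span K (G a)) (x : ∀ a, V a) :
    f x ∈ Submodule.span K {y | ∃ x, (∀ a, x a ∈ G a) ∧ y = f x} := by
  classical
  have key : ∀ s : Finset (Fin n), ∀ x : ∀ a, V a, (∀ a ∉ s, x a ∈ G a) →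
      f x ∈ Submodule.span K {y | ∃ x, (∀ a, x a ∈ G a) ∧ y = f x} := by
    intro s
    induction s using Finset.induction_on with
    | empty =>
      intro x hx
      exact Submodule.subset_span ⟨x, fun a => hx a (Finset.notMem_empty _), rfl⟩
    | insert a s ha ih =>
      intro x hx
      have h1 : ∀ y ∈ Submodule.span K (G a), f (update x a y) ∈
          Submodule.span K {y | ∃ x, (∀ a, x a ∈ G a) ∧ y = f x} := by
        intro y hy
        induction hy using Submodule.span_induction with
        | mem y hy =>
          refine ih _ fun b hb => ?_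
          by_cases hba : b = a
          · subst hba
            rw [update_self]
            exact hy
          · rw [update_of_ne hba]
            exact hx b fun h => (Finset.mem_insert.1 h).elim hba hb
        | zero => rw [f.map_update_zero]; exact Submodule.zero_mem _
        | add u v _ _ hu hv => rw [f.map_update_add]; exact Submodule.add_mem _ hu hv
        | smul r u _ hu => rw [f.map_update_smul]; exact Submodule.smul_mem _ _ hu
      have h2 := h1 (x a) (hG a _)
      rwa [update_eq_self] at h2
  exact key Finset.univ x fun a ha => absurd (Finset.mem_univ a) ha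

/-- **The cohomology of a tower is spanned by the products.** -/
theorem span_words (c : W.H Y.X) : c ∈ Submodule.span W.K {y | ∃ (l : ∀ a, (E (L a)).NC)
    (w : ∀ a, List (Fin (E (L a)).r)) (x : _) (z : W.H Z.X), (∀ a, w a ∈ (E (L a)).wd) ∧
      y = W.map D.q z * (Phi E D (List.ofFn fun a => (w a).map fun u =>
        (⟨a, u⟩ : Lt E L)).flatten x * sig E D l)} := by
  have h0 : ∀ (x : ∀ a, W.H (X (L a)).X) (z : W.H Z.X), W.map D.q z * mon D.p x ∈
      Submodule.span W.K {y | ∃ (l : ∀ a, (E (L a)).NC) (w : ∀ a, List (Fin (E (L a)).r))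
        (x : _) (z : W.H Z.X), (∀ a, w a ∈ (E (L a)).wd) ∧
          y = W.map D.q z * (Phi E D (List.ofFn fun a => (w a).map fun u =>
            (⟨a, u⟩ : Lt E L)).flatten x * sig E D l)} := by
    intro x z
    let f : MultilinearMap W.K (fun a => W.H (X (L a)).X) (W.H Y.X) :=
      (MultilinearMap.mkPiAlgebraFin W.K m (W.H Y.X)).compLinearMap fun a =>
        (W.map (D.p a)).toLinearMap
    have hf : ∀ x, f x = mon D.p x := by
      intro x
      change (MultilinearMap.mkPiAlgebraFin W.K m (W.H Y.X)) _ = _
      rw [MultilinearMap.mkPiAlgebraFin_apply]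
      rfl
    have h1 := mlin_span f _ (fun a x => (E (L a)).span x) x
    rw [hf] at h1
    generalize mon D.p x = y0 at h1 ⊢
    induction h1 using Submodule.span_induction with
    | mem y hy =>
      obtain ⟨y', hy', rfl⟩ := hy
      choose l w hw hyw using hy'
      rw [hf]
      let ℓ : List (Σ v : Lt E L, (T (tl E v)).V) := (List.ofFn fun a => (w a).map fun v =>
          (⟨⟨a, v.1⟩, v.2⟩ : Σ v : Lt E L, (T (tl E v)).V)).flatten
      have h2 : mon D.p y' = ev E D ℓ * sig E D l := by
        rw [mon, sig, mon]
        have h3 : (List.ofFn fun a => W.map (D.p a) (y' a)) = List.ofFn fun a =>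
            W.map (D.p a) ((E (L a)).s (l a)) * W.map (D.p a)
              ((w a).map fun v => (E (L a)).ph v.1 v.2).prod := by
          congr 1
          funext a
          rw [hyw a, map_mul]
        rw [h3, prod_central _ _ fun i x =>
          even_comm (W.map_mem _ ((E (L i)).s_mem (l i))) x]
        congr 1
        rw [ev, List.map_flatten, List.map_ofFn, List.prod_flatten, List.map_ofFn]
        congr 2
        funext a
        rw [map_list_prod, List.map_map]
        change _ = (List.map _ (List.map _ (w a))).prod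
        rw [List.map_map]
        rfl
      obtain ⟨x', hx'⟩ := exists_Phi E D ℓ
      have h4 : ℓ.map Sigma.fst = (List.ofFn fun a => ((w a).map Sigma.fst).map fun u =>
            (⟨a, u⟩ : Lt E L)).flatten := by
        change List.map _ (List.flatten _) = _
        rw [List.map_flatten, List.map_ofFn]
        congr 2
        funext a
        change List.map _ (List.map _ (w a)) = _
        rw [List.map_map, List.map_map]
        rfl
      rw [h2, hx']
      refine Submodule.subset_span ⟨l, fun a => (w a).map Sigma.fst, ?_⟩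
      rw [← h4]
      exact ⟨x', z, hw, rfl⟩
    | zero => rw [mul_zero]; exact Submodule.zero_mem _
    | add a b _ _ ha hb => rw [mul_add]; exact Submodule.add_mem _ ha hb
    | smul r a _ ha => rw [mul_smul_comm]; exact Submodule.smul_mem _ _ ha
  have hmem : ∀ (x : ∀ a, W.H (X (L a)).X) (z : W.H Z.X), mon D.p x * W.map D.q z ∈
      Submodule.span W.K {y | ∃ x z, y = W.map D.q z * mon D.p x} := by
    intro x z
    let f : MultilinearMap W.K (fun a => W.H (X (L a)).X) (W.H Y.X) :=
      (MultilinearMap.mkPiAlgebraFin W.K m (W.H Y.X)).compLinearMap fun a =>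
        (W.map (D.p a)).toLinearMap
    have hf : ∀ x, f x = mon D.p x := by
      intro x
      change (MultilinearMap.mkPiAlgebraFin W.K m (W.H Y.X)) _ = _
      rw [MultilinearMap.mkPiAlgebraFin_apply]
      rfl
    have h1 := mlin_span f (fun a => {x | ∃ i, x ∈ W.gr (X (L a)).X i}) (fun a x => by
      refine gr_induction (W.isInternal _) (p := fun x => x ∈ Submodule.span W.K
        {x | ∃ i, x ∈ W.gr (X (L a)).X i}) ?_ ?_ x
      · intro i x hx
        exact Submodule.subset_span ⟨i, hx⟩
      · intro u v hu hv
        exact Submodule.add_mem _ hu hv) x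
    rw [hf] at h1
    generalize mon D.p x = y0 at h1 ⊢
    induction h1 using Submodule.span_induction with
    | mem y hy =>
      obtain ⟨y, hy', rfl⟩ := hy
      rw [hf]
      choose i hi using hy'
      have h2 : ∀ {m : ℕ} {B : Fin m → 𝒱.Obj} (p : ∀ a, Y.X ⟶ B a) (y : ∀ a, W.H (B a))
          (i : Fin m → ℕ) (_ : ∀ a, y a ∈ W.gr (B a) (i a)), ∃ j, mon p y ∈ W.gr Y.X j := by
        intro m
        induction m with
        | zero =>
          intro B p y _ _
          rw [mon_zero]
          exact ⟨0, W.one_mem _⟩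
        | succ m ih =>
          intro B p y i hi
          obtain ⟨j, hj⟩ := ih (fun a => p a.succ) (fun a => y a.succ) (fun a => i a.succ)
            fun a => hi a.succ
          rw [mon_succ]
          exact ⟨_, W.mul_mem (W.map_mem _ (hi 0)) hj⟩
      obtain ⟨j, hj⟩ := h2 D.p y i hi
      refine gr_induction (W.isInternal _) (p := fun z => mon D.p y * W.map D.q z ∈
        Submodule.span W.K {y | ∃ x z, y = W.map D.q z * mon D.p x}) ?_ ?_ z
      · intro i' z hz
        rw [W.comm hj (W.map_mem _ hz)]
        exact Submodule.smul_mem _ _ (Submodule.subset_span ⟨_, _, rfl⟩)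
      · intro u v hu hv
        rw [map_add, mul_add]
        exact Submodule.add_mem _ hu hv
    | zero => rw [zero_mul]; exact Submodule.zero_mem _
    | add a b _ _ ha hb => rw [add_mul]; exact Submodule.add_mem _ ha hb
    | smul r a _ ha => rw [smul_mul_assoc]; exact Submodule.smul_mem _ _ ha
  induction D.span c using Submodule.span_induction with
  | mem y hy =>
    obtain ⟨x, z, rfl⟩ := hy
    have h1 := hmem x z
    generalize mon D.p x * W.map D.q z = y0 at h1 ⊢
    induction h1 using Submodule.span_induction with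
    | mem y hy =>
      obtain ⟨x, z, rfl⟩ := hy
      exact h0 x z
    | zero => exact Submodule.zero_mem _
    | add a b _ _ ha hb => exact Submodule.add_mem _ ha hb
    | smul r a _ ha => exact Submodule.smul_mem _ _ ha
  | zero => exact Submodule.zero_mem _
  | add a b _ _ ha hb => exact Submodule.add_mem _ ha hb
  | smul r a _ ha => exact Submodule.smul_mem _ _ ha

end words

end

end Run7.h552.PG
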